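import Pool.Agent.Helper883.Dicut.Base

set_option autoImplicit false

/-! Disjoint unions, and examples with every number of arcs. -/

namespace Pool.Agent.Helper883.Dicut

open Finset

/-- Disjoint union of two weighted digraphs. -/
noncomputable def djoin {a b : ℕ} (w₁ : WDigraph a) (w₂ : WDigraph b) : WDigraph (a + b) :=
  fun i j => Fin.addCases (fun i₁ => Fin.addCases (fun j₁ => w₁ i₁ j₁) (fun _ => 0) j)
    (fun i₂ => Fin.addCases (fun _ => 0) (fun j₂ => w₂ i₂ j₂) j) i

section
variable {a b : ℕ} (w₁ : WDigraph a) (w₂ : WDigraph b)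

@[simp] lemma djoin_ll (i j : Fin a) : djoin w₁ w₂ (Fin.castAdd b i) (Fin.castAdd b j) = w₁ i j := by
  simp [djoin]
@[simp] lemma djoin_lr (i : Fin a) (j : Fin b) : djoin w₁ w₂ (Fin.castAdd b i) (Fin.natAdd a j) = 0 := by
  simp [djoin]
@[simp] lemma djoin_rl (i : Fin b) (j : Fin a) : djoin w₁ w₂ (Fin.natAdd a i) (Fin.castAdd b j) = 0 := by
  simp [djoin]
@[simp] lemma djoin_rr (i j : Fin b) : djoin w₁ w₂ (Fin.natAdd a i) (Fin.natAdd a j) = w₂ i j := by
  simp [djoin]

lemma total_djoin : totalWeight (djoin w₁ w₂) = totalWeight w₁ + totalWeight w₂ := by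
  unfold totalWeight
  rw [Fin.sum_univ_add]
  congr 1
  · apply Finset.sum_congr rfl
    intro i _
    rw [Fin.sum_univ_add]
    simp
  · apply Finset.sum_congr rfl
    intro i _
    rw [Fin.sum_univ_add]
    simp

lemma cut_ind {n : ℕ} (w : WDigraph n) (X : Finset (Fin n)) :
    cutWeight w X = ∑ u, ∑ v, if u ∈ X ∧ v ∉ X then w u v else 0 := by
  classical
  unfold cutWeight
  rw [← Finset.sum_filter_add_sum_filter_not univ (fun u => u ∈ X)]
  have h2 : ∑ u with u ∉ X, ∑ v, (if u ∈ X ∧ v ∉ X then w u v else 0) = 0 := by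
    apply Finset.sum_eq_zero
    intro u hu
    rw [mem_filter] at hu
    apply Finset.sum_eq_zero
    intro v _
    rw [if_neg (fun h => hu.2 h.1)]
  rw [h2, add_zero]
  apply Finset.sum_congr
  · ext; simp
  · intro u hu
    rw [mem_filter] at hu
    rw [← Finset.sum_filter]
    apply Finset.sum_congr
    · ext v; simp [hu.2]
    · intros; rfl

lemma cut_djoin (X : Finset (Fin (a + b))) :
    cutWeight (djoin w₁ w₂) X = cutWeight w₁ (univ.filter (fun i => Fin.castAdd b i ∈ X))
      + cutWeight w₂ (univ.filter (fun i => Fin.natAdd a i ∈ X)) := by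
  rw [cut_ind, cut_ind, cut_ind, Fin.sum_univ_add]
  congr 1
  · apply Finset.sum_congr rfl
    intro i _
    rw [Fin.sum_univ_add]
    simp
  · apply Finset.sum_congr rfl
    intro i _
    rw [Fin.sum_univ_add]
    simp

lemma mac_djoin : mac (djoin w₁ w₂) ≤ mac w₁ + mac w₂ := by
  apply mac_le
  intro X
  rw [cut_djoin]
  exact add_le_add (cut_le_mac _ _) (cut_le_mac _ _)

end

/-- There is a digraph with arcs going up, weights with property `P`, total weight `m` and
`mac ≤ x`. -/
def Ach (P : ℝ → Prop) (m x : ℝ) : Prop :=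
  ∃ (n : ℕ) (w : WDigraph n), (∀ i j, w i j ≠ 0 → i < j) ∧ (∀ i j, P (w i j)) ∧
    totalWeight w = m ∧ mac w ≤ x

lemma Ach.add {P : ℝ → Prop} (h0 : P 0) {a b x y : ℝ} (h₁ : Ach P a x) (h₂ : Ach P b y) :
    Ach P (a + b) (x + y) := by
  obtain ⟨n₁, w₁, o₁, p₁, t₁, m₁⟩ := h₁
  obtain ⟨n₂, w₂, o₂, p₂, t₂, m₂⟩ := h₂
  refine ⟨n₁ + n₂, djoin w₁ w₂, ?_, ?_, ?_, ?_⟩
  · intro i j
    refine Fin.addCases (fun i => ?_) (fun i => ?_) i
    · refine Fin.addCases (fun j => ?_) (fun j => ?_) j
      · intro h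
        rw [djoin_ll] at h
        have := o₁ i j h
        rw [Fin.lt_def] at this ⊢
        simpa using this
      · intro h; simp at h
    · refine Fin.addCases (fun j => ?_) (fun j => ?_) j
      · intro h; simp at h
      · intro h
        rw [djoin_rr] at h
        have := o₂ i j h
        rw [Fin.lt_def] at this ⊢
        simpa using this
  · intro i j
    refine Fin.addCases (fun i => ?_) (fun i => ?_) i
    · refine Fin.addCases (fun j => ?_) (fun j => ?_) j
      · rw [djoin_ll]; exact p₁ i j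
      · rw [djoin_lr]; exact h0
    · refine Fin.addCases (fun j => ?_) (fun j => ?_) j
      · rw [djoin_rl]; exact h0
      · rw [djoin_rr]; exact p₂ i j
  · rw [total_djoin, t₁, t₂]
  · exact (mac_djoin _ _).trans (add_le_add m₁ m₂)

lemma Ach.mono {P : ℝ → Prop} {m x y : ℝ} (h : Ach P m x) (hxy : x ≤ y) : Ach P m y := by
  obtain ⟨n, w, o, p, t, m⟩ := h
  exact ⟨n, w, o, p, t, m.trans hxy⟩

lemma Ach.zero (P : ℝ → Prop) : Ach P 0 0 := by
  refine ⟨0, fun _ _ => 0, fun i => i.elim0, fun i => i.elim0, by simp [totalWeight], ?_⟩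
  apply mac_le
  intro X
  simp [cutWeight]

lemma Ach.one {P : ℝ → Prop} (h0 : P 0) (h1 : P 1) : Ach P 1 1 := by
  have ht : totalWeight (fun i j : Fin 2 => if i = 0 ∧ j = 1 then (1:ℝ) else 0) = 1 := by
    unfold totalWeight
    rw [Finset.sum_eq_single 0]
    · rw [Finset.sum_eq_single 1]
      · simp
      · intro j _ hj; simp [hj]
      · simp
    · intro i _ hi; simp [hi]
    · simp
  refine ⟨2, fun i j => if i = 0 ∧ j = 1 then 1 else 0, ?_, ?_, ht, ?_⟩
  · intro i j h
    have : i = 0 ∧ j = 1 := by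
      by_contra hc; exact h (if_neg hc)
    rw [this.1, this.2]; decide
  · intro i j
    show P (if i = 0 ∧ j = 1 then 1 else 0)
    split_ifs
    · exact h1
    · exact h0
  · refine le_trans ?_ ht.le
    apply mac_le
    intro X
    rw [cut_ind]
    unfold totalWeight
    apply Finset.sum_le_sum
    intro u _
    apply Finset.sum_le_sum
    intro v _
    have hnn : (0:ℝ) ≤ if u = 0 ∧ v = 1 then (1:ℝ) else 0 := by split_ifs <;> norm_num
    by_cases h : u ∈ X ∧ v ∉ X
    · rw [if_pos h]
    · rw [if_neg h]; exact hnn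

lemma Ach.nat {P : ℝ → Prop} (h0 : P 0) (h1 : P 1) (m : ℕ) : Ach P m m := by
  induction m with
  | zero => simpa using Ach.zero P
  | succ m ih =>
    have := Ach.add h0 ih (Ach.one h0 h1)
    push_cast
    exact this

/-- Filling the gaps between the sizes of a family of examples. -/
theorem fill {P : ℝ → Prop} (h0 : P 0) (h1 : P 1) (p q : ℕ) (hp : 0 < p) (hpq : p ≤ q) (A B C : ℝ)
    (hA : 0 < A) (hB : 1 ≤ B) (hC : 0 ≤ C)
    (hfam : ∀ S : ℕ, 1 ≤ S → ∃ m : ℕ, A * (S:ℝ) ^ q ≤ m ∧ (m:ℝ) ≤ B * (S:ℝ) ^ q ∧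
      Ach P m (m / 4 + C * (S:ℝ) ^ p)) :
    ∀ m : ℕ, 1 ≤ m → Ach P m ((m:ℝ) / 4 + (B + C * (2 ^ q * B / (((p:ℝ) / q) * A))) * (m:ℝ) ^ ((p:ℝ) / q)) := by
  have hq : 0 < q := lt_of_lt_of_le hp hpq
  have hq' : (0:ℝ) < q := by exact_mod_cast hq
  have hp' : (0:ℝ) < p := by exact_mod_cast hp
  set θ : ℝ := (p:ℝ) / q with hθ
  have hθ0 : 0 < θ := by positivity
  have hθ1 : θ ≤ 1 := by
    rw [hθ, div_le_one hq']; exact_mod_cast hpq
  set D : ℝ := B + C * (2 ^ q * B / (θ * A)) with hD
  have hB0 : 0 < B := by linarith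
  have hDB : B ≤ D := by
    have : 0 ≤ C * (2 ^ q * B / (θ * A)) := by positivity
    linarith
  intro m
  induction m using Nat.strong_induction_on with
  | _ m ih =>
    intro hm
    have hm' : (1:ℝ) ≤ m := by exact_mod_cast hm
    have hmpow : (1:ℝ) ≤ (m:ℝ) ^ θ := Real.one_le_rpow hm' hθ0.le
    by_cases hsmall : (m:ℝ) < B
    · apply (Ach.nat h0 h1 m).mono
      have : B ≤ D * (m:ℝ) ^ θ := by nlinarith
      have h4 : (0:ℝ) ≤ (m:ℝ) / 4 := by positivity
      linarith
    · push Not at hsmall
      -- choose S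
      have hex : ∃ S : ℕ, 1 ≤ S ∧ B * (S:ℝ) ^ q ≤ m ∧ (m:ℝ) < B * ((S + 1 : ℕ) : ℝ) ^ q := by
        classical
        set Q : ℕ → Prop := fun S => B * (S:ℝ) ^ q ≤ m with hQ
        have hQ1 : Q 1 := by simp only [hQ]; simpa using hsmall
        have hg := Nat.findGreatest_spec (P := Q) hm hQ1
        have hge : 1 ≤ Nat.findGreatest Q m := Nat.le_findGreatest hm hQ1
        refine ⟨Nat.findGreatest Q m, hge, hg, ?_⟩
        by_contra hc
        push Not at hc
        set g := Nat.findGreatest Q m with hgdef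
        have hle : g + 1 ≤ m := by
          have h3 : ((g + 1 : ℕ) : ℝ) ≤ m := by
            calc ((g + 1 : ℕ) : ℝ) ≤ ((g + 1 : ℕ) : ℝ) ^ q := by
                  exact_mod_cast Nat.le_self_pow (by omega) _
              _ ≤ B * ((g + 1 : ℕ) : ℝ) ^ q := le_mul_of_one_le_left (by positivity) hB
              _ ≤ m := hc
          exact_mod_cast h3
        have : g + 1 ≤ Nat.findGreatest Q m := Nat.le_findGreatest hle hc
        omega
      obtain ⟨S, hS1, hS2, hS3⟩ := hex
      obtain ⟨a, ha1, ha2, ha3⟩ := hfam S hS1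
      have hS1' : (1:ℝ) ≤ S := by exact_mod_cast hS1
      have ham : a ≤ m := by
        have : (a:ℝ) ≤ m := ha2.trans hS2
        exact_mod_cast this
      have hapos : 1 ≤ a := by
        have : (0:ℝ) < a := lt_of_lt_of_le (by positivity) ha1
        have : 0 < a := by exact_mod_cast this
        omega
      have hSp : (S:ℝ) ^ p ≤ (m:ℝ) ^ θ := by
        have e : (S:ℝ) ^ p = ((S:ℝ) ^ q) ^ θ := by
          rw [hθ, ← Real.rpow_natCast, ← Real.rpow_natCast, ← Real.rpow_mul (by positivity)]
          congr 1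
          field_simp
        rw [e]
        apply Real.rpow_le_rpow (by positivity) _ hθ0.le
        calc (S:ℝ) ^ q ≤ B * (S:ℝ) ^ q := le_mul_of_one_le_left (by positivity) hB
          _ ≤ m := hS2
      -- a is a positive proportion of m
      have hprop : A / (2 ^ q * B) * m ≤ a := by
        have h3 : (m:ℝ) ≤ B * (2 ^ q * (S:ℝ) ^ q) := by
          refine hS3.le.trans ?_
          apply mul_le_mul_of_nonneg_left _ hB0.le
          rw [← mul_pow]
          apply pow_le_pow_left₀ (by positivity)
          push_cast; linarith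
        calc A / (2 ^ q * B) * m ≤ A / (2 ^ q * B) * (B * (2 ^ q * (S:ℝ) ^ q)) := by gcongr
          _ = A * (S:ℝ) ^ q := by field_simp
          _ ≤ a := ha1
      rcases Nat.eq_zero_or_pos (m - a) with hb | hb
      · have : a = m := by omega
        rw [this] at ha3
        apply ha3.mono
        have h5 : C ≤ D := by
          have h6 : 1 ≤ 2 ^ q * B / (θ * A) := by
            rw [one_le_div (by positivity)]
            have h7 : A ≤ B := by
              have := ha1.trans ha2
              have h8 : (0:ℝ) < (S:ℝ) ^ q := by positivity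
              exact le_of_mul_le_mul_right this h8
            have h9 : (1:ℝ) ≤ 2 ^ q := one_le_pow₀ (by norm_num)
            calc θ * A ≤ 1 * A := by gcongr
              _ = A := one_mul _
              _ ≤ B := h7
              _ = 1 * B := (one_mul _).symm
              _ ≤ 2 ^ q * B := by gcongr
          have : C * 1 ≤ C * (2 ^ q * B / (θ * A)) := mul_le_mul_of_nonneg_left h6 hC
          linarith
        have : C * (S:ℝ) ^ p ≤ D * (m:ℝ) ^ θ := mul_le_mul h5 hSp (by positivity) (by linarith)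
        linarith
      · have hih := ih (m - a) (by omega) hb
        have hsum := Ach.add h0 ha3 hih
        have hcast : ((m - a : ℕ) : ℝ) = (m:ℝ) - a := by rw [Nat.cast_sub ham]
        rw [hcast] at hsum
        have e1 : (a:ℝ) + ((m:ℝ) - a) = m := by ring
        rw [e1] at hsum
        apply hsum.mono
        -- concavity
        have hm0 : (0:ℝ) < m := by linarith
        have haR : (a:ℝ) ≤ m := by exact_mod_cast ham
        have hconc : ((m:ℝ) - a) ^ θ ≤ (m:ℝ) ^ θ * (1 - θ * (a / m)) := by
          have e2 : (m:ℝ) - a = m * (1 + -(a / m)) := by field_simp; ring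
          have h6 : -1 ≤ -((a:ℝ) / m) := by
            rw [neg_le_neg_iff, div_le_one hm0]; exact haR
          rw [e2, Real.mul_rpow hm0.le (by linarith)]
          apply mul_le_mul_of_nonneg_left _ (by positivity)
          have := rpow_one_add_le_one_add_mul_self h6 hθ0.le hθ1
          calc _ ≤ 1 + θ * -((a:ℝ) / m) := this
            _ = _ := by ring
        have hfrac : A / (2 ^ q * B) ≤ (a:ℝ) / m := by
          rw [le_div_iff₀ hm0]; exact hprop
        have hkey : C * (S:ℝ) ^ p ≤ D * ((m:ℝ) ^ θ * (θ * (a / m))) := by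
          calc C * (S:ℝ) ^ p ≤ C * (m:ℝ) ^ θ := by gcongr
            _ = (C * (2 ^ q * B / (θ * A))) * ((m:ℝ) ^ θ * (θ * (A / (2 ^ q * B)))) := by
                field_simp
            _ ≤ D * ((m:ℝ) ^ θ * (θ * (a / m))) := by
                apply mul_le_mul
                · linarith
                · gcongr
                · positivity
                · linarith
        have hD0 : 0 ≤ D := by linarith
        have := mul_le_mul_of_nonneg_left hconc hD0
        nlinarith

end Pool.Agent.Helper883.Dicut
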