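import Mathlib

set_option autoImplicit false

/-! Weighted digraphs, directed cuts, and the three classes of acyclic digraphs of the problem. -/

namespace Pool.Agent.Helper883.Dicut

/-- A finite weighted digraph with vertex set `Fin n`. The number `w u v` is the total weight of the
arcs from `u` to `v`; it is `0` exactly when there is no arc from `u` to `v` (of positive weight). -/
abbrev WDigraph (n : ℕ) : Type := Fin n → Fin n → ℝ

/-- No directed cycle (loops included) among the arcs. -/
def Acyclic {n : ℕ} (w : WDigraph n) : Prop :=
  ∀ v, ¬ Relation.TransGen (fun a b => w a b ≠ 0) v v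

/-- The sum of all arc weights. -/
def totalWeight {n : ℕ} (w : WDigraph n) : ℝ := ∑ u, ∑ v, w u v

/-- The weight of the directed cut from `X` to its complement. -/
def cutWeight {n : ℕ} (w : WDigraph n) (X : Finset (Fin n)) : ℝ := ∑ u ∈ X, ∑ v ∈ Xᶜ, w u v

/-- The largest weight of a directed cut (a maximum over the finitely many vertex sets `X`). -/
noncomputable def mac {n : ℕ} (w : WDigraph n) : ℝ := ⨆ X : Finset (Fin n), cutWeight w X

/-- Acyclic weighted digraphs in which every arc has weight at least `1`. -/
def ClassW (n : ℕ) (w : WDigraph n) : Prop := Acyclic w ∧ ∀ u v, w u v = 0 ∨ 1 ≤ w u v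

/-- Acyclic directed multigraphs: every arc has weight `1` and there may be any number of parallel
arcs, so `w u v` is the number of arcs from `u` to `v`. -/
def ClassM (n : ℕ) (w : WDigraph n) : Prop := Acyclic w ∧ ∀ u v, ∃ k : ℕ, w u v = k

/-- Acyclic simple digraphs: no parallel arcs, every arc has weight `1`. -/
def ClassS (n : ℕ) (w : WDigraph n) : Prop := Acyclic w ∧ ∀ u v, w u v = 0 ∨ w u v = 1

/-- `α` is an admissible exponent for the class `C`: for some constant `k > 0` every digraph of the
class has a directed cut of weight at least `w(D)/4 + k * w(D)^α`. -/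
def Admissible (C : (n : ℕ) → WDigraph n → Prop) (α : ℝ) : Prop :=
  ∃ k : ℝ, 0 < k ∧ ∀ (n : ℕ) (w : WDigraph n), C n w →
    totalWeight w / 4 + k * totalWeight w ^ α ≤ mac w

/-- The supremum of all admissible exponents `α > 0` of the class `C`. -/
noncomputable def alpha0 (C : (n : ℕ) → WDigraph n → Prop) : ℝ :=
  sSup {α : ℝ | 0 < α ∧ Admissible C α}

end Pool.Agent.Helper883.Dicut
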