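import Pool.Agent.Helper883.Cert
import Pool.Agent.Helper883.Dicut.Defs

set_option autoImplicit false

namespace Pool.Agent.Helper883.Dicut

open Finset Pool.Agent.Helper883.Cert

/-- Weights of a system of cliques: level `j` partitions `U` by `key j`, with multiplicity `μ j`. -/
def levelWeight {κ : Type} [DecidableEq κ] (U J : Finset ℕ) (μ : ℕ → ℝ) (key : ℕ → ℕ → κ) (x y : ℕ) : ℝ :=
  if x ∈ U ∧ y ∈ U ∧ x < y then ∑ j ∈ J, (if key j x = key j y then μ j else 0) else 0

lemma sum_level {κ : Type} [DecidableEq κ] (n : ℕ) (U J : Finset ℕ) (hU : ∀ x ∈ U, x < n) (μ : ℕ → ℝ)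
    (key : ℕ → ℕ → κ) (F : ℕ → ℕ → ℝ) :
    ∑ x ∈ range n, ∑ y ∈ range n, levelWeight U J μ key x y * F x y
      = ∑ j ∈ J, μ j * ∑ x ∈ U, ∑ y ∈ U with x < y ∧ key j x = key j y, F x y := by
  classical
  have hsub : U ⊆ range n := fun x hx => mem_range.2 (hU x hx)
  have h1 : ∀ x y, levelWeight U J μ key x y * F x y
      = ∑ j ∈ J, (if x ∈ U ∧ y ∈ U ∧ x < y ∧ key j x = key j y then μ j * F x y else 0) := by
    intro x y
    unfold levelWeight
    by_cases h : x ∈ U ∧ y ∈ U ∧ x < y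
    · rw [if_pos h, Finset.sum_mul]
      apply Finset.sum_congr rfl
      intro j _
      by_cases hk : key j x = key j y
      · rw [if_pos hk, if_pos ⟨h.1, h.2.1, h.2.2, hk⟩]
      · rw [if_neg hk, if_neg (fun h' => hk h'.2.2.2), zero_mul]
    · rw [if_neg h, zero_mul]
      symm
      apply Finset.sum_eq_zero
      intro j _
      rw [if_neg (fun h' => h ⟨h'.1, h'.2.1, h'.2.2.1⟩)]
  simp_rw [h1]
  have h2 : ∀ x ∈ range n, ∑ y ∈ range n, ∑ j ∈ J,
      (if x ∈ U ∧ y ∈ U ∧ x < y ∧ key j x = key j y then μ j * F x y else 0)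
      = ∑ j ∈ J, ∑ y ∈ range n,
      (if x ∈ U ∧ y ∈ U ∧ x < y ∧ key j x = key j y then μ j * F x y else 0) :=
    fun x _ => Finset.sum_comm
  rw [Finset.sum_congr rfl h2, Finset.sum_comm]
  apply Finset.sum_congr rfl
  intro j _
  rw [Finset.mul_sum]
  rw [← Finset.sum_subset hsub]
  · apply Finset.sum_congr rfl
    intro x hx
    rw [Finset.mul_sum, ← Finset.sum_filter]
    apply Finset.sum_congr
    · ext y
      simp only [mem_filter, mem_range]
      constructor
      · rintro ⟨_, _, h3, h4, h5⟩; exact ⟨h3, h4, h5⟩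
      · rintro ⟨h3, h4, h5⟩; exact ⟨hU y h3, hx, h3, h4, h5⟩
    · intros; rfl
  · intro x _ hx
    apply Finset.sum_eq_zero
    intro y _
    rw [if_neg (fun h' => hx h'.1)]

/-- The `±1` vector of a vertex set. -/
noncomputable def sgn {n : ℕ} (X : Finset (Fin n)) (x : ℕ) : ℝ :=
  if h : x < n then (if (⟨x, h⟩ : Fin n) ∈ X then 1 else -1) else 1

lemma sgn_sq {n : ℕ} (X : Finset (Fin n)) (x : ℕ) : sgn X x ^ 2 = 1 := by
  unfold sgn; split_ifs <;> norm_num

lemma abs_sgn {n : ℕ} (X : Finset (Fin n)) (x : ℕ) : |sgn X x| = 1 := by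
  unfold sgn; split_ifs <;> norm_num

lemma four_cut {n : ℕ} (W : ℕ → ℕ → ℝ) (X : Finset (Fin n)) :
    4 * cutWeight (fun x y : Fin n => W x y) X
      = ∑ x ∈ range n, ∑ y ∈ range n, W x y * ((1 + sgn X x) * (1 - sgn X y)) := by
  classical
  unfold cutWeight
  rw [← Fin.sum_univ_eq_sum_range (fun x => ∑ y ∈ range n, W x y * ((1 + sgn X x) * (1 - sgn X y))) n]
  have h1 : ∀ x : Fin n, ∑ y ∈ range n, W x y * ((1 + sgn X x) * (1 - sgn X y))
      = ∑ y : Fin n, W x y * ((1 + sgn X x) * (1 - sgn X y)) := by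
    intro x
    rw [← Fin.sum_univ_eq_sum_range (fun y => W x y * ((1 + sgn X x) * (1 - sgn X y))) n]
  rw [Finset.sum_congr rfl (fun x _ => h1 x)]
  have h2 : ∀ x y : Fin n, W x y * ((1 + sgn X x) * (1 - sgn X y))
      = if x ∈ X then (if y ∈ Xᶜ then 4 * W x y else 0) else 0 := by
    intro x y
    simp only [sgn, Fin.is_lt, dite_true, Fin.eta, mem_compl]
    split_ifs <;> first | ring | (exfalso; tauto)
  simp_rw [h2]
  rw [Finset.mul_sum]
  simp only [Finset.sum_ite_irrel, Finset.sum_const_zero]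
  rw [← Finset.sum_filter]
  simp only [Finset.filter_mem_eq_inter, Finset.univ_inter]
  apply Finset.sum_congr rfl
  intro x _
  rw [Finset.mul_sum, ← Finset.sum_filter]
  congr 1
  ext y; simp

lemma total_restr (n : ℕ) (W : ℕ → ℕ → ℝ) :
    totalWeight (fun x y : Fin n => W x y) = ∑ x ∈ range n, ∑ y ∈ range n, W x y := by
  unfold totalWeight
  rw [← Fin.sum_univ_eq_sum_range (fun x => ∑ y ∈ range n, W x y) n]
  apply Finset.sum_congr rfl
  intro x _
  rw [← Fin.sum_univ_eq_sum_range (fun y => W x y) n]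

/-- Certificate for an upper bound on all directed cuts of a level system. -/
theorem cert {κ : Type} [DecidableEq κ] (n : ℕ) (U J : Finset ℕ) (hU : ∀ x ∈ U, x < n) (μ : ℕ → ℝ)
    (hμ : ∀ j ∈ J, 0 ≤ μ j) (key : ℕ → ℕ → κ) (β : ℕ → κ → ℝ) (R : ℕ → Finset κ)
    (hR : ∀ j ∈ J, ∀ x ∈ U, key j x ∈ R j) (X : Finset (Fin n)) :
    4 * cutWeight (fun x y : Fin n => levelWeight U J μ key x y) X
      ≤ totalWeight (fun x y : Fin n => levelWeight U J μ key x y)
        + ∑ j ∈ J, μ j * ((U.card : ℝ) / 2 + (∑ k ∈ R j, β j k ^ 2) / 2)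
        + ∑ x ∈ U, |∑ j ∈ J, μ j * (((U.filter (fun y => x < y ∧ key j x = key j y)).card : ℝ)
            - ((U.filter (fun y => y < x ∧ key j x = key j y)).card : ℝ) - β j (key j x))| := by
  classical
  rw [four_cut, sum_level n U J hU μ key]
  have ht : totalWeight (fun x y : Fin n => levelWeight U J μ key x y)
      = ∑ j ∈ J, μ j * ∑ x ∈ U, ((U.filter (fun y => x < y ∧ key j x = key j y)).card : ℝ) := by
    rw [total_restr]
    have := sum_level n U J hU μ key (fun _ _ => 1)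
    simp only [mul_one, Finset.sum_const, nsmul_eq_mul] at this
    exact this
  rw [ht]
  have hlev : ∀ j ∈ J, μ j * ∑ x ∈ U, ∑ y ∈ U with x < y ∧ key j x = key j y, ((1 + sgn X x) * (1 - sgn X y))
      ≤ μ j * ∑ x ∈ U, ((U.filter (fun y => x < y ∧ key j x = key j y)).card : ℝ)
        + μ j * ((U.card : ℝ) / 2 + (∑ k ∈ R j, β j k ^ 2) / 2)
        + ∑ x ∈ U, sgn X x * (μ j * (((U.filter (fun y => x < y ∧ key j x = key j y)).card : ℝ)
            - ((U.filter (fun y => y < x ∧ key j x = key j y)).card : ℝ) - β j (key j x))) := by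
    intro j hj
    have h := level_bound U (key j) (β j) (R j) (hR j hj) (sgn X) (sgn_sq X)
    have h2 := mul_le_mul_of_nonneg_left h (hμ j hj)
    refine h2.trans (le_of_eq ?_)
    have e : ∑ x ∈ U, sgn X x * (μ j * (((U.filter (fun y => x < y ∧ key j x = key j y)).card : ℝ)
            - ((U.filter (fun y => y < x ∧ key j x = key j y)).card : ℝ) - β j (key j x)))
        = μ j * ∑ x ∈ U, sgn X x * (((U.filter (fun y => x < y ∧ key j x = key j y)).card : ℝ)
            - ((U.filter (fun y => y < x ∧ key j x = key j y)).card : ℝ) - β j (key j x)) := by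
      rw [Finset.mul_sum]
      apply Finset.sum_congr rfl
      intro x _
      ring
    rw [e]; ring
  have hs := Finset.sum_le_sum hlev
  rw [Finset.sum_add_distrib, Finset.sum_add_distrib] at hs
  refine hs.trans ?_
  gcongr
  rw [Finset.sum_comm]
  apply Finset.sum_le_sum
  intro x _
  rw [← Finset.mul_sum]
  calc sgn X x * _ ≤ |sgn X x * _| := le_abs_self _
    _ = _ := by rw [abs_mul, abs_sgn, one_mul]

lemma mac_le {n : ℕ} (w : WDigraph n) (B : ℝ) (h : ∀ X, cutWeight w X ≤ B) : mac w ≤ B :=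
  ciSup_le h

lemma cut_le_mac {n : ℕ} (w : WDigraph n) (X : Finset (Fin n)) : cutWeight w X ≤ mac w :=
  le_ciSup (Set.finite_range _).bddAbove X

end Pool.Agent.Helper883.Dicut
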