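import Pool.Agent.Helper883.Dicut.Grid

set_option autoImplicit false

namespace Pool.Agent.Helper883.Dicut.Grid

open Finset Pool.Agent.Helper883.Dicut

lemma pos_pos {N a : ℕ} (h : a < N) : 1 ≤ pos N a := by unfold pos; omega

lemma cb_pos {p : ℕ} (h : 1 ≤ p) : 1 ≤ cb p := le_cb (by simpa using h)

lemma pred_cube {p : ℕ} : (cb p - 1) ^ 3 + (cb p - 1) ^ 2 ≤ p := by
  have h := cb_le p
  rcases Nat.eq_zero_or_pos (cb p) with h0 | h0
  · rw [h0]; simp
  · obtain ⟨t, ht⟩ := Nat.exists_eq_add_of_le h0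
    rw [ht] at h ⊢
    simp only [Nat.succ_eq_add_one, zero_add, add_tsub_cancel_left]
    nlinarith [h, Nat.zero_le t, sq_nonneg t]

lemma up_le {N a : ℕ} : up N a a ≤ cb (pos N a) ^ 2 := by
  unfold up
  have h : (range N).filter (fun c => a < c ∧ R N a c) ⊆ Ioc a (a + cb (pos N a) ^ 2) := by
    intro c hc
    simp only [mem_filter, mem_range, mem_Ioc] at hc ⊢
    obtain ⟨_, h2, h3⟩ := hc
    refine ⟨h2, ?_⟩
    unfold R at h3
    have : v (min (pos N a) (pos N c)) ≤ v (pos N a) := v_mono (min_le_left _ _)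
    unfold v at *
    omega
  calc _ ≤ (Ioc a (a + cb (pos N a) ^ 2)).card := card_le_card h
    _ = _ := by rw [Nat.card_Ioc]; omega

lemma dn_le {N a : ℕ} : dn N a a ≤ cb (pos N a) ^ 2 := by
  unfold dn
  have h : (range N).filter (fun c => c < a ∧ R N a c) ⊆ Ico (a - cb (pos N a) ^ 2) a := by
    intro c hc
    simp only [mem_filter, mem_range, mem_Ico] at hc ⊢
    obtain ⟨_, h2, h3⟩ := hc
    refine ⟨?_, h2⟩
    unfold R at h3
    have : v (min (pos N a) (pos N c)) ≤ v (pos N a) := v_mono (min_le_left _ _)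
    unfold v at *
    omega
  calc _ ≤ (Ico (a - cb (pos N a) ^ 2) a).card := card_le_card h
    _ ≤ _ := by rw [Nat.card_Ico]; omega

lemma le_up {N a : ℕ} (ha : a < N) : (cb (pos N a) - 1) ^ 2 ≤ up N a a := by
  unfold up
  have hpc := @pred_cube (pos N a)
  set t := cb (pos N a) - 1 with ht
  have h : Ioc a (a + t ^ 2) ⊆ (range N).filter (fun c => a < c ∧ R N a c) := by
    intro c hc
    simp only [mem_filter, mem_range, mem_Ioc] at hc ⊢
    obtain ⟨h1, h2⟩ := hc
    have hp1 : pos N a ≤ N - a := min_le_right _ _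
    have h1' : 1 ≤ t ^ 2 := by omega
    have ht1 : 1 ≤ t := by
      by_contra h0
      have : t = 0 := by omega
      rw [this] at h1'; simp at h1'
    have ht3 : 1 ≤ t ^ 3 := Nat.one_le_pow _ _ ht1
    have hcN : c < N := by omega
    refine ⟨hcN, h1, ?_⟩
    have hp : t ^ 3 ≤ min (pos N a) (pos N c) := by
      have : pos N a ≤ pos N c + (c - a) := by unfold pos; omega
      apply le_min <;> omega
    have hv : t ^ 2 ≤ v (min (pos N a) (pos N c)) := Nat.pow_le_pow_left (le_cb hp) 2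
    unfold R
    constructor <;> omega
  calc _ = (Ioc a (a + t ^ 2)).card := by rw [Nat.card_Ioc]; omega
    _ ≤ _ := card_le_card h

lemma le_dn {N a : ℕ} (ha : a < N) : (cb (pos N a) - 1) ^ 2 ≤ dn N a a := by
  unfold dn
  have hpc := @pred_cube (pos N a)
  set t := cb (pos N a) - 1 with ht
  have hp1 : pos N a ≤ a + 1 := min_le_left _ _
  have hta : t ^ 2 ≤ a := by
    rcases Nat.eq_zero_or_pos t with h0 | h0
    · rw [h0]; simp
    · have : 1 ≤ t ^ 3 := Nat.one_le_pow _ _ h0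
      omega
  have h : Ico (a - t ^ 2) a ⊆ (range N).filter (fun c => c < a ∧ R N a c) := by
    intro c hc
    simp only [mem_filter, mem_range, mem_Ico] at hc ⊢
    obtain ⟨h1, h2⟩ := hc
    refine ⟨by omega, h2, ?_⟩
    have hp : t ^ 3 ≤ min (pos N a) (pos N c) := by
      have : pos N a ≤ pos N c + (a - c) := by unfold pos; omega
      apply le_min <;> omega
    have hv : t ^ 2 ≤ v (min (pos N a) (pos N c)) := Nat.pow_le_pow_left (le_cb hp) 2
    unfold R
    constructor <;> omega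
  calc _ = (Ico (a - t ^ 2) a).card := by rw [Nat.card_Ico]; omega
    _ ≤ _ := card_le_card h

lemma K_eq {N a : ℕ} (ha : a < N) : K N a = up N a a + dn N a a + 1 := by
  unfold K up dn
  have h : (range N).filter (fun c => R N a c)
      = ((range N).filter (fun c => a < c ∧ R N a c) ∪ (range N).filter (fun c => c < a ∧ R N a c)) ∪ {a} := by
    ext c
    simp only [mem_filter, mem_range, mem_union, mem_singleton]
    constructor
    · rintro ⟨h1, h2⟩
      rcases lt_trichotomy a c with h3 | h3 | h3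
      · left; left; exact ⟨h1, h3, h2⟩
      · right; exact h3.symm
      · left; right; exact ⟨h1, h3, h2⟩
    · rintro ((⟨h1, _, h3⟩ | ⟨h1, _, h3⟩) | rfl)
      · exact ⟨h1, h3⟩
      · exact ⟨h1, h3⟩
      · exact ⟨ha, R_refl _ _⟩
  rw [h, card_union_of_disjoint, card_union_of_disjoint, card_singleton]
  · rw [disjoint_left]
    intro c hc1 hc2
    simp only [mem_filter] at hc1 hc2
    omega
  · rw [disjoint_left]
    intro c hc1 hc2
    simp only [mem_union, mem_filter, mem_singleton] at hc1 hc2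
    omega

lemma sum_cb (T : ℕ) (F : ℕ → ℝ) :
    ∑ p ∈ range ((T + 1) ^ 3 - 1), F (cb (p + 1)) = ∑ t ∈ range T, (3 * ((t:ℝ) + 1) ^ 2 + 3 * ((t:ℝ) + 1) + 1) * F (t + 1) := by
  induction T with
  | zero => simp
  | succ T ih =>
    rw [Finset.sum_range_succ, ← ih]
    have e : (T + 1 + 1) ^ 3 - 1 = ((T + 1) ^ 3 - 1) + (3 * (T + 1) ^ 2 + 3 * (T + 1) + 1) := by
      have : (T + 1 + 1) ^ 3 = (T + 1) ^ 3 + (3 * (T + 1) ^ 2 + 3 * (T + 1) + 1) := by ring
      have h1 : 1 ≤ (T + 1) ^ 3 := Nat.one_le_pow _ _ (by omega)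
      omega
    rw [e, Finset.sum_range_add]
    congr 1
    have h2 : ∀ i ∈ range (3 * (T + 1) ^ 2 + 3 * (T + 1) + 1), F (cb ((T + 1) ^ 3 - 1 + i + 1)) = F (T + 1) := by
      intro i hi
      rw [mem_range] at hi
      congr 1
      have h1 : 1 ≤ (T + 1) ^ 3 := Nat.one_le_pow _ _ (by omega)
      apply cb_eq
      · omega
      · have : (T + 1 + 1) ^ 3 = (T + 1) ^ 3 + (3 * (T + 1) ^ 2 + 3 * (T + 1) + 1) := by ring
        omega
    rw [Finset.sum_congr rfl h2, Finset.sum_const, card_range, nsmul_eq_mul]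
    push_cast
    ring

lemma sum_pos (T : ℕ) (F : ℕ → ℝ) :
    ∑ a ∈ range (2 * ((T + 1) ^ 3 - 1)), F (cb (pos (2 * ((T + 1) ^ 3 - 1)) a))
      = 2 * ∑ t ∈ range T, (3 * ((t:ℝ) + 1) ^ 2 + 3 * ((t:ℝ) + 1) + 1) * F (t + 1) := by
  rw [← sum_cb]
  set M := (T + 1) ^ 3 - 1 with hM
  have e : 2 * M = M + M := by ring
  rw [e, Finset.sum_range_add, two_mul]
  congr 1
  · apply Finset.sum_congr rfl
    intro a ha
    rw [mem_range] at ha
    congr 2
    unfold pos; omega
  · rw [← Finset.sum_range_reflect]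
    apply Finset.sum_congr rfl
    intro a ha
    rw [mem_range] at ha
    congr 2
    unfold pos; omega

/-- The side length of the `T`-th example. -/
def NN (T : ℕ) : ℕ := 2 * ((T + 1) ^ 3 - 1)

lemma excess_le (T : ℕ) :
    ∑ a ∈ range (NN T), ((K (NN T) a : ℝ) + G (NN T) a ^ 2) ≤ 36 / 5 * ((T:ℝ) + 1) ^ 5 := by
  have h1 : ∑ a ∈ range (NN T), ((K (NN T) a : ℝ) + G (NN T) a ^ 2)
      ≤ ∑ a ∈ range (NN T), (fun t : ℕ => 6 * (t:ℝ) ^ 2 - 4 * t + 2) (cb (pos (NN T) a)) := by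
    apply Finset.sum_le_sum
    intro a ha
    rw [mem_range] at ha
    have ht := cb_pos (pos_pos ha)
    obtain ⟨t, ht'⟩ := Nat.exists_eq_add_of_le ht
    have u1 := @up_le (NN T) a
    have u2 := @dn_le (NN T) a
    have u3 := le_up ha
    have u4 := le_dn ha
    rw [ht'] at u1 u2 u3 u4 ⊢
    simp only [add_tsub_cancel_left] at u3 u4
    have k := K_eq ha
    have v1 : (up (NN T) a a : ℝ) ≤ (1 + t) ^ 2 := by exact_mod_cast u1
    have v2 : (dn (NN T) a a : ℝ) ≤ (1 + t) ^ 2 := by exact_mod_cast u2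
    have v3 : (t : ℝ) ^ 2 ≤ up (NN T) a a := by exact_mod_cast u3
    have v4 : (t : ℝ) ^ 2 ≤ dn (NN T) a a := by exact_mod_cast u4
    rw [k]
    unfold G
    push_cast
    set x := (up (NN T) a a : ℝ)
    set y := (dn (NN T) a a : ℝ)
    have ht0 : (0 : ℝ) ≤ t := Nat.cast_nonneg _
    have w1 : (x - y) ≤ 2 * t + 1 := by nlinarith
    have w2 : -(2 * t + 1) ≤ (x - y) := by nlinarith
    have w3 : (x - y) ^ 2 ≤ (2 * t + 1) ^ 2 := by
      apply sq_le_sq'
      · linarith
      · linarith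
    nlinarith
  refine h1.trans ?_
  unfold NN
  rw [sum_pos T (fun t : ℕ => 6 * (t:ℝ) ^ 2 - 4 * t + 2)]
  have h2 : ∑ t ∈ range T, (3 * ((t:ℝ) + 1) ^ 2 + 3 * ((t:ℝ) + 1) + 1) * (6 * (((t + 1 : ℕ)) : ℝ) ^ 2 - 4 * ((t + 1 : ℕ) : ℝ) + 2)
      ≤ 18 / 5 * ((T:ℝ) + 1) ^ 5 := by
    induction T with
    | zero => simp; norm_num
    | succ T ih =>
      rw [Finset.sum_range_succ]
      have ih' := ih (by
        apply Finset.sum_le_sum
        intro a ha
        rw [mem_range] at ha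
        have ht := cb_pos (pos_pos ha)
        obtain ⟨t, ht'⟩ := Nat.exists_eq_add_of_le ht
        have u1 := @up_le (NN T) a
        have u2 := @dn_le (NN T) a
        have u3 := le_up ha
        have u4 := le_dn ha
        rw [ht'] at u1 u2 u3 u4 ⊢
        simp only [add_tsub_cancel_left] at u3 u4
        have k := K_eq ha
        have v1 : (up (NN T) a a : ℝ) ≤ (1 + t) ^ 2 := by exact_mod_cast u1
        have v2 : (dn (NN T) a a : ℝ) ≤ (1 + t) ^ 2 := by exact_mod_cast u2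
        have v3 : (t : ℝ) ^ 2 ≤ up (NN T) a a := by exact_mod_cast u3
        have v4 : (t : ℝ) ^ 2 ≤ dn (NN T) a a := by exact_mod_cast u4
        rw [k]
        unfold G
        push_cast
        set x := (up (NN T) a a : ℝ)
        set y := (dn (NN T) a a : ℝ)
        have ht0 : (0 : ℝ) ≤ t := Nat.cast_nonneg _
        have w1 : (x - y) ≤ 2 * t + 1 := by nlinarith
        have w2 : -(2 * t + 1) ≤ (x - y) := by nlinarith
        have w3 : (x - y) ^ 2 ≤ (2 * t + 1) ^ 2 := by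
          apply sq_le_sq'
          · linarith
          · linarith
        nlinarith)
      push_cast at ih' ⊢
      have hT : (0 : ℝ) ≤ T := Nat.cast_nonneg _
      nlinarith [pow_nonneg hT 2, pow_nonneg hT 3, pow_nonneg hT 4]
  linarith

lemma total_ge (T : ℕ) (hT : 1 ≤ T) :
    24 / 7 * ((T:ℝ) - 1) ^ 7 ≤ totalWeight (fun x y : Fin (NN T * NN T) => W (NN T) x y) := by
  rw [total_eq]
  have h1 : ∑ a ∈ range (NN T), (fun t : ℕ => (2 * ((t:ℝ) - 1) ^ 2 + 1) * (2 * ((t:ℝ) - 1) ^ 2)) (cb (pos (NN T) a))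
      ≤ ∑ a ∈ range (NN T), (K (NN T) a : ℝ) * ((K (NN T) a : ℝ) - 1) := by
    apply Finset.sum_le_sum
    intro a ha
    rw [mem_range] at ha
    have ht := cb_pos (pos_pos ha)
    obtain ⟨t, ht'⟩ := Nat.exists_eq_add_of_le ht
    have u3 := le_up ha
    have u4 := le_dn ha
    rw [ht'] at u3 u4 ⊢
    simp only [add_tsub_cancel_left] at u3 u4
    have k := K_eq ha
    have v3 : (t : ℝ) ^ 2 ≤ up (NN T) a a := by exact_mod_cast u3
    have v4 : (t : ℝ) ^ 2 ≤ dn (NN T) a a := by exact_mod_cast u4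
    rw [k]
    push_cast
    have ht0 : (0 : ℝ) ≤ (t:ℝ) ^ 2 := by positivity
    have e : (1 + (t:ℝ) - 1) = t := by ring
    rw [e]
    have a1 : 2 * (t:ℝ) ^ 2 + 1 ≤ up (NN T) a a + dn (NN T) a a + 1 := by linarith
    have a2 : 2 * (t:ℝ) ^ 2 ≤ up (NN T) a a + dn (NN T) a a + 1 - 1 := by linarith
    exact mul_le_mul a1 a2 (by linarith) (by linarith)
  refine le_trans ?_ h1
  clear h1
  unfold NN
  rw [sum_pos T (fun t : ℕ => (2 * ((t:ℝ) - 1) ^ 2 + 1) * (2 * ((t:ℝ) - 1) ^ 2))]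
  have h2 : ∀ S : ℕ, 12 / 7 * (S:ℝ) ^ 7 ≤ ∑ t ∈ range (S + 1), (3 * ((t:ℝ) + 1) ^ 2 + 3 * ((t:ℝ) + 1) + 1)
      * ((2 * ((((t + 1 : ℕ)) : ℝ) - 1) ^ 2 + 1) * (2 * ((((t + 1 : ℕ)) : ℝ) - 1) ^ 2)) := by
    intro S
    induction S with
    | zero => simp
    | succ S ih =>
      rw [Finset.sum_range_succ]
      push_cast at ih ⊢
      have hS : (0 : ℝ) ≤ S := Nat.cast_nonneg _
      nlinarith [pow_nonneg hS 2, pow_nonneg hS 3, pow_nonneg hS 4, pow_nonneg hS 5, pow_nonneg hS 6]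
  obtain ⟨S, rfl⟩ := Nat.exists_eq_add_of_le hT
  have h3 := h2 S
  rw [add_comm 1 S]
  push_cast at h3 ⊢
  have e : (S:ℝ) + 1 - 1 = S := by ring
  rw [e]
  linarith

/-- The main bound on the grid digraph. -/
theorem mac_le (T : ℕ) :
    mac (fun x y : Fin (NN T * NN T) => W (NN T) x y)
      ≤ totalWeight (fun x y : Fin (NN T * NN T) => W (NN T) x y) / 4 + 9 / 5 * ((T:ℝ) + 1) ^ 5 := by
  apply Dicut.mac_le
  intro X
  have h1 := cut_le (NN T) X
  have h2 := excess_le T
  linarith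

lemma W_pos_lt {N x y : ℕ} (h : W N x y ≠ 0) : x < y := by
  unfold W levelWeight at h
  by_contra hc
  rw [if_neg (fun h' => hc h'.2.2)] at h
  exact h rfl

lemma W_zero_one (N x y : ℕ) : W N x y = 0 ∨ W N x y = 1 := by
  unfold W levelWeight
  by_cases h : x ∈ U N ∧ y ∈ U N ∧ x < y
  · rw [if_pos h, Finset.sum_pair (by norm_num)]
    simp only [key, if_true, one_ne_zero, if_false]
    by_cases h1 : x / N = y / N
    · by_cases h2 : x % N = y % N
      · exfalso
        have e1 := Nat.div_add_mod x N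
        have e2 := Nat.div_add_mod y N
        rw [h1, h2, e2] at e1
        omega
      · rw [if_pos h1, if_neg h2]; right; norm_num
    · by_cases h2 : x % N = y % N
      · rw [if_neg h1, if_pos h2]; right; norm_num
      · rw [if_neg h1, if_neg h2]; left; norm_num
  · left; rw [if_neg h]

lemma acyclic_of_lt {n : ℕ} (w : WDigraph n) (h : ∀ x y, w x y ≠ 0 → x < y) : Acyclic w := by
  intro v hv
  have : ∀ b, Relation.TransGen (fun a b => w a b ≠ 0) v b → v < b := by
    intro b hb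
    induction hb with
    | single h1 => exact h _ _ h1
    | tail _ h1 ih => exact ih.trans (h _ _ h1)
  exact lt_irrefl _ (this v hv)

lemma classS (N : ℕ) : ClassS (N * N) (fun x y : Fin (N * N) => W N x y) := by
  refine ⟨acyclic_of_lt _ ?_, fun u v => W_zero_one N u v⟩
  intro x y h
  exact W_pos_lt h

end Pool.Agent.Helper883.Dicut.Grid
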