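import Pool.Agent.Helper883.Dicut.LowerW
import Pool.Agent.Helper883.Dicut.GridBound

set_option autoImplicit false

/-! Maximum directed cuts and the longest path. -/

namespace Pool.Agent.Helper883.Dicut

open Finset

/-- A weighted acyclic digraph on `Fin n`: an arc relation without directed cycles and a nonnegative
weight on every arc (weight `0` is allowed); pairs that are not arcs have weight `0`. -/
structure WAcyclic (n : ℕ) where
  arc : Fin n → Fin n → Prop
  weight : WDigraph n
  nonneg : ∀ u v, 0 ≤ weight u v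
  supp : ∀ u v, ¬ arc u v → weight u v = 0
  acyclic : ∀ v, ¬ Relation.TransGen arc v v

/-- There is a directed path with exactly `k` vertices. -/
def HasPath {n : ℕ} (D : WAcyclic n) (k : ℕ) : Prop :=
  ∃ p : Fin k → Fin n, Function.Injective p ∧ ∀ i j : Fin k, (i : ℕ) + 1 = (j : ℕ) → D.arc (p i) (p j)

/-- The maximum path order is `ν`. -/
def MaxPathOrder {n : ℕ} (D : WAcyclic n) (ν : ℕ) : Prop := IsGreatest {k : ℕ | HasPath D k} ν

/-- The supremum of all `c ≥ 0` such that `mac D ≥ c * w(D)` for every weighted acyclic digraph `D`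
whose maximum path order is `ν`. -/
noncomputable def cNu (ν : ℕ) : ℝ :=
  sSup {c : ℝ | 0 ≤ c ∧ ∀ (n : ℕ) (D : WAcyclic n), MaxPathOrder D ν →
    c * totalWeight D.weight ≤ mac D.weight}

/-! ### The transitive tournament with pushed forward weights -/

/-- push forward of weights along a map -/
noncomputable def push {n ν : ℕ} (w : WDigraph n) (f : Fin n → Fin ν) : WDigraph ν :=
  fun i j => ∑ x with f x = i, ∑ y with f y = j, w x y

lemma cut_push {n ν : ℕ} (w : WDigraph n) (f : Fin n → Fin ν) (X : Finset (Fin ν)) :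
    cutWeight (push w f) X = cutWeight w (univ.filter (fun x => f x ∈ X)) := by
  classical
  unfold cutWeight push
  have h1 : ∀ i ∈ X, ∑ j ∈ Xᶜ, ∑ x with f x = i, ∑ y with f y = j, w x y
      = ∑ x with f x = i, ∑ y ∈ (univ.filter (fun x => f x ∈ X))ᶜ, w x y := by
    intro i _
    rw [Finset.sum_comm]
    apply Finset.sum_congr rfl
    intro x _
    rw [← Finset.sum_fiberwise_of_maps_to (s := (univ.filter (fun x => f x ∈ X))ᶜ) (t := Xᶜ) (g := f)]
    · apply Finset.sum_congr rfl
      intro j hj
      apply Finset.sum_congr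
      · ext y
        simp only [mem_filter, mem_univ, true_and, mem_compl]
        rw [mem_compl] at hj
        constructor
        · intro h; rw [h]; exact ⟨hj, rfl⟩
        · intro h; exact h.2
      · intros; rfl
    · intro y hy
      simp only [mem_compl, mem_filter, mem_univ, true_and] at hy ⊢
      exact hy
  rw [Finset.sum_congr rfl h1]
  rw [← Finset.sum_fiberwise_of_maps_to (s := (univ.filter (fun x => f x ∈ X))) (t := X) (g := f)]
  · apply Finset.sum_congr rfl
    intro i hi
    apply Finset.sum_congr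
    · ext x
      simp only [mem_filter, mem_univ, true_and]
      constructor
      · intro h; rw [h]; exact ⟨hi, rfl⟩
      · intro h; exact h.2
    · intros; rfl
  · intro x hx
    simp only [mem_filter, mem_univ, true_and] at hx
    exact hx

lemma total_push {n ν : ℕ} (w : WDigraph n) (f : Fin n → Fin ν) :
    totalWeight (push w f) = totalWeight w := by
  classical
  unfold totalWeight push
  have h1 : ∀ i : Fin ν, ∑ j : Fin ν, ∑ x with f x = i, ∑ y with f y = j, w x y
      = ∑ x with f x = i, ∑ y, w x y := by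
    intro i
    rw [Finset.sum_comm]
    apply Finset.sum_congr rfl
    intro x _
    rw [Finset.sum_fiberwise]
  simp_rw [h1]
  rw [Finset.sum_fiberwise]

lemma mac_push {n ν : ℕ} (w : WDigraph n) (f : Fin n → Fin ν) : mac (push w f) ≤ mac w := by
  apply mac_le
  intro X
  rw [cut_push]
  exact cut_le_mac w _

/-- The transitive tournament on `Fin ν` with given weights. -/
noncomputable def tourn {ν : ℕ} (w : WDigraph ν) (hw : ∀ i j, 0 ≤ w i j) (hs : ∀ i j, w i j ≠ 0 → i < j) :
    WAcyclic ν where
  arc i j := i < j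
  weight := w
  nonneg := hw
  supp := fun i j h => by
    by_contra h0
    exact h (hs i j h0)
  acyclic := by
    intro v hv
    have : ∀ b, Relation.TransGen (fun a b : Fin ν => a < b) v b → v < b := by
      intro b hb
      induction hb with
      | single h1 => exact h1
      | tail _ h1 ih => exact ih.trans h1
    exact lt_irrefl _ (this v hv)

lemma tourn_order {ν : ℕ} (w : WDigraph ν) (hw : ∀ i j, 0 ≤ w i j) (hs : ∀ i j, w i j ≠ 0 → i < j) :
    MaxPathOrder (tourn w hw hs) ν := by
  constructor
  · refine ⟨id, Function.injective_id, ?_⟩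
    intro i j h
    show i < j
    rw [Fin.lt_def]; omega
  · rintro k ⟨p, hp, _⟩
    simpa using Fintype.card_le_of_injective p hp

/-- An upper bound for `cNu` from any weighting of a graded digraph with few levels. -/
lemma cNu_le {n ν : ℕ} (w : WDigraph n) (hw : ∀ i j, 0 ≤ w i j) (f : Fin n → Fin ν)
    (hf : ∀ i j, w i j ≠ 0 → f i < f j) (htot : 0 < totalWeight w) (B : ℝ) (hB : mac w ≤ B * totalWeight w) :
    cNu ν ≤ B := by
  classical
  have hp0 : ∀ i j, 0 ≤ push w f i j := fun i j =>
    Finset.sum_nonneg (fun x _ => Finset.sum_nonneg (fun y _ => hw x y))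
  have hps : ∀ i j, push w f i j ≠ 0 → i < j := by
    intro i j h
    by_contra hlt
    apply h
    unfold push
    apply Finset.sum_eq_zero
    intro x hx
    apply Finset.sum_eq_zero
    intro y hy
    rw [mem_filter] at hx hy
    by_contra h0
    have := hf x y h0
    rw [hx.2, hy.2] at this
    exact hlt this
  have hB0 : 0 ≤ B := by
    have h1 : 0 ≤ mac w := by
      have := cut_le_mac w ∅
      simpa [cutWeight] using this
    by_contra hneg
    push Not at hneg
    have : B * totalWeight w < 0 := mul_neg_of_neg_of_pos hneg htot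
    linarith
  apply Real.sSup_le _ hB0
  rintro c ⟨_, hc⟩
  have h1 := hc ν (tourn (push w f) hp0 hps) (tourn_order _ _ _)
  have h2 : (tourn (push w f) hp0 hps).weight = push w f := rfl
  rw [h2, total_push] at h1
  have h3 := mac_push w f
  by_contra hlt
  push Not at hlt
  have : B * totalWeight w < c * totalWeight w := mul_lt_mul_of_pos_right hlt htot
  linarith

lemma mac_le_total {n : ℕ} (w : WDigraph n) (hw : ∀ i j, 0 ≤ w i j) : mac w ≤ totalWeight w := by
  apply mac_le
  intro X
  unfold cutWeight totalWeight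
  calc ∑ u ∈ X, ∑ v ∈ Xᶜ, w u v ≤ ∑ u ∈ X, ∑ v, w u v :=
        Finset.sum_le_sum (fun u _ =>
          Finset.sum_le_sum_of_subset_of_nonneg (Finset.subset_univ _) (fun v _ _ => hw u v))
    _ ≤ ∑ u, ∑ v, w u v :=
        Finset.sum_le_sum_of_subset_of_nonneg (Finset.subset_univ _)
          (fun u _ _ => Finset.sum_nonneg (fun v _ => hw u v))

/-- A single arc of weight one. -/
noncomputable def one {ν : ℕ} (a b : Fin ν) : WDigraph ν := fun i j => if i = a ∧ j = b then 1 else 0

lemma one_nonneg {ν : ℕ} (a b : Fin ν) : ∀ i j, 0 ≤ one a b i j := by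
  intro i j; unfold one; split_ifs <;> norm_num

lemma one_supp {ν : ℕ} {a b : Fin ν} (hab : a < b) : ∀ i j, one a b i j ≠ 0 → i < j := by
  intro i j h
  have : i = a ∧ j = b := by
    by_contra h0; exact h (if_neg h0)
  rw [this.1, this.2]; exact hab

lemma total_one {ν : ℕ} (a b : Fin ν) : totalWeight (one a b) = 1 := by
  unfold totalWeight one
  rw [Finset.sum_eq_single a]
  · rw [Finset.sum_eq_single b]
    · simp
    · intro j _ hj; simp [hj]
    · simp
  · intro i _ hi; simp [hi]
  · simp

/-- The trivial upper bound. -/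
lemma cNu_le_one {ν : ℕ} (hν : 2 ≤ ν) : cNu ν ≤ 1 := by
  have hlt : (⟨0, by omega⟩ : Fin ν) < ⟨1, by omega⟩ := by rw [Fin.lt_def]; simp
  apply cNu_le (n := ν) (one _ _) (one_nonneg _ _) id (fun i j h => one_supp hlt i j h)
  · rw [total_one]; norm_num
  · rw [one_mul]; exact mac_le_total _ (one_nonneg _ _)

/-! ### Lower bound -/

lemma path_of_level {n : ℕ} (D : WAcyclic n) (lam : Fin n → ℕ)
    (h2 : ∀ j, lam j = 0 ∨ ∃ i, D.arc i j ∧ lam i + 1 = lam j) :
    ∀ (k : ℕ) (v : Fin n), lam v = k → ∃ p : Fin (k + 1) → Fin n, p (Fin.last k) = v ∧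
      (∀ i, lam (p i) = i) ∧ ∀ i j : Fin (k + 1), (i : ℕ) + 1 = (j : ℕ) → D.arc (p i) (p j) := by
  intro k
  induction k with
  | zero =>
    intro v hv
    refine ⟨fun _ => v, rfl, ?_, ?_⟩
    · intro i; rw [hv]; omega
    · intro i j h; omega
  | succ k ih =>
    intro v hv
    rcases h2 v with h | ⟨u, hu, hlu⟩
    · omega
    · obtain ⟨p, hp1, hp2, hp3⟩ := ih u (by omega)
      refine ⟨Fin.snoc p v, by simp, ?_, ?_⟩
      · intro i
        refine Fin.lastCases ?_ (fun i => ?_) i
        · simp [hv]
        · simp [hp2]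
      · intro i j hij
        have hi : (i : ℕ) < k + 1 := by omega
        obtain ⟨i', rfl⟩ : ∃ i' : Fin (k + 1), i = Fin.castSucc i' := ⟨⟨i, hi⟩, rfl⟩
        rw [Fin.snoc_castSucc]
        refine Fin.lastCases ?_ (fun j' => ?_) j hij
        · intro hij
          rw [Fin.snoc_last]
          have : i' = Fin.last k := by
            ext; simp only [Fin.val_castSucc, Fin.val_last] at hij ⊢; omega
          rw [this, hp1]; exact hu
        · intro hij
          rw [Fin.snoc_castSucc]
          apply hp3
          simpa using hij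

theorem lower_c {n ν : ℕ} (hν : 1 ≤ ν) (D : WAcyclic n) (h : MaxPathOrder D ν) :
    (1 / 4 + 1 / 32 * (ν : ℝ) ^ (-(2:ℝ)/3)) * totalWeight D.weight ≤ mac D.weight := by
  obtain ⟨lam, h1, h2⟩ := exists_level D.arc D.acyclic
  have hlt : ∀ i, lam i < ν := by
    intro i
    obtain ⟨p, _, hp2, hp3⟩ := path_of_level D lam h2 (lam i) i rfl
    have : HasPath D (lam i + 1) := by
      refine ⟨p, ?_, hp3⟩
      intro a b hab
      have ha := hp2 a
      have hb := hp2 b
      rw [hab] at ha
      ext; omega
    have := h.2 this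
    omega
  have hN : (0:ℝ) < ν := by exact_mod_cast hν
  have h3 := mac_levels2 D.weight lam D.nonneg (fun i j hij => h1 i j (by
    by_contra h0; exact hij (D.supp i j h0))) ν hν hlt
  refine le_trans (le_of_eq ?_) h3
  rw [show (-(2:ℝ)/3) = -((2:ℝ)/3) by ring, Real.rpow_neg hN.le]
  field_simp

theorem cNu_ge {ν : ℕ} (hν : 2 ≤ ν) : 1 / 4 + 1 / 32 * (ν : ℝ) ^ (-(2:ℝ)/3) ≤ cNu ν := by
  apply le_csSup
  · refine ⟨1, ?_⟩
    rintro c ⟨_, hc⟩
    have hlt : (⟨0, by omega⟩ : Fin ν) < ⟨1, by omega⟩ := by rw [Fin.lt_def]; simp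
    have h1 := hc ν (tourn (one _ _) (one_nonneg _ _) (one_supp hlt)) (tourn_order _ _ _)
    have e : (tourn (one _ _) (one_nonneg _ _) (one_supp hlt)).weight = one (⟨0, by omega⟩ : Fin ν) ⟨1, by omega⟩ := rfl
    rw [e, total_one] at h1
    have h2 := mac_le_total _ (one_nonneg (⟨0, by omega⟩ : Fin ν) ⟨1, by omega⟩)
    rw [total_one] at h2
    linarith
  · refine ⟨by positivity, ?_⟩
    intro n D hD
    exact lower_c (by omega) D hD

end Pool.Agent.Helper883.Dicut
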