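import Pool.Agent.Helper883.Dicut.CNu

set_option autoImplicit false

/-! Upper bound for `cNu` from the grid digraph. -/

namespace Pool.Agent.Helper883.Dicut

open Finset

lemma Grid.W_level {N x y : ℕ} (h : Grid.W N x y ≠ 0) :
    x / N + x % N < y / N + y % N := by
  have hlt := Grid.W_pos_lt h
  unfold Grid.W levelWeight at h
  have hU : x ∈ Grid.U N ∧ y ∈ Grid.U N ∧ x < y := by
    by_contra hc
    rw [if_neg hc] at h
    exact h rfl
  rw [if_pos hU, Finset.sum_pair (by norm_num)] at h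
  simp only [Grid.key, if_true, one_ne_zero, if_false] at h
  have e1 := Nat.div_add_mod x N
  have e2 := Nat.div_add_mod y N
  by_cases h1 : x / N = y / N
  · rw [h1] at e1 ⊢
    omega
  · rw [if_neg h1] at h
    by_cases h2 : x % N = y % N
    · rw [h2] at e1 ⊢
      have : x / N < y / N := by
        by_contra hc
        push Not at hc
        have := Nat.mul_le_mul_left N hc
        omega
      omega
    · rw [if_neg h2] at h
      simp at h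

lemma Grid.W_nonneg (N x y : ℕ) : 0 ≤ Grid.W N x y := by
  rcases Grid.W_zero_one N x y with h | h <;> rw [h]
  norm_num

lemma cNu_le_T {ν T : ℕ} (hT : 2 ≤ T) (hν : 4 * (T + 1) ^ 3 ≤ ν + 5) :
    cNu ν ≤ 1 / 4 + 21 / 40 * ((T:ℝ) + 1) ^ 5 / ((T:ℝ) - 1) ^ 7 := by
  have hT2 : (2:ℝ) ≤ T := by exact_mod_cast hT
  have hcube : 27 ≤ (T + 1) ^ 3 := by
    calc 27 = 3 ^ 3 := by norm_num
      _ ≤ (T + 1) ^ 3 := Nat.pow_le_pow_left (by omega) 3
  have hN : 0 < Grid.NN T := by unfold Grid.NN; omega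
  have hlev : ∀ x : Fin (Grid.NN T * Grid.NN T), (x : ℕ) / Grid.NN T + (x : ℕ) % Grid.NN T < ν := by
    intro x
    have h1 := Grid.div_lt x.2
    have h2 := Nat.mod_lt (x : ℕ) hN
    have h3 : Grid.NN T = 2 * ((T + 1) ^ 3 - 1) := rfl
    omega
  have htot := Grid.total_ge T (by omega)
  have hmac := Grid.mac_le T
  have hpos : 0 < totalWeight (fun x y : Fin (Grid.NN T * Grid.NN T) => Grid.W (Grid.NN T) x y) := by
    refine lt_of_lt_of_le ?_ htot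
    have : (0:ℝ) < T - 1 := by linarith
    positivity
  apply cNu_le (fun x y : Fin (Grid.NN T * Grid.NN T) => Grid.W (Grid.NN T) x y)
    (fun i j => Grid.W_nonneg _ _ _) (fun x => ⟨(x : ℕ) / Grid.NN T + (x : ℕ) % Grid.NN T, hlev x⟩)
    (fun i j h => by rw [Fin.lt_def]; exact Grid.W_level h) hpos
  refine hmac.trans ?_
  rw [add_mul]
  have h1 : (0:ℝ) < (T:ℝ) - 1 := by linarith
  have h2 : 9 / 5 * ((T:ℝ) + 1) ^ 5 ≤ 21 / 40 * ((T:ℝ) + 1) ^ 5 / ((T:ℝ) - 1) ^ 7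
      * totalWeight (fun x y : Fin (Grid.NN T * Grid.NN T) => Grid.W (Grid.NN T) x y) := by
    calc 9 / 5 * ((T:ℝ) + 1) ^ 5 = 21 / 40 * ((T:ℝ) + 1) ^ 5 / ((T:ℝ) - 1) ^ 7 * (24 / 7 * ((T:ℝ) - 1) ^ 7) := by
          field_simp; norm_num
      _ ≤ _ := by
          apply mul_le_mul_of_nonneg_left htot
          positivity
  linarith

theorem cNu_le_main {ν : ℕ} (hν : 2 ≤ ν) : cNu ν ≤ 1 / 4 + 75 * (ν : ℝ) ^ (-(2:ℝ)/3) := by
  have hν0 : (0:ℝ) < ν := by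
    have : 0 < ν := by omega
    exact_mod_cast this
  -- bound for the power
  have hpow : ∀ s : ℕ, ν ≤ s ^ 3 → (ν : ℝ) ^ ((2:ℝ)/3) ≤ (s:ℝ) ^ 2 := by
    intro s hs
    have h1 : (ν : ℝ) ≤ (s:ℝ) ^ 3 := by exact_mod_cast hs
    calc (ν : ℝ) ^ ((2:ℝ)/3) ≤ ((s:ℝ) ^ 3) ^ ((2:ℝ)/3) := Real.rpow_le_rpow hν0.le h1 (by norm_num)
      _ = (s:ℝ) ^ 2 := by
          rw [← Real.rpow_natCast, ← Real.rpow_natCast, ← Real.rpow_mul (by positivity)]
          norm_num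
  have hneg : (ν : ℝ) ^ (-(2:ℝ)/3) = 1 / (ν : ℝ) ^ ((2:ℝ)/3) := by
    rw [show (-(2:ℝ)/3) = -((2:ℝ)/3) by ring, Real.rpow_neg hν0.le, one_div]
  have hPpos : 0 < (ν : ℝ) ^ ((2:ℝ)/3) := Real.rpow_pos_of_pos hν0 _
  rw [hneg]
  by_cases hsmall : ν ≤ 1000
  · have h1 := hpow 10 (by norm_num; exact hsmall)
    have h2 := cNu_le_one hν
    have h3 : (3:ℝ) / 4 ≤ 75 * (1 / (ν : ℝ) ^ ((2:ℝ)/3)) := by
      rw [mul_one_div, div_le_div_iff₀ (by norm_num) hPpos]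
      push_cast at h1
      linarith
    linarith
  · push Not at hsmall
    -- choose T
    have hex : ∃ T, 5 ≤ T ∧ 4 * (T + 1) ^ 3 ≤ ν + 5 ∧ ν + 5 < 4 * (T + 2) ^ 3 := by
      set P : ℕ → Prop := fun T => 4 * (T + 1) ^ 3 ≤ ν + 5 with hP
      have hP5 : P 5 := by simp only [hP]; norm_num; omega
      have h5 : 5 ≤ ν := by omega
      have hg := Nat.findGreatest_spec (P := P) h5 hP5
      have hge : 5 ≤ Nat.findGreatest P ν := Nat.le_findGreatest h5 hP5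
      refine ⟨Nat.findGreatest P ν, hge, hg, ?_⟩
      by_contra hc
      push Not at hc
      set g := Nat.findGreatest P ν with hgdef
      have hle : g + 1 ≤ ν := by
        have : g + 2 ≤ (g + 2) ^ 3 := Nat.le_self_pow (by norm_num) _
        omega
      have : g + 1 ≤ Nat.findGreatest P ν := Nat.le_findGreatest hle hc
      omega
    obtain ⟨T, hT5, hT1, hT2⟩ := hex
    have h1 := cNu_le_T (by omega) hT1
    refine h1.trans ?_
    have h2 := hpow (2 * (T + 2)) (by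
      have : (2 * (T + 2)) ^ 3 = 8 * (T + 2) ^ 3 := by ring
      omega)
    have hT5' : (5:ℝ) ≤ T := by exact_mod_cast hT5
    push_cast at h2
    have h3 : 75 * (1 / ((2 * ((T:ℝ) + 2)) ^ 2)) ≤ 75 * (1 / (ν : ℝ) ^ ((2:ℝ)/3)) := by
      gcongr
    have h4 : 21 / 40 * ((T:ℝ) + 1) ^ 5 / ((T:ℝ) - 1) ^ 7 ≤ 75 * (1 / ((2 * ((T:ℝ) + 2)) ^ 2)) := by
      have hp : (0:ℝ) < T - 1 := by linarith
      rw [mul_one_div, div_le_div_iff₀ (by positivity) (by positivity)]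
      have e1 : (T:ℝ) + 1 ≤ 3 / 2 * (T - 1) := by linarith
      have e2 : (T:ℝ) + 2 ≤ 7 / 4 * (T - 1) := by linarith
      have f1 : ((T:ℝ) + 1) ^ 5 ≤ (3 / 2 * (T - 1)) ^ 5 := pow_le_pow_left₀ (by positivity) e1 5
      have f2 : (2 * ((T:ℝ) + 2)) ^ 2 ≤ (2 * (7 / 4 * (T - 1))) ^ 2 :=
        pow_le_pow_left₀ (by positivity) (by linarith) 2
      calc 21 / 40 * ((T:ℝ) + 1) ^ 5 * (2 * ((T:ℝ) + 2)) ^ 2
          ≤ 21 / 40 * (3 / 2 * ((T:ℝ) - 1)) ^ 5 * (2 * (7 / 4 * ((T:ℝ) - 1))) ^ 2 := by gcongr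
        _ = (21 / 40 * (3 / 2) ^ 5 * (7 / 2) ^ 2) * ((T:ℝ) - 1) ^ 7 := by ring
        _ ≤ 75 * ((T:ℝ) - 1) ^ 7 := by
            gcongr
            norm_num
    linarith

end Pool.Agent.Helper883.Dicut
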