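import Pool.Agent.Helper883.Dicut.GridBound

set_option autoImplicit false

namespace Pool.Agent.Helper883.Dicut

open Finset

/-- From a family of examples to an upper bound on admissible exponents. -/
theorem exponent_bound (C : (n : ℕ) → WDigraph n → Prop) (p q : ℕ) (hq : 0 < q) (A B : ℝ) (hA : 0 < A)
    (hfam : ∀ S : ℕ, 1 ≤ S → ∃ (n : ℕ) (w : WDigraph n), C n w ∧ A * (S:ℝ) ^ q ≤ totalWeight w ∧
      mac w ≤ totalWeight w / 4 + B * (S:ℝ) ^ p) (α : ℝ) (hα : 0 < α) (h : Admissible C α) :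
    α ≤ (p : ℝ) / q := by
  obtain ⟨k, hk, hk2⟩ := h
  by_contra hcon
  push Not at hcon
  have hq' : (0 : ℝ) < q := by exact_mod_cast hq
  have hgap : 0 < α * q - p := by
    rw [div_lt_iff₀ hq'] at hcon
    linarith
  have hbound : ∀ S : ℕ, 1 ≤ S → (S : ℝ) ^ (α * q - p) ≤ B / (k * A ^ α) := by
    intro S hS
    obtain ⟨n, w, hw, h1, h2⟩ := hfam S hS
    have h3 := hk2 n w hw
    have hS0 : (0 : ℝ) < S := by exact_mod_cast hS
    have h4 : k * totalWeight w ^ α ≤ B * (S:ℝ) ^ p := by linarith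
    have h5 : (A * (S:ℝ) ^ q) ^ α ≤ totalWeight w ^ α :=
      Real.rpow_le_rpow (by positivity) h1 hα.le
    have h6 : k * (A * (S:ℝ) ^ q) ^ α ≤ B * (S:ℝ) ^ p :=
      (mul_le_mul_of_nonneg_left h5 hk.le).trans h4
    rw [Real.mul_rpow hA.le (by positivity), ← Real.rpow_natCast, ← Real.rpow_natCast, ← Real.rpow_mul hS0.le] at h6
    rw [Real.rpow_sub hS0, div_le_div_iff₀ (by positivity) (by positivity), mul_comm α (q:ℝ)]
    calc (S : ℝ) ^ ((q : ℝ) * α) * (k * A ^ α) = k * (A ^ α * (S : ℝ) ^ ((q : ℝ) * α)) := by ring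
      _ ≤ _ := h6
  have htend : Filter.Tendsto (fun S : ℕ => (S : ℝ) ^ (α * q - p)) Filter.atTop Filter.atTop :=
    (tendsto_rpow_atTop hgap).comp tendsto_natCast_atTop_atTop
  have hev := (Filter.tendsto_atTop.1 htend) (B / (k * A ^ α) + 1)
  obtain ⟨S, hS1, hS2⟩ := (hev.and (Filter.eventually_ge_atTop 1)).exists
  have := hbound S hS2
  linarith

/-- Exponent `5/7` for simple digraphs. -/
theorem admissible_S (α : ℝ) (hα : 0 < α) (h : Admissible ClassS α) : α ≤ 5 / 7 := by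
  have := exponent_bound ClassS 5 7 (by norm_num) (24/7) (9/5 * 3 ^ 5) (by norm_num) (by
    intro S hS
    refine ⟨_, _, Grid.classS (Grid.NN (S + 1)), ?_, ?_⟩
    · have := Grid.total_ge (S + 1) (by omega)
      push_cast at this
      have e : (S:ℝ) + 1 - 1 = S := by ring
      rw [e] at this
      exact this
    · refine (Grid.mac_le (S + 1)).trans ?_
      have hS' : (1 : ℝ) ≤ S := by exact_mod_cast hS
      have : ((S + 1 : ℕ) : ℝ) + 1 ≤ 3 * S := by push_cast; linarith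
      have h2 : (((S + 1 : ℕ) : ℝ) + 1) ^ 5 ≤ (3 * S) ^ 5 := pow_le_pow_left₀ (by positivity) this 5
      rw [mul_pow] at h2
      linarith) α hα h
  simpa using this

end Pool.Agent.Helper883.Dicut
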