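import Pool.Agent.Helper883.Dicut.Base

set_option autoImplicit false

/-! A simple acyclic digraph on grid points near the diagonal. -/

namespace Pool.Agent.Helper883.Dicut.Grid

open Finset Pool.Agent.Helper883.Dicut

/-- Integer cube root. -/
def cb (p : ℕ) : ℕ := Nat.findGreatest (fun t => t ^ 3 ≤ p) p

lemma cb_le (p : ℕ) : cb p ^ 3 ≤ p := by
  have h : (fun t => t ^ 3 ≤ p) (cb p) := by
    apply Nat.findGreatest_spec (P := fun t => t ^ 3 ≤ p) (m := 0) (Nat.zero_le _)
    simp
  exact h

lemma lt_cb (p : ℕ) : p < (cb p + 1) ^ 3 := by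
  by_contra h
  push Not at h
  have h1 : cb p + 1 ≤ p := le_trans (Nat.le_self_pow (by norm_num) _) h
  have h2 : cb p + 1 ≤ cb p := Nat.le_findGreatest h1 h
  omega

lemma le_cb {p t : ℕ} (h : t ^ 3 ≤ p) : t ≤ cb p := by
  by_contra hc
  push Not at hc
  have : (cb p + 1) ^ 3 ≤ t ^ 3 := Nat.pow_le_pow_left hc 3
  have := lt_cb p
  omega

lemma cb_eq {p t : ℕ} (h1 : t ^ 3 ≤ p) (h2 : p < (t + 1) ^ 3) : cb p = t := by
  apply le_antisymm
  · by_contra hc
    push Not at hc
    have h3 : (t + 1) ^ 3 ≤ cb p ^ 3 := Nat.pow_le_pow_left hc 3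
    have := cb_le p
    omega
  · exact le_cb h1

lemma cb_mono {p q : ℕ} (h : p ≤ q) : cb p ≤ cb q := le_cb ((cb_le p).trans h)

/-- The width profile. -/
def v (p : ℕ) : ℕ := cb p ^ 2

lemma v_mono {p q : ℕ} (h : p ≤ q) : v p ≤ v q := Nat.pow_le_pow_left (cb_mono h) 2

/-- Distance to the ends (between `1` and `N/2`). -/
def pos (N a : ℕ) : ℕ := min (a + 1) (N - a)

/-- The region of grid points. -/
def R (N a b : ℕ) : Prop := a ≤ b + v (min (pos N a) (pos N b)) ∧ b ≤ a + v (min (pos N a) (pos N b))

instance (N a b : ℕ) : Decidable (R N a b) := by unfold R; infer_instance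

lemma R_symm {N a b : ℕ} (h : R N a b) : R N b a := by
  unfold R at *
  rw [min_comm] at h
  exact ⟨h.2, h.1⟩

lemma R_refl (N a : ℕ) : R N a a := by
  unfold R; omega

/-- Rows are convex (upper side). -/
lemma R_convex_up {N a b c : ℕ} (h : R N a b) (h1 : a ≤ c) (h2 : c ≤ b) : R N a c := by
  unfold R at *
  have hp : min (pos N a) (pos N b) ≤ min (pos N a) (pos N c) := by
    unfold pos; omega
  have := v_mono hp
  omega

lemma R_convex_down {N a b c : ℕ} (h : R N a b) (h1 : c ≤ a) (h2 : b ≤ c) : R N a c := by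
  unfold R at *
  have hp : min (pos N a) (pos N b) ≤ min (pos N a) (pos N c) := by
    unfold pos; omega
  have := v_mono hp
  omega

/-- number of points of row `a` above / below `b`. -/
def up (N a b : ℕ) : ℕ := ((range N).filter (fun c => b < c ∧ R N a c)).card
def dn (N a b : ℕ) : ℕ := ((range N).filter (fun c => c < b ∧ R N a c)).card

/-- The asymmetry of row `a`. -/
noncomputable def G (N a : ℕ) : ℝ := (up N a a : ℝ) - (dn N a a : ℝ)

lemma up_sub_dn {N a b : ℕ} (ha : a < N) (hb : b < N) (h : R N a b) :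
    (up N a b : ℝ) - (dn N a b : ℝ) = G N a + 2 * a - 2 * b := by
  unfold G
  rcases le_total a b with hab | hab
  · have h1 : (range N).filter (fun c => a < c ∧ R N a c)
        = Ioc a b ∪ (range N).filter (fun c => b < c ∧ R N a c) := by
      ext c
      simp only [mem_filter, mem_range, mem_union, mem_Ioc]
      constructor
      · rintro ⟨h1, h2, h3⟩
        rcases le_or_gt c b with h4 | h4
        · left; exact ⟨h2, h4⟩
        · right; exact ⟨h1, h4, h3⟩
      · rintro (⟨h1, h2⟩ | ⟨h1, h2, h3⟩)
        · exact ⟨by omega, h1, R_convex_up h h1.le h2⟩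
        · exact ⟨h1, by omega, h3⟩
    have h2 : (range N).filter (fun c => c < b ∧ R N a c)
        = Ico a b ∪ (range N).filter (fun c => c < a ∧ R N a c) := by
      ext c
      simp only [mem_filter, mem_range, mem_union, mem_Ico]
      constructor
      · rintro ⟨h1, h2, h3⟩
        rcases le_or_gt a c with h4 | h4
        · left; exact ⟨h4, h2⟩
        · right; exact ⟨h1, h4, h3⟩
      · rintro (⟨h1, h2⟩ | ⟨h1, h2, h3⟩)
        · exact ⟨by omega, h2, R_convex_up h h1 h2.le⟩
        · exact ⟨h1, by omega, h3⟩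
    have c1 : up N a a = (b - a) + up N a b := by
      unfold up
      rw [h1, card_union_of_disjoint, Nat.card_Ioc]
      rw [disjoint_left]
      intro c hc1 hc2
      simp only [mem_filter, mem_Ioc] at hc1 hc2
      omega
    have c2 : dn N a b = (b - a) + dn N a a := by
      unfold dn
      rw [h2, card_union_of_disjoint, Nat.card_Ico]
      rw [disjoint_left]
      intro c hc1 hc2
      simp only [mem_filter, mem_Ico] at hc1 hc2
      omega
    rw [c1, c2]
    push_cast [Nat.cast_sub hab]
    ring
  · have h1 : (range N).filter (fun c => b < c ∧ R N a c)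
        = Ioc b a ∪ (range N).filter (fun c => a < c ∧ R N a c) := by
      ext c
      simp only [mem_filter, mem_range, mem_union, mem_Ioc]
      constructor
      · rintro ⟨h1, h2, h3⟩
        rcases le_or_gt c a with h4 | h4
        · left; exact ⟨h2, h4⟩
        · right; exact ⟨h1, h4, h3⟩
      · rintro (⟨h1, h2⟩ | ⟨h1, h2, h3⟩)
        · exact ⟨by omega, h1, R_convex_down h h2 h1.le⟩
        · exact ⟨h1, by omega, h3⟩
    have h2 : (range N).filter (fun c => c < a ∧ R N a c)
        = Ico b a ∪ (range N).filter (fun c => c < b ∧ R N a c) := by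
      ext c
      simp only [mem_filter, mem_range, mem_union, mem_Ico]
      constructor
      · rintro ⟨h1, h2, h3⟩
        rcases le_or_gt b c with h4 | h4
        · left; exact ⟨h4, h2⟩
        · right; exact ⟨h1, h4, h3⟩
      · rintro (⟨h1, h2⟩ | ⟨h1, h2, h3⟩)
        · exact ⟨by omega, h2, R_convex_down h h2.le h1⟩
        · exact ⟨h1, by omega, h3⟩
    have c1 : up N a b = (a - b) + up N a a := by
      unfold up
      rw [h1, card_union_of_disjoint, Nat.card_Ioc]
      rw [disjoint_left]
      intro c hc1 hc2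
      simp only [mem_filter, mem_Ioc] at hc1 hc2
      omega
    have c2 : dn N a a = (a - b) + dn N a b := by
      unfold dn
      rw [h2, card_union_of_disjoint, Nat.card_Ico]
      rw [disjoint_left]
      intro c hc1 hc2
      simp only [mem_filter, mem_Ico] at hc1 hc2
      omega
    rw [c1, c2]
    push_cast [Nat.cast_sub hab]
    ring

/-- The vertex set, encoded as `a * N + b`. -/
def U (N : ℕ) : Finset ℕ := (range (N * N)).filter (fun x => R N (x / N) (x % N))

/-- Rows and columns. -/
def key (N : ℕ) (j x : ℕ) : ℕ := if j = 0 then x / N else x % N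

lemma div_lt {N x : ℕ} (h : x < N * N) : x / N < N := Nat.div_lt_of_lt_mul h

lemma mod_lt' {N x : ℕ} (h : x < N * N) : x % N < N := by
  apply Nat.mod_lt
  rcases Nat.eq_zero_or_pos N with h0 | h0
  · subst h0; simp at h
  · exact h0

lemma row_up {N x : ℕ} (hx : x < N * N) :
    ((U N).filter (fun y => x < y ∧ x / N = y / N)).card = up N (x / N) (x % N) := by
  have hN : 0 < N := by
    rcases Nat.eq_zero_or_pos N with h0 | h0
    · subst h0; simp at hx
    · exact h0
  unfold up
  symm
  apply Finset.card_bij (fun c _ => (x / N) * N + c)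
  · intro c hc
    simp only [mem_filter, mem_range, U] at hc ⊢
    obtain ⟨h1, h2, h3⟩ := hc
    have e1 : (x / N * N + c) / N = x / N := by
      rw [mul_comm, Nat.mul_add_div hN, Nat.div_eq_of_lt h1, add_zero]
    have e2 : (x / N * N + c) % N = c := by
      rw [mul_comm, Nat.mul_add_mod, Nat.mod_eq_of_lt h1]
    have e3 : x / N < N := div_lt hx
    have e4 := Nat.div_add_mod x N
    refine ⟨⟨?_, ?_⟩, ?_, ?_⟩
    · nlinarith
    · rw [e1, e2]; exact h3
    · nlinarith
    · exact e1.symm
  · intro c _ d _ h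
    simpa using h
  · intro y hy
    simp only [mem_filter, mem_range, U] at hy
    obtain ⟨⟨h1, h2⟩, h3, h4⟩ := hy
    have e4 := Nat.div_add_mod x N
    have e5 := Nat.div_add_mod y N
    refine ⟨y % N, ?_, ?_⟩
    · simp only [mem_filter, mem_range]
      refine ⟨mod_lt' h1, ?_, ?_⟩
      · rw [h4] at e4
        omega
      · rw [h4]; exact h2
    · rw [h4]
      linarith [e5, mul_comm N (y / N)]

lemma row_dn {N x : ℕ} (hx : x < N * N) :
    ((U N).filter (fun y => y < x ∧ x / N = y / N)).card = dn N (x / N) (x % N) := by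
  have hN : 0 < N := by
    rcases Nat.eq_zero_or_pos N with h0 | h0
    · subst h0; simp at hx
    · exact h0
  unfold dn
  symm
  apply Finset.card_bij (fun c _ => (x / N) * N + c)
  · intro c hc
    simp only [mem_filter, mem_range, U] at hc ⊢
    obtain ⟨h1, h2, h3⟩ := hc
    have e1 : (x / N * N + c) / N = x / N := by
      rw [mul_comm, Nat.mul_add_div hN, Nat.div_eq_of_lt h1, add_zero]
    have e2 : (x / N * N + c) % N = c := by
      rw [mul_comm, Nat.mul_add_mod, Nat.mod_eq_of_lt h1]
    have e3 : x / N < N := div_lt hx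
    have e4 := Nat.div_add_mod x N
    refine ⟨⟨?_, ?_⟩, ?_, ?_⟩
    · nlinarith
    · rw [e1, e2]; exact h3
    · nlinarith
    · exact e1.symm
  · intro c _ d _ h
    simpa using h
  · intro y hy
    simp only [mem_filter, mem_range, U] at hy
    obtain ⟨⟨h1, h2⟩, h3, h4⟩ := hy
    have e4 := Nat.div_add_mod x N
    have e5 := Nat.div_add_mod y N
    refine ⟨y % N, ?_, ?_⟩
    · simp only [mem_filter, mem_range]
      refine ⟨mod_lt' h1, ?_, ?_⟩
      · rw [h4] at e4
        omega
      · rw [h4]; exact h2
    · rw [h4]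
      linarith [e5, mul_comm N (y / N)]

lemma col_up {N x : ℕ} (hx : x < N * N) :
    ((U N).filter (fun y => x < y ∧ x % N = y % N)).card = up N (x % N) (x / N) := by
  have hN : 0 < N := by
    rcases Nat.eq_zero_or_pos N with h0 | h0
    · subst h0; simp at hx
    · exact h0
  have hm : x % N < N := Nat.mod_lt _ hN
  unfold up
  symm
  apply Finset.card_bij (fun c _ => c * N + x % N)
  · intro c hc
    simp only [mem_filter, mem_range, U] at hc ⊢
    obtain ⟨h1, h2, h3⟩ := hc
    have e1 : (c * N + x % N) / N = c := by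
      rw [mul_comm, Nat.mul_add_div hN, Nat.div_eq_of_lt hm, add_zero]
    have e2 : (c * N + x % N) % N = x % N := by
      rw [mul_comm, Nat.mul_add_mod, Nat.mod_mod]
    have e4 := Nat.div_add_mod x N
    refine ⟨⟨?_, ?_⟩, ?_, ?_⟩
    · nlinarith
    · rw [e1, e2]; exact R_symm h3
    · nlinarith
    · exact e2.symm
  · intro c _ d _ h
    have : c * N = d * N := by omega
    exact Nat.eq_of_mul_eq_mul_right hN this
  · intro y hy
    simp only [mem_filter, mem_range, U] at hy
    obtain ⟨⟨h1, h2⟩, h3, h4⟩ := hy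
    have e4 := Nat.div_add_mod x N
    have e5 := Nat.div_add_mod y N
    refine ⟨y / N, ?_, ?_⟩
    · simp only [mem_filter, mem_range]
      refine ⟨div_lt h1, ?_, ?_⟩
      · rw [h4] at e4
        by_contra hc
        push Not at hc
        have : N * (y / N) ≤ N * (x / N) := Nat.mul_le_mul_left _ hc
        omega
      · rw [h4]; exact R_symm h2
    · rw [h4]
      linarith [e5, mul_comm N (y / N)]

lemma col_dn {N x : ℕ} (hx : x < N * N) :
    ((U N).filter (fun y => y < x ∧ x % N = y % N)).card = dn N (x % N) (x / N) := by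
  have hN : 0 < N := by
    rcases Nat.eq_zero_or_pos N with h0 | h0
    · subst h0; simp at hx
    · exact h0
  have hm : x % N < N := Nat.mod_lt _ hN
  unfold dn
  symm
  apply Finset.card_bij (fun c _ => c * N + x % N)
  · intro c hc
    simp only [mem_filter, mem_range, U] at hc ⊢
    obtain ⟨h1, h2, h3⟩ := hc
    have e1 : (c * N + x % N) / N = c := by
      rw [mul_comm, Nat.mul_add_div hN, Nat.div_eq_of_lt hm, add_zero]
    have e2 : (c * N + x % N) % N = x % N := by
      rw [mul_comm, Nat.mul_add_mod, Nat.mod_mod]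
    have e4 := Nat.div_add_mod x N
    refine ⟨⟨?_, ?_⟩, ?_, ?_⟩
    · nlinarith
    · rw [e1, e2]; exact R_symm h3
    · nlinarith
    · exact e2.symm
  · intro c _ d _ h
    have : c * N = d * N := by omega
    exact Nat.eq_of_mul_eq_mul_right hN this
  · intro y hy
    simp only [mem_filter, mem_range, U] at hy
    obtain ⟨⟨h1, h2⟩, h3, h4⟩ := hy
    have e4 := Nat.div_add_mod x N
    have e5 := Nat.div_add_mod y N
    refine ⟨y / N, ?_, ?_⟩
    · simp only [mem_filter, mem_range]
      refine ⟨div_lt h1, ?_, ?_⟩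
      · rw [h4] at e4
        by_contra hc
        push Not at hc
        have : N * (x / N) ≤ N * (y / N) := Nat.mul_le_mul_left _ hc
        omega
      · rw [h4]; exact R_symm h2
    · rw [h4]
      linarith [e5, mul_comm N (y / N)]

/-- Number of points of row `a`. -/
def K (N a : ℕ) : ℕ := ((range N).filter (fun c => R N a c)).card

lemma U_lt {N x : ℕ} (h : x ∈ U N) : x < N * N := mem_range.1 (mem_filter.1 h).1

/-- Sum over the vertex set as a double sum. -/
lemma sum_U (N : ℕ) (F : ℕ → ℕ → ℝ) :
    ∑ x ∈ U N, F (x / N) (x % N) = ∑ a ∈ range N, ∑ b ∈ range N with R N a b, F a b := by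
  rcases Nat.eq_zero_or_pos N with h0 | hN
  · subst h0; simp [U]
  rw [Finset.sum_sigma']
  apply Finset.sum_bij' (fun x _ => (⟨x / N, x % N⟩ : (_ : ℕ) × ℕ)) (fun p _ => p.1 * N + p.2)
  · intro x hx
    simp only [U, mem_filter, mem_range] at hx
    simp only [mem_sigma, mem_range, mem_filter]
    exact ⟨div_lt hx.1, Nat.mod_lt _ hN, hx.2⟩
  · intro p hp
    simp only [mem_sigma, mem_range, mem_filter] at hp
    simp only [U, mem_filter, mem_range]
    have e1 : (p.1 * N + p.2) / N = p.1 := by
      rw [mul_comm, Nat.mul_add_div hN, Nat.div_eq_of_lt hp.2.1, add_zero]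
    have e2 : (p.1 * N + p.2) % N = p.2 := by
      rw [mul_comm, Nat.mul_add_mod, Nat.mod_eq_of_lt hp.2.1]
    rw [e1, e2]
    refine ⟨?_, hp.2.2⟩
    nlinarith [hp.1, hp.2.1]
  · intro x _
    have := Nat.div_add_mod x N
    show x / N * N + x % N = x
    linarith [mul_comm N (x / N)]
  · intro p hp
    simp only [mem_sigma, mem_range, mem_filter] at hp
    have e1 : (p.1 * N + p.2) / N = p.1 := by
      rw [mul_comm, Nat.mul_add_div hN, Nat.div_eq_of_lt hp.2.1, add_zero]
    have e2 : (p.1 * N + p.2) % N = p.2 := by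
      rw [mul_comm, Nat.mul_add_mod, Nat.mod_eq_of_lt hp.2.1]
    simp only [e1, e2]
  · intro x _
    rfl

lemma card_U (N : ℕ) : ((U N).card : ℝ) = ∑ a ∈ range N, (K N a : ℝ) := by
  have h := sum_U N (fun _ _ => 1)
  simp only [Finset.sum_const, nsmul_eq_mul, mul_one] at h
  rw [h]
  rfl

lemma pairs (S : Finset ℕ) : ∑ b ∈ S, ((S.filter (fun c => b < c)).card : ℝ) = (S.card : ℝ) * (S.card - 1) / 2 := by
  induction S using Finset.induction_on_max with
  | empty => simp
  | insert a s hlt ih =>
    have ha : a ∉ s := fun h => lt_irrefl _ (hlt a h)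
    rw [Finset.sum_insert ha, Finset.card_insert_of_notMem ha]
    have h1 : (insert a s).filter (fun c => a < c) = ∅ := by
      ext y; simp only [mem_filter, mem_insert, notMem_empty, iff_false, not_and]
      rintro (rfl | hy)
      · exact lt_irrefl _
      · exact not_lt_of_gt (hlt y hy)
    have h2 : ∑ x ∈ s, (((insert a s).filter (fun c => x < c)).card : ℝ)
        = ∑ x ∈ s, (1 + ((s.filter (fun c => x < c)).card : ℝ)) := by
      apply Finset.sum_congr rfl
      intro x hx
      rw [Finset.filter_insert, if_pos (hlt x hx), Finset.card_insert_of_notMem (by simp [ha])]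
      push_cast; ring
    rw [h1, h2, Finset.sum_add_distrib, ih]
    simp only [Finset.card_empty, Finset.sum_const, nsmul_eq_mul]
    push_cast; ring

/-- The weights of the grid digraph. -/
noncomputable def W (N : ℕ) (x y : ℕ) : ℝ :=
  levelWeight (U N) {0, 1} (fun _ => 1) (key N) x y

lemma total_eq (N : ℕ) :
    totalWeight (fun x y : Fin (N * N) => W N x y) = ∑ a ∈ range N, (K N a : ℝ) * ((K N a : ℝ) - 1) := by
  have hU : ∀ x ∈ U N, x < N * N := fun x hx => U_lt hx
  unfold W
  rw [total_restr]
  have h := sum_level (N * N) (U N) {0, 1} hU (fun _ => 1) (key N) (fun _ _ => 1)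
  simp only [mul_one, Finset.sum_const, nsmul_eq_mul, one_mul] at h
  rw [h, Finset.sum_pair (by norm_num)]
  have h0 : ∑ x ∈ U N, (((U N).filter (fun y => x < y ∧ key N 0 x = key N 0 y)).card : ℝ)
      = ∑ a ∈ range N, (K N a : ℝ) * ((K N a : ℝ) - 1) / 2 := by
    have e : ∑ x ∈ U N, (((U N).filter (fun y => x < y ∧ key N 0 x = key N 0 y)).card : ℝ)
        = ∑ x ∈ U N, (up N (x / N) (x % N) : ℝ) := by
      apply Finset.sum_congr rfl
      intro x hx
      simp only [key, if_true]
      rw [row_up (hU x hx)]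
    rw [e, sum_U N (fun a b => (up N a b : ℝ))]
    apply Finset.sum_congr rfl
    intro a _
    have := pairs ((range N).filter (fun c => R N a c))
    unfold K
    rw [← this]
    apply Finset.sum_congr rfl
    intro b _
    unfold up
    rw [Finset.filter_filter]
    congr 2
    ext c
    simp only [mem_filter]
    tauto
  have h1 : ∑ x ∈ U N, (((U N).filter (fun y => x < y ∧ key N 1 x = key N 1 y)).card : ℝ)
      = ∑ a ∈ range N, (K N a : ℝ) * ((K N a : ℝ) - 1) / 2 := by
    have e : ∑ x ∈ U N, (((U N).filter (fun y => x < y ∧ key N 1 x = key N 1 y)).card : ℝ)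
        = ∑ x ∈ U N, (up N (x % N) (x / N) : ℝ) := by
      apply Finset.sum_congr rfl
      intro x hx
      simp only [key, one_ne_zero, if_false]
      rw [col_up (hU x hx)]
    rw [e, sum_U N (fun a b => (up N b a : ℝ))]
    have e2 : ∑ a ∈ range N, ∑ b ∈ range N with R N a b, (up N b a : ℝ)
        = ∑ b ∈ range N, ∑ a ∈ range N with R N b a, (up N b a : ℝ) := by
      apply Finset.sum_comm'
      intro a b
      simp only [mem_range, mem_filter]
      constructor
      · rintro ⟨h1, h2, h3⟩; exact ⟨⟨h1, R_symm h3⟩, h2⟩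
      · rintro ⟨⟨h1, h3⟩, h2⟩; exact ⟨h1, h2, R_symm h3⟩
    rw [e2]
    apply Finset.sum_congr rfl
    intro a _
    have := pairs ((range N).filter (fun c => R N a c))
    unfold K
    rw [← this]
    apply Finset.sum_congr rfl
    intro b _
    unfold up
    rw [Finset.filter_filter]
    congr 2
    ext c
    simp only [mem_filter]
    tauto
  rw [h0, h1, ← Finset.sum_add_distrib]
  apply Finset.sum_congr rfl
  intro a _
  ring

/-- Upper bound for the directed cuts of the grid digraph. -/
lemma cut_le (N : ℕ) (X : Finset (Fin (N * N))) :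
    4 * cutWeight (fun x y : Fin (N * N) => W N x y) X
      ≤ totalWeight (fun x y : Fin (N * N) => W N x y) + ∑ a ∈ range N, ((K N a : ℝ) + G N a ^ 2) := by
  have hU : ∀ x ∈ U N, x < N * N := fun x hx => U_lt hx
  have h := cert (N * N) (U N) {0, 1} hU (fun _ => 1) (fun _ _ => zero_le_one) (key N)
    (fun _ a => G N a) (fun _ => range N) (by
      intro j hj x hx
      simp only [mem_insert, mem_singleton] at hj
      rcases hj with rfl | rfl
      · simp only [key, if_true, mem_range]; exact div_lt (hU x hx)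
      · simp only [key, one_ne_zero, if_false, mem_range]; exact mod_lt' (hU x hx)) X
  have hz : ∑ x ∈ U N, |∑ j ∈ ({0, 1} : Finset ℕ), (fun _ => (1:ℝ)) j * ((((U N).filter (fun y => x < y ∧ key N j x = key N j y)).card : ℝ)
            - (((U N).filter (fun y => y < x ∧ key N j x = key N j y)).card : ℝ) - (fun _ a => G N a) j (key N j x))| = 0 := by
    apply Finset.sum_eq_zero
    intro x hx
    rw [abs_eq_zero, Finset.sum_pair (by norm_num)]
    simp only [key, if_true, one_ne_zero, if_false, one_mul]
    rw [row_up (hU x hx), row_dn (hU x hx), col_up (hU x hx), col_dn (hU x hx)]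
    have hR : R N (x / N) (x % N) := (mem_filter.1 hx).2
    rw [up_sub_dn (div_lt (hU x hx)) (mod_lt' (hU x hx)) hR,
      up_sub_dn (mod_lt' (hU x hx)) (div_lt (hU x hx)) (R_symm hR)]
    ring
  rw [hz, add_zero, Finset.sum_pair (by norm_num)] at h
  unfold W
  refine h.trans (le_of_eq ?_)
  rw [Finset.sum_add_distrib, ← card_U]
  ring

end Pool.Agent.Helper883.Dicut.Grid
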