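import Pool.Agent.Helper883.Dicut.Defs

set_option autoImplicit false

/-! The functions `h`, `h_μ`, `h_ω`. -/

namespace Pool.Agent.Helper883.Dicut

/-- `h(m)`: the largest integer `k` such that every acyclic simple digraph with `m` arcs has a
directed cut of size at least `k`. -/
noncomputable def hSimple (m : ℕ) : ℕ :=
  sSup {k : ℕ | ∀ (n : ℕ) (w : WDigraph n), ClassS n w → totalWeight w = m → (k : ℝ) ≤ mac w}

/-- `h_μ(m)`: the same for acyclic directed multigraphs with `m` arcs. -/
noncomputable def hMulti (m : ℕ) : ℕ :=
  sSup {k : ℕ | ∀ (n : ℕ) (w : WDigraph n), ClassM n w → totalWeight w = m → (k : ℝ) ≤ mac w}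

/-- `h_ω(t)`: the supremum of the reals `g` such that every acyclic weighted digraph with all arc
weights at least `1` and total weight `t` has a directed cut of weight at least `g`. -/
noncomputable def hWeighted (t : ℝ) : ℝ :=
  sSup {g : ℝ | ∀ (n : ℕ) (w : WDigraph n), ClassW n w → totalWeight w = t → g ≤ mac w}

end Pool.Agent.Helper883.Dicut
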