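import Pool.Agent.Helper883.Dicut.HUpper

set_option autoImplicit false

namespace Pool.Agent.Helper883.Dicut

open Finset

lemma ach_S : ∃ C : ℝ, 0 < C ∧ ∀ m : ℕ, 1 ≤ m → Ach PS m ((m:ℝ) / 4 + C * (m:ℝ) ^ ((5:ℝ)/7)) := by
  have h := fill (P := PS) (Or.inl rfl) (Or.inr rfl) 5 7 (by norm_num) (by norm_num) (24/7) (18 * 3 ^ 7) (9/5 * 3 ^ 5)
    (by norm_num) (by norm_num) (by norm_num) family_S
  refine ⟨18 * 3 ^ 7 + 9/5 * 3 ^ 5 * (2 ^ 7 * (18 * 3 ^ 7) / ((5:ℝ) / 7 * (24/7))), by positivity, fun m hm => ?_⟩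
  have := h m hm
  push_cast at this
  exact this

lemma ach_M (r : ℕ) (hr : 1 ≤ r) (m : ℕ) (hm : 1 ≤ m) :
    Ach PM m ((m:ℝ) / 4 + 2 ^ (47 * r) * (m:ℝ) ^ (((3 * r + 3 : ℕ) : ℝ) / ((5 * r : ℕ) : ℝ))) := by
  have hr' : (1:ℝ) ≤ r := by exact_mod_cast hr
  rcases Nat.lt_or_ge r 2 with hr2 | hr2
  · -- r = 1 : the exponent is 6/5, trivial bound
    have hr1 : r = 1 := by omega
    subst hr1
    have hm' : (1:ℝ) ≤ m := by exact_mod_cast hm
    apply (Ach.nat (P := PM) ⟨0, by simp⟩ ⟨1, by simp⟩ m).mono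
    have h1 : (m:ℝ) ≤ (m:ℝ) ^ (((3 * 1 + 3 : ℕ) : ℝ) / ((5 * 1 : ℕ) : ℝ)) := by
      calc (m:ℝ) = (m:ℝ) ^ (1:ℝ) := (Real.rpow_one _).symm
        _ ≤ _ := Real.rpow_le_rpow_of_exponent_le hm' (by norm_num)
    have h2 : (1:ℝ) ≤ 2 ^ (47 * 1) := by norm_num
    have h3 : (0:ℝ) ≤ (m:ℝ) ^ (((3 * 1 + 3 : ℕ) : ℝ) / ((5 * 1 : ℕ) : ℝ)) := by positivity
    nlinarith
  have h := fill (P := PM) ⟨0, by simp⟩ ⟨1, by simp⟩ (3 * r + 3) (5 * r) (by omega) (by omega) (1/192) (4 * 2 ^ (12 * r))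
    (2 ^ (2 * r) * (4 * r + 8) * 4 ^ (3 * r + 3)) (by norm_num)
    (by
      have : (1:ℝ) ≤ 2 ^ (12 * r) := one_le_pow₀ (by norm_num)
      linarith) (by positivity) (family_M r hr) m hm
  apply h.mono
  have hm0 : (0:ℝ) ≤ (m:ℝ) ^ (((3 * r + 3 : ℕ) : ℝ) / ((5 * r : ℕ) : ℝ)) := by positivity
  have hconst : (4 * 2 ^ (12 * r) + (2 ^ (2 * r) * (4 * r + 8) * 4 ^ (3 * r + 3)) *
      (2 ^ (5 * r) * (4 * 2 ^ (12 * r)) / ((((3 * r + 3 : ℕ):ℝ) / ((5 * r : ℕ) : ℝ)) * (1/192)))) ≤ (2:ℝ) ^ (47 * r) := by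
    have hθ : (1:ℝ) / 2 ≤ ((3 * r + 3 : ℕ):ℝ) / ((5 * r : ℕ) : ℝ) := by
      push_cast
      rw [div_le_div_iff₀ (by norm_num) (by positivity)]
      linarith
    have h1 : (2:ℝ) ^ (5 * r) * (4 * 2 ^ (12 * r)) / ((((3 * r + 3 : ℕ):ℝ) / ((5 * r : ℕ) : ℝ)) * (1/192))
        ≤ 2 ^ (5 * r) * (4 * 2 ^ (12 * r)) * 384 := by
      rw [div_le_iff₀ (by positivity)]
      calc (2:ℝ) ^ (5 * r) * (4 * 2 ^ (12 * r)) = 2 ^ (5 * r) * (4 * 2 ^ (12 * r)) * 384 * ((1/2) * (1/192)) := by ring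
        _ ≤ _ := by gcongr
    have h2 : (4 * (r:ℝ) + 8) ≤ 16 * 2 ^ r := by
      have : r < 2 ^ r := Nat.lt_two_pow_self
      have h' : (r:ℝ) ≤ 2 ^ r := by exact_mod_cast this.le
      have h'' : (1:ℝ) ≤ 2 ^ r := one_le_pow₀ (by norm_num)
      linarith
    have h3 : (4:ℝ) ^ (3 * r + 3) = 64 * 2 ^ (6 * r) := by
      rw [show (4:ℝ) = 2 ^ 2 by norm_num, ← pow_mul, show 2 * (3 * r + 3) = 6 * r + 6 by ring, pow_add]
      norm_num
      ring
    calc _ ≤ 4 * 2 ^ (12 * r) + (2 ^ (2 * r) * (16 * 2 ^ r) * 4 ^ (3 * r + 3)) * ((2:ℝ) ^ (5 * r) * (4 * 2 ^ (12 * r)) * 384) := by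
          gcongr
      _ = 4 * 2 ^ (12 * r) + (16 * 64 * 4 * 384) * 2 ^ (26 * r) := by
          rw [h3]
          have : (2:ℝ) ^ (26 * r) = 2 ^ (2 * r) * 2 ^ r * 2 ^ (6 * r) * 2 ^ (5 * r) * 2 ^ (12 * r) := by
            rw [← pow_add, ← pow_add, ← pow_add, ← pow_add]; congr 1; ring
          rw [this]; ring
      _ ≤ 4 * 2 ^ (26 * r) + (16 * 64 * 4 * 384) * 2 ^ (26 * r) := by
          gcongr
          · norm_num
          · omega
      _ = (4 + 16 * 64 * 4 * 384) * 2 ^ (26 * r) := by ring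
      _ ≤ 2 ^ 21 * 2 ^ (26 * r) := by
          gcongr
          norm_num
      _ ≤ 2 ^ (21 * r) * 2 ^ (26 * r) := by
          gcongr
          · norm_num
          · omega
      _ = 2 ^ (47 * r) := by rw [← pow_add]; congr 1; ring
  have := mul_le_mul_of_nonneg_right hconst hm0
  linarith

/-- The optimized form. -/
lemma ach_M_opt (m : ℕ) (hm : 2 ≤ m) :
    Ach PM m ((m:ℝ) / 4 + (m:ℝ) ^ ((3:ℝ)/5) * Real.exp (80 * Real.sqrt (Real.log m))) := by
  have hm0 : (0:ℝ) < m := by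
    have : 0 < m := by omega
    exact_mod_cast this
  have hm2 : (2:ℝ) ≤ m := by exact_mod_cast hm
  set L := Real.log m with hL
  have hL0 : 0.69 < L := by
    have h1 : Real.log 2 ≤ L := Real.log_le_log (by norm_num) hm2
    have := Real.log_two_gt_d9
    linarith
  have hLpos : 0 < L := by linarith
  set s := Real.sqrt L with hs
  have hs0 : 0.83 ≤ s := by
    rw [hs]
    apply Real.le_sqrt_of_sq_le
    norm_num
    linarith
  have hss : s * s = L := Real.mul_self_sqrt hLpos.le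
  set r := ⌈s⌉₊ with hr
  have hr1 : 1 ≤ r := by
    rw [hr]; exact Nat.one_le_ceil_iff.2 (by linarith)
  have hrs : s ≤ r := Nat.le_ceil s
  have hrs2 : (r:ℝ) < s + 1 := Nat.ceil_lt_add_one (by linarith)
  have hr0 : (0:ℝ) < r := by linarith
  apply (ach_M r hr1 m (by omega)).mono
  have key : (2:ℝ) ^ (47 * r) * (m:ℝ) ^ (((3 * r + 3 : ℕ) : ℝ) / ((5 * r : ℕ) : ℝ))
      ≤ (m:ℝ) ^ ((3:ℝ)/5) * Real.exp (80 * s) := by
    have e1 : (m:ℝ) ^ (((3 * r + 3 : ℕ) : ℝ) / ((5 * r : ℕ) : ℝ)) = (m:ℝ) ^ ((3:ℝ)/5) * Real.exp (3 / (5 * r) * L) := by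
      have : ((3 * r + 3 : ℕ) : ℝ) / ((5 * r : ℕ) : ℝ) = 3 / 5 + 3 / (5 * r) := by
        push_cast; field_simp
      rw [this, Real.rpow_add hm0, Real.rpow_def_of_pos hm0 (3 / (5 * r))]
      rw [mul_comm (Real.log _)]
    have e2 : (2:ℝ) ^ (47 * r) = Real.exp (47 * r * Real.log 2) := by
      rw [← Real.rpow_natCast, Real.rpow_def_of_pos (by norm_num)]
      push_cast
      ring_nf
    rw [e1, e2, mul_left_comm, ← Real.exp_add]
    apply mul_le_mul_of_nonneg_left _ (by positivity)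
    apply Real.exp_le_exp.2
    have hlog2 := Real.log_two_lt_d9
    have t1 : 47 * (r:ℝ) * Real.log 2 ≤ 47 * (s + 1) * 0.6931471808 := by
      have : 0 ≤ Real.log 2 := Real.log_nonneg (by norm_num)
      gcongr
    have t2 : 3 / (5 * (r:ℝ)) * L ≤ 3 / 5 * s := by
      rw [← hss]
      have : 3 / (5 * (r:ℝ)) * (s * s) = 3 / 5 * s * (s / r) := by field_simp
      rw [this]
      have h1 : s / r ≤ 1 := by rw [div_le_one hr0]; exact hrs
      have h2 : 0 ≤ 3 / 5 * s := by linarith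
      calc 3 / 5 * s * (s / r) ≤ 3 / 5 * s * 1 := by gcongr
        _ = _ := mul_one _
    nlinarith
  linarith

lemma PM_nonneg_int {x : ℝ} (h : PM x) : ∃ k : ℕ, x = k := h

/-- from examples to an upper bound for `hMulti` -/
lemma hMulti_le {m : ℕ} {x : ℝ} (h : Ach PM m x) : (hMulti m : ℝ) ≤ x := by
  obtain ⟨n, w, o, p, t, hx⟩ := h
  have hcl : ClassM n w := ⟨Grid.acyclic_of_lt w o, fun i j => p i j⟩
  have hmem : hMulti m ∈ {k : ℕ | ∀ (n : ℕ) (w : WDigraph n), ClassM n w → totalWeight w = m → (k : ℝ) ≤ mac w} := by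
    apply Nat.sSup_mem
    · exact ⟨0, fun n w _ _ => by simpa using mac_nonneg' w⟩
    · obtain ⟨M, hM⟩ := mac_nat w p
      refine ⟨M, fun k hk => ?_⟩
      have := hk n w hcl t
      rw [hM] at this
      exact_mod_cast this
  exact (hmem n w hcl t).trans hx

lemma hSimple_le {m : ℕ} {x : ℝ} (h : Ach PS m x) : (hSimple m : ℝ) ≤ x := by
  obtain ⟨n, w, o, p, t, hx⟩ := h
  have hcl : ClassS n w := ⟨Grid.acyclic_of_lt w o, fun i j => p i j⟩
  have hnat : ∀ i j, ∃ k : ℕ, w i j = k := fun i j => by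
    rcases p i j with h | h
    · exact ⟨0, by rw [h]; simp⟩
    · exact ⟨1, by rw [h]; simp⟩
  have hmem : hSimple m ∈ {k : ℕ | ∀ (n : ℕ) (w : WDigraph n), ClassS n w → totalWeight w = m → (k : ℝ) ≤ mac w} := by
    apply Nat.sSup_mem
    · exact ⟨0, fun n w _ _ => by simpa using mac_nonneg' w⟩
    · obtain ⟨M, hM⟩ := mac_nat w hnat
      refine ⟨M, fun k hk => ?_⟩
      have := hk n w hcl t
      rw [hM] at this
      exact_mod_cast this
  exact (hmem n w hcl t).trans hx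

/-- A lower bound valid for all multigraphs passes to `hMulti`. -/
lemma le_hMulti {m : ℕ} {x : ℝ} (h : ∀ (n : ℕ) (w : WDigraph n), ClassM n w → totalWeight w = m → x ≤ mac w) :
    x ≤ hMulti m := by
  have h1 : (⌈x⌉₊ : ℕ) ∈ {k : ℕ | ∀ (n : ℕ) (w : WDigraph n), ClassM n w → totalWeight w = m → (k : ℝ) ≤ mac w} := by
    intro n w hw ht
    obtain ⟨M, hM⟩ := mac_nat w hw.2
    have h2 := h n w hw ht
    rw [hM] at h2 ⊢
    exact_mod_cast Nat.ceil_le.2 h2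
  have hb : BddAbove {k : ℕ | ∀ (n : ℕ) (w : WDigraph n), ClassM n w → totalWeight w = m → (k : ℝ) ≤ mac w} := by
    obtain ⟨n, w, o, p, t, hx⟩ := Ach.nat (P := PM) ⟨0, by simp⟩ ⟨1, by simp⟩ m
    refine ⟨m, fun k hk => ?_⟩
    have := (hk n w ⟨Grid.acyclic_of_lt w o, fun i j => p i j⟩ t).trans hx
    exact_mod_cast this
  have h3 := le_csSup hb h1
  calc x ≤ (⌈x⌉₊ : ℝ) := Nat.le_ceil x
    _ ≤ hMulti m := by exact_mod_cast h3

lemma le_hSimple {m : ℕ} {x : ℝ} (h : ∀ (n : ℕ) (w : WDigraph n), ClassS n w → totalWeight w = m → x ≤ mac w) :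
    x ≤ hSimple m := by
  have h1 : (⌈x⌉₊ : ℕ) ∈ {k : ℕ | ∀ (n : ℕ) (w : WDigraph n), ClassS n w → totalWeight w = m → (k : ℝ) ≤ mac w} := by
    intro n w hw ht
    obtain ⟨M, hM⟩ := mac_nat w (classS_M hw).2
    have h2 := h n w hw ht
    rw [hM] at h2 ⊢
    exact_mod_cast Nat.ceil_le.2 h2
  have hb : BddAbove {k : ℕ | ∀ (n : ℕ) (w : WDigraph n), ClassS n w → totalWeight w = m → (k : ℝ) ≤ mac w} := by
    obtain ⟨n, w, o, p, t, hx⟩ := Ach.nat (P := PS) (Or.inl rfl) (Or.inr rfl) m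
    refine ⟨m, fun k hk => ?_⟩
    have := (hk n w ⟨Grid.acyclic_of_lt w o, fun i j => p i j⟩ t).trans hx
    exact_mod_cast this
  have h3 := le_csSup hb h1
  calc x ≤ (⌈x⌉₊ : ℝ) := Nat.le_ceil x
    _ ≤ hSimple m := by exact_mod_cast h3

theorem hMulti_bounds (m : ℕ) (hm : 2 ≤ m) :
    (m:ℝ) / 4 + 1 / 32 * (m:ℝ) ^ ((3:ℝ)/5) ≤ hMulti m ∧
    (hMulti m : ℝ) ≤ (m:ℝ) / 4 + (m:ℝ) ^ ((3:ℝ)/5) * Real.exp (80 * Real.sqrt (Real.log m)) := by
  constructor
  · apply le_hMulti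
    intro n w hw ht
    have := lower_W w (classM_W hw)
    rw [ht] at this
    exact this
  · exact hMulti_le (ach_M_opt m hm)

/-! ### Weighted digraphs -/

lemma mac_smul {n : ℕ} (w : WDigraph n) {c : ℝ} (hc : 0 ≤ c) : mac (fun i j => c * w i j) ≤ c * mac w := by
  apply mac_le
  intro X
  have : cutWeight (fun i j => c * w i j) X = c * cutWeight w X := by
    unfold cutWeight
    simp_rw [Finset.mul_sum]
  rw [this]
  exact mul_le_mul_of_nonneg_left (cut_le_mac w X) hc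

lemma total_smul {n : ℕ} (w : WDigraph n) (c : ℝ) : totalWeight (fun i j => c * w i j) = c * totalWeight w := by
  unfold totalWeight
  simp_rw [Finset.mul_sum]

/-- Scaled examples. -/
lemma scaled {t : ℝ} (m : ℕ) (hm : 1 ≤ m) (hmt : (m:ℝ) ≤ t) {x : ℝ} (h : Ach PM m x) :
    ∃ (n : ℕ) (w : WDigraph n), ClassW n w ∧ totalWeight w = t ∧ mac w ≤ (t / m) * x := by
  obtain ⟨n, w, o, p, ht, hx⟩ := h
  have hm0 : (0:ℝ) < m := by
    have : 0 < m := by omega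
    exact_mod_cast this
  have hc : 1 ≤ t / m := by rw [one_le_div hm0]; exact hmt
  have hc0 : 0 ≤ t / m := by linarith
  refine ⟨n, fun i j => (t / m) * w i j, ⟨Grid.acyclic_of_lt _ ?_, ?_⟩, ?_, ?_⟩
  · intro i j h
    apply o
    intro h0
    rw [h0, mul_zero] at h
    exact h rfl
  · intro i j
    obtain ⟨k, hk⟩ := p i j
    show t / m * w i j = 0 ∨ 1 ≤ t / m * w i j
    rw [hk]
    rcases Nat.eq_zero_or_pos k with h0 | h0
    · left; rw [h0]; simp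
    · right
      have : (1:ℝ) ≤ k := by exact_mod_cast h0
      nlinarith
  · rw [total_smul, ht]; field_simp
  · exact (mac_smul w hc0).trans (mul_le_mul_of_nonneg_left hx hc0)

theorem hWeighted_bounds (t : ℝ) (ht : 2 ≤ t) :
    t / 4 + 1 / 32 * t ^ ((3:ℝ)/5) ≤ hWeighted t ∧
    hWeighted t ≤ t / 4 + t ^ ((3:ℝ)/5) * Real.exp (81 * Real.sqrt (Real.log t)) := by
  have ht0 : 0 < t := by linarith
  set m := ⌊t⌋₊ with hm
  have hm2 : 2 ≤ m := Nat.le_floor (by exact_mod_cast ht)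
  have hmt : (m:ℝ) ≤ t := Nat.floor_le ht0.le
  have htm : t < m + 1 := Nat.lt_floor_add_one t
  have hm2' : (2:ℝ) ≤ m := by exact_mod_cast hm2
  have hm0 : (0:ℝ) < m := by linarith
  obtain ⟨n, w, hcl, htot, hmac⟩ := scaled m (by omega) hmt (ach_M_opt m hm2)
  constructor
  · apply le_csSup
    · exact ⟨mac w, fun g hg => hg n w hcl htot⟩
    · intro n' w' hw' ht'
      have := lower_W w' hw'
      rw [ht'] at this
      exact this
  · apply csSup_le
    · exact ⟨0, fun n w _ _ => mac_nonneg' w⟩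
    · intro g hg
      refine (hg n w hcl htot).trans (hmac.trans ?_)
      have hratio : t / m ≤ 3 / 2 := by
        rw [div_le_div_iff₀ hm0 (by norm_num)]; linarith
      have hr0 : 0 ≤ t / m := by positivity
      have e : t / m * ((m:ℝ) / 4 + (m:ℝ) ^ ((3:ℝ)/5) * Real.exp (80 * Real.sqrt (Real.log m)))
          = t / 4 + t / m * ((m:ℝ) ^ ((3:ℝ)/5) * Real.exp (80 * Real.sqrt (Real.log m))) := by
        field_simp
      rw [e]
      have h1 : (m:ℝ) ^ ((3:ℝ)/5) ≤ t ^ ((3:ℝ)/5) := Real.rpow_le_rpow hm0.le hmt (by norm_num)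
      have h2 : Real.sqrt (Real.log m) ≤ Real.sqrt (Real.log t) :=
        Real.sqrt_le_sqrt (Real.log_le_log hm0 hmt)
      have h3 : 3 / 2 ≤ Real.exp (Real.sqrt (Real.log t)) := by
        have hlog : 0.69 ≤ Real.log t := by
          have h4 : Real.log 2 ≤ Real.log t := Real.log_le_log (by norm_num) ht
          have := Real.log_two_gt_d9
          linarith
        have hs : 0.83 ≤ Real.sqrt (Real.log t) := by
          apply Real.le_sqrt_of_sq_le
          norm_num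
          linarith
        have := Real.add_one_le_exp (Real.sqrt (Real.log t))
        linarith
      have h5 : Real.exp (81 * Real.sqrt (Real.log t)) = Real.exp (Real.sqrt (Real.log t)) * Real.exp (80 * Real.sqrt (Real.log t)) := by
        rw [← Real.exp_add]; congr 1; ring
      have h6 : t / m * ((m:ℝ) ^ ((3:ℝ)/5) * Real.exp (80 * Real.sqrt (Real.log m)))
          ≤ t ^ ((3:ℝ)/5) * Real.exp (81 * Real.sqrt (Real.log t)) := by
        rw [h5]
        calc t / m * ((m:ℝ) ^ ((3:ℝ)/5) * Real.exp (80 * Real.sqrt (Real.log m)))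
            ≤ Real.exp (Real.sqrt (Real.log t)) * (t ^ ((3:ℝ)/5) * Real.exp (80 * Real.sqrt (Real.log t))) := by
              gcongr
              linarith
          _ = _ := by ring
      linarith

theorem hSimple_upper : ∃ C : ℝ, 0 < C ∧ ∀ m : ℕ, 1 ≤ m →
    (hSimple m : ℝ) ≤ (m:ℝ) / 4 + C * (m:ℝ) ^ ((5:ℝ)/7) := by
  obtain ⟨C, hC, h⟩ := ach_S
  exact ⟨C, hC, fun m hm => hSimple_le (h m hm)⟩

end Pool.Agent.Helper883.Dicut
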