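import Pool.Agent.Helper883.Dicut.Lower

set_option autoImplicit false

namespace Pool.Agent.Helper883.Dicut

open Finset

/-- Level function of an acyclic relation. -/
lemma exists_level {n : ℕ} (adj : Fin n → Fin n → Prop) (h : ∀ v, ¬ Relation.TransGen adj v v) :
    ∃ lam : Fin n → ℕ, (∀ i j, adj i j → lam i < lam j) ∧ ∀ j, lam j = 0 ∨ ∃ i, adj i j ∧ lam i + 1 = lam j := by
  classical
  have : Std.Irrefl (Relation.TransGen adj) := ⟨h⟩
  have hwf : WellFounded (Relation.TransGen adj) := Finite.wellFounded_of_trans_of_irrefl _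
  have hwf2 : WellFounded adj := Subrelation.wf (fun {a b} hab => Relation.TransGen.single hab) hwf
  let lam : Fin n → ℕ := hwf2.fix (fun j ih => Finset.univ.sup (fun i => if hij : adj i j then ih i hij + 1 else 0))
  have hlam : ∀ j, lam j = Finset.univ.sup (fun i => if adj i j then lam i + 1 else 0) := by
    intro j
    show hwf2.fix _ j = _
    rw [WellFounded.fix_eq]
    apply Finset.sup_congr rfl
    intro i _
    by_cases hij : adj i j
    · simp only [hij, dite_true, if_true]; rfl
    · simp only [hij, dite_false, if_false]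
  refine ⟨lam, ?_, ?_⟩
  · intro i j hij
    have : (fun i => if adj i j then lam i + 1 else 0) i ≤ lam j := by
      rw [hlam j]
      exact Finset.le_sup (f := fun i => if adj i j then lam i + 1 else 0) (Finset.mem_univ i)
    simp only [hij, if_true] at this
    omega
  · intro j
    by_cases h0 : lam j = 0
    · left; exact h0
    · right
      have hne : (Finset.univ : Finset (Fin n)).Nonempty := ⟨j, Finset.mem_univ j⟩
      obtain ⟨i, _, hi⟩ := Finset.exists_mem_eq_sup Finset.univ hne (fun i => if adj i j then lam i + 1 else 0)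
      rw [← hlam j] at hi
      by_cases hij : adj i j
      · refine ⟨i, hij, ?_⟩
        simp only [hij, if_true] at hi
        exact hi.symm
      · simp only [hij, if_false] at hi
        exact absurd hi h0

/-- If consecutive levels are joined by arcs of weight at least one, the cut gain is at least an eighth of
the number of levels. -/
lemma mac_levels {n : ℕ} (w : WDigraph n) (lam : Fin n → ℕ) (hw : ∀ i j, 0 ≤ w i j)
    (hlam : ∀ i j, w i j ≠ 0 → lam i < lam j) (hstep : ∀ j, lam j = 0 ∨ ∃ i, 1 ≤ w i j ∧ lam i + 1 = lam j)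
    (j0 : Fin n) : totalWeight w / 4 + (lam j0 : ℝ) / 8 ≤ mac w := by
  classical
  have hall : ∀ t, t ≤ lam j0 → ∃ j, lam j = lam j0 - t := by
    intro t
    induction t with
    | zero => intro _; exact ⟨j0, rfl⟩
    | succ t ih =>
      intro ht
      obtain ⟨j, hj⟩ := ih (by omega)
      rcases hstep j with h0 | ⟨i, _, hi⟩
      · omega
      · exact ⟨i, by omega⟩
  have h1 := mac_diff w lam hw hlam 1 le_rfl
  have h2 : (lam j0 : ℝ) ≤ diffW w lam 1 := by
    unfold diffW
    rw [Finset.sum_comm]
    have hnn : ∀ i j, 0 ≤ (if lam j = lam i + 1 then w i j else 0) := by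
      intro i j; split_ifs <;> [exact hw i j; exact le_rfl]
    have e1 : ∑ x ∈ Finset.Icc 1 (lam j0), ∑ j ∈ Finset.univ with lam j = x, ∑ i, (if lam j = lam i + 1 then w i j else 0)
        ≤ ∑ j, ∑ i, (if lam j = lam i + 1 then w i j else 0) := by
      rw [← Finset.sum_biUnion]
      · apply Finset.sum_le_sum_of_subset_of_nonneg (Finset.subset_univ _)
        intro j _ _
        exact Finset.sum_nonneg (fun i _ => hnn i j)
      · intro x _ y _ hxy
        simp only [Function.onFun]
        rw [Finset.disjoint_left]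
        intro j h1 h2
        rw [Finset.mem_filter] at h1 h2
        exact hxy (h1.2.symm.trans h2.2)
    refine le_trans ?_ e1
    have e2 : (lam j0 : ℝ) = ∑ x ∈ Finset.Icc 1 (lam j0), (1 : ℝ) := by
      rw [Finset.sum_const, Nat.card_Icc]; simp
    rw [e2]
    apply Finset.sum_le_sum
    intro x hx
    rw [Finset.mem_Icc] at hx
    obtain ⟨j, hj⟩ := hall (lam j0 - x) (by omega)
    have hjx : lam j = x := by omega
    have hmem : j ∈ (Finset.univ.filter (fun j => lam j = x)) := by simp [hjx]
    refine le_trans ?_ (Finset.single_le_sum (f := fun j => ∑ i, (if lam j = lam i + 1 then w i j else 0))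
      (fun j _ => Finset.sum_nonneg (fun i _ => hnn i j)) hmem)
    rcases hstep j with h0 | ⟨i, hi1, hi2⟩
    · omega
    · refine le_trans ?_ (Finset.single_le_sum (f := fun i => (if lam j = lam i + 1 then w i j else 0))
        (fun i _ => hnn i j) (Finset.mem_univ i))
      rw [if_pos hi2.symm]
      exact hi1
  linarith

/-- General lower bound in terms of the number of levels. -/
lemma mac_levels2 {n : ℕ} (w : WDigraph n) (lam : Fin n → ℕ) (hw : ∀ i j, 0 ≤ w i j)
    (hlam : ∀ i j, w i j ≠ 0 → lam i < lam j) (N : ℕ) (hN1 : 1 ≤ N) (hN : ∀ i, lam i < N) :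
    totalWeight w / 4 + totalWeight w / (32 * (N:ℝ) ^ ((2:ℝ)/3)) ≤ mac w := by
  have hT0 : 0 ≤ totalWeight w := Finset.sum_nonneg (fun i _ => Finset.sum_nonneg (fun j _ => hw i j))
  rcases hT0.eq_or_lt with h0 | hpos
  · have := mac_quarter w lam hw hlam
    rw [← h0] at this ⊢
    simpa using this
  · have hNr : (1 : ℝ) ≤ N := by exact_mod_cast hN1
    set x := (N:ℝ) ^ ((2:ℝ)/3) with hx
    have hx1 : 1 ≤ x := Real.one_le_rpow hNr (by norm_num)
    set l := ⌈x⌉₊ with hl
    have hl1 : 1 ≤ l := Nat.one_le_ceil_iff.2 (by linarith)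
    have hlx : x ≤ l := Nat.le_ceil x
    have hlx2 : (l : ℝ) ≤ 2 * x := by
      have := Nat.ceil_lt_add_one (show 0 ≤ x by linarith)
      linarith
    have h := mac_window w lam hw hlam N l hl1 hN hpos
    refine le_trans ?_ h
    have hl0 : (0 : ℝ) < l := by linarith
    gcongr
    apply le_min
    · apply div_le_div_of_nonneg_left hT0 (by positivity)
      linarith
    · rw [div_le_div_iff₀ (by positivity) (by positivity)]
      have h3 : x ^ 3 = (N:ℝ) ^ 2 := by
        rw [hx, ← Real.rpow_natCast, ← Real.rpow_mul (by positivity), ← Real.rpow_natCast]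
        norm_num
      have h4 : (N:ℝ) ^ 2 ≤ x * (l:ℝ) ^ 2 := by
        rw [← h3]
        have : x ^ 2 ≤ (l:ℝ) ^ 2 := pow_le_pow_left₀ (by linarith) hlx 2
        nlinarith
      nlinarith [mul_le_mul_of_nonneg_left h4 hT0, mul_nonneg hT0 (sq_nonneg (N:ℝ))]

/-- `3/5` is admissible for acyclic digraphs with arc weights at least one. -/
theorem lower_W {n : ℕ} (w : WDigraph n) (h : ClassW n w) :
    totalWeight w / 4 + (1 / 32 : ℝ) * totalWeight w ^ ((3:ℝ)/5) ≤ mac w := by
  obtain ⟨hac, hval⟩ := h
  have hw : ∀ i j, 0 ≤ w i j := by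
    intro i j
    rcases hval i j with h | h <;> linarith
  obtain ⟨lam, h1, h2⟩ := exists_level (fun a b => w a b ≠ 0) hac
  have h2' : ∀ j, lam j = 0 ∨ ∃ i, 1 ≤ w i j ∧ lam i + 1 = lam j := by
    intro j
    rcases h2 j with h0 | ⟨i, hi1, hi2⟩
    · exact Or.inl h0
    · refine Or.inr ⟨i, ?_, hi2⟩
      rcases hval i j with h | h
      · exact absurd h hi1
      · exact h
  have hT0 : 0 ≤ totalWeight w := Finset.sum_nonneg (fun i _ => Finset.sum_nonneg (fun j _ => hw i j))
  rcases hT0.eq_or_lt with h0 | hpos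
  · have := mac_quarter w lam hw h1
    rw [← h0] at this ⊢
    rw [Real.zero_rpow (by norm_num)]
    simpa using this
  · -- there is an arc
    obtain ⟨a, b, hab⟩ : ∃ a b, w a b ≠ 0 := by
      by_contra hcon
      push Not at hcon
      have : totalWeight w = 0 := by
        unfold totalWeight
        exact Finset.sum_eq_zero (fun i _ => Finset.sum_eq_zero (fun j _ => hcon i j))
      linarith
    obtain ⟨j0, _, hj0⟩ := Finset.exists_mem_eq_sup (Finset.univ : Finset (Fin n)) ⟨a, Finset.mem_univ a⟩ lam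
    have hmax : ∀ i, lam i ≤ lam j0 := fun i => by rw [← hj0]; exact Finset.le_sup (Finset.mem_univ i)
    have hge : 1 ≤ lam j0 := by
      have := h1 a b hab
      have := hmax b
      omega
    set E := mac w - totalWeight w / 4 with hE
    have hA := mac_levels w lam hw h1 h2' j0
    have hB := mac_levels2 w lam hw h1 (lam j0 + 1) (by omega) (fun i => Nat.lt_succ_of_le (hmax i))
    have hj0r : (1 : ℝ) ≤ lam j0 := by exact_mod_cast hge
    have hN : ((lam j0 + 1 : ℕ) : ℝ) ≤ 32 * E := by
      push_cast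
      linarith
    have hE0 : 0 < E := by
      have : (0:ℝ) < ((lam j0 + 1 : ℕ) : ℝ) := by positivity
      linarith
    have hNpos : (0 : ℝ) < ((lam j0 + 1 : ℕ) : ℝ) ^ ((2:ℝ)/3) := by positivity
    have hC : totalWeight w ≤ 32 * E * ((lam j0 + 1 : ℕ) : ℝ) ^ ((2:ℝ)/3) := by
      have h3 : totalWeight w / (32 * ((lam j0 + 1 : ℕ) : ℝ) ^ ((2:ℝ)/3)) ≤ E := by linarith
      rw [div_le_iff₀ (by positivity)] at h3
      linarith
    have hD : totalWeight w ≤ (32 * E) ^ ((5:ℝ)/3) := by
      have h4 : ((lam j0 + 1 : ℕ) : ℝ) ^ ((2:ℝ)/3) ≤ (32 * E) ^ ((2:ℝ)/3) :=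
        Real.rpow_le_rpow (by positivity) hN (by norm_num)
      have h5 : (32 * E) ^ ((5:ℝ)/3) = 32 * E * (32 * E) ^ ((2:ℝ)/3) := by
        have : ((5:ℝ)/3) = 1 + 2/3 := by norm_num
        rw [this, Real.rpow_add (by positivity), Real.rpow_one]
      rw [h5]
      exact hC.trans (mul_le_mul_of_nonneg_left h4 (by positivity))
    have hF : totalWeight w ^ ((3:ℝ)/5) ≤ 32 * E := by
      have h6 := Real.rpow_le_rpow hT0 hD (show (0:ℝ) ≤ 3/5 by norm_num)
      rw [← Real.rpow_mul (by positivity)] at h6
      norm_num at h6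
      exact h6
    linarith

theorem admissible_W : Admissible ClassW (3/5) :=
  ⟨1/32, by norm_num, fun _ w h => lower_W w h⟩

lemma classM_W {n : ℕ} {w : WDigraph n} (h : ClassM n w) : ClassW n w := by
  refine ⟨h.1, fun u v => ?_⟩
  obtain ⟨k, hk⟩ := h.2 u v
  rw [hk]
  rcases Nat.eq_zero_or_pos k with h0 | h0
  · left; rw [h0]; simp
  · right; exact_mod_cast h0

lemma classS_M {n : ℕ} {w : WDigraph n} (h : ClassS n w) : ClassM n w := by
  refine ⟨h.1, fun u v => ?_⟩
  rcases h.2 u v with h0 | h0
  · exact ⟨0, by rw [h0]; simp⟩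
  · exact ⟨1, by rw [h0]; simp⟩

lemma Admissible.mono {C C' : (n : ℕ) → WDigraph n → Prop} {α : ℝ} (h : Admissible C α)
    (hCC : ∀ n w, C' n w → C n w) : Admissible C' α := by
  obtain ⟨k, hk, h2⟩ := h
  exact ⟨k, hk, fun n w hw => h2 n w (hCC n w hw)⟩

theorem admissible_M : Admissible ClassM (3/5) := admissible_W.mono (fun _ _ h => classM_W h)
theorem admissible_S_low : Admissible ClassS (3/5) := admissible_M.mono (fun _ _ h => classS_M h)

end Pool.Agent.Helper883.Dicut
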