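import Pool.Agent.Helper883.Dicut.MultiTotal

set_option autoImplicit false

/-! The multigraph family with upper bounds for the number of arcs. -/

namespace Pool.Agent.Helper883.Dicut.Multi

open Finset Pool.Agent.Helper883.Dicut

lemma cnt_le (q T t a b : ℕ) : cnt q T t a b ≤ b - a := by
  unfold cnt
  calc _ ≤ (Ico a b).card := card_filter_le _ _
    _ = _ := Nat.card_Ico _ _

lemma after_le {q m T j x : ℕ} (hq : 0 < q) (hj : j ≤ m + 1) :
    ((U q m T).filter (fun y => x < y ∧ key q m j x = key q m j y)).card ≤ KK q m := by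
  rcases Nat.lt_or_ge m j with h | h
  · have : j = m + 1 := by omega
    rw [this, top_after hq]
    exact (cnt_le _ _ _ _ _).trans (Nat.sub_le _ _)
  · rw [after_eq hq h]
    calc _ ≤ ∑ d ∈ range q, q ^ j := by
          apply Finset.sum_le_sum
          intro d _
          split_ifs with h1 h2
          · refine (cnt_le _ _ _ _ _).trans (le_of_eq ?_)
            rw [← Nat.sub_mul]; simp
          · have hown := @own_block q m j x hq
            rw [← h2] at hown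
            refine (cnt_le _ _ _ _ _).trans ?_
            have e : ((x % KK q m) / q ^ (j + 1) * q + d + 1) * q ^ j
                = ((x % KK q m) / q ^ (j + 1) * q + d) * q ^ j + q ^ j := by ring
            omega
          · exact Nat.zero_le _
      _ = q ^ (j + 1) := by rw [Finset.sum_const, card_range, smul_eq_mul, pow_succ]; ring
      _ ≤ KK q m := Nat.pow_le_pow_right hq (by omega)

lemma total_le {q m T : ℕ} (hq : 0 < q) :
    totalWeight (fun x y : Fin (MM q T * KK q m) => W q m T x y)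
      ≤ 2 ^ (m + 1) * ((MM q T : ℝ) * (KK q m : ℝ) ^ 2) := by
  rw [total_eq]
  calc _ ≤ ∑ j ∈ range (m + 2), mu m j * ((MM q T : ℝ) * (KK q m : ℝ) ^ 2) := by
        apply Finset.sum_le_sum
        intro j hj
        rw [mem_range] at hj
        apply mul_le_mul_of_nonneg_left _ (mu_nonneg m j)
        calc _ ≤ ∑ x ∈ U q m T, (KK q m : ℝ) := by
              apply Finset.sum_le_sum
              intro x _
              exact_mod_cast after_le hq (by omega)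
          _ = ((U q m T).card : ℝ) * (KK q m : ℝ) := by rw [Finset.sum_const, nsmul_eq_mul]
          _ ≤ ((MM q T : ℝ) * (KK q m : ℝ)) * (KK q m : ℝ) := by
              gcongr
              exact card_U_le q m T
          _ = _ := by ring
    _ = _ := by
        rw [← Finset.sum_mul, Finset.sum_range_succ, sum_mu, mu_top]; ring

/-- Explicit form of the family, with an upper bound for the number of arcs. -/
theorem family_explicit (r : ℕ) (hr : 1 ≤ r) (S : ℕ) (hS : 1 ≤ S) (m : ℕ) (hm : 2 * r = m + 1) :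
    (1 / 192 : ℝ) * (S:ℝ) ^ (5 * r) ≤ totalWeight (fun x y : Fin (MM (4 * S) ((4 * S) ^ r) * KK (4 * S) m) => W (4 * S) m ((4 * S) ^ r) x y) ∧
    totalWeight (fun x y : Fin (MM (4 * S) ((4 * S) ^ r) * KK (4 * S) m) => W (4 * S) m ((4 * S) ^ r) x y) ≤ (4 * 2 ^ (12 * r)) * (S:ℝ) ^ (5 * r) ∧
    mac (fun x y : Fin (MM (4 * S) ((4 * S) ^ r) * KK (4 * S) m) => W (4 * S) m ((4 * S) ^ r) x y)
      ≤ totalWeight (fun x y : Fin (MM (4 * S) ((4 * S) ^ r) * KK (4 * S) m) => W (4 * S) m ((4 * S) ^ r) x y) / 4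
        + (2 ^ (2 * r) * (4 * r + 8) * 4 ^ (3 * r + 3)) * (S:ℝ) ^ (3 * r + 3) := by
  set q := 4 * S with hqdef
  have hq : 0 < q := by omega
  set T := q ^ r with hTdef
  have hT : 0 < T := Nat.pow_pos hq
  have hqT : q ≤ T := by
    calc q = q ^ 1 := (pow_one q).symm
      _ ≤ q ^ r := Nat.pow_le_pow_right hq hr
  have hKT : KK q m = T ^ 2 := by
    unfold KK
    rw [hTdef, ← pow_mul, ← hm, mul_comm]
  have hT4 : 4 ≤ T := by omega
  have hK16 : 16 ≤ KK q m := by rw [hKT]; nlinarith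
  refine ⟨?_, ?_, ?_⟩
  · refine le_trans ?_ (total_ge hq hT hK16)
    have h1 : (T : ℝ) / 3 ≤ ((T / 2 : ℕ) : ℝ) := by
      have : T ≤ 3 * (T / 2) := by omega
      have h' : (T : ℝ) ≤ 3 * ((T / 2 : ℕ) : ℝ) := by exact_mod_cast this
      linarith
    have h2 : (KK q m : ℝ) = (T : ℝ) ^ 2 := by rw [hKT]; push_cast; ring
    have h3 : (S : ℝ) ^ (5 * r) ≤ (T : ℝ) ^ 5 := by
      rw [hTdef]
      push_cast
      rw [← pow_mul, mul_comm 5 r]
      apply pow_le_pow_left₀ (by positivity)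
      rw [hqdef]; push_cast
      have : (0:ℝ) ≤ S := by positivity
      linarith
    rw [h2]
    calc (1 / 192 : ℝ) * (S:ℝ) ^ (5 * r) ≤ 1 / 192 * (T : ℝ) ^ 5 := by gcongr
      _ = (T : ℝ) / 3 * ((T:ℝ) ^ 2 / 8) ^ 2 := by ring
      _ ≤ _ := by gcongr
  · have h1 := @total_le q m T hq
    refine h1.trans ?_
    have hM : (MM q T : ℝ) ≤ 4 * T := by
      have : MM q T ≤ 4 * T := by unfold MM; omega
      exact_mod_cast this
    have hK : (KK q m : ℝ) = (T : ℝ) ^ 2 := by rw [hKT]; push_cast; ring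
    rw [hK]
    have hTr : (T : ℝ) = (4:ℝ) ^ r * (S:ℝ) ^ r := by rw [hTdef, hqdef]; push_cast; rw [mul_pow]
    calc 2 ^ (m + 1) * ((MM q T : ℝ) * ((T:ℝ) ^ 2) ^ 2) ≤ 2 ^ (m + 1) * ((4 * T) * ((T:ℝ) ^ 2) ^ 2) := by gcongr
      _ = 4 * 2 ^ (2 * r) * (T:ℝ) ^ 5 := by rw [← hm]; ring
      _ = 4 * 2 ^ (2 * r) * ((4:ℝ) ^ r * (S:ℝ) ^ r) ^ 5 := by rw [hTr]
      _ = (4 * (2 ^ (2 * r) * ((4:ℝ) ^ r) ^ 5)) * ((S:ℝ) ^ r) ^ 5 := by ring
      _ = _ := by
          rw [← pow_mul (S:ℝ) r 5, mul_comm r 5]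
          congr 2
          rw [show (4:ℝ) = 2 ^ 2 by norm_num, ← pow_mul, ← pow_mul, ← pow_add]
          congr 1; ring
  · apply Dicut.mac_le
    intro X
    have h := @cut_le q m T hq hT X
    have hq1 : (1 : ℝ) ≤ q := by exact_mod_cast hq
    have hT' : (0 : ℝ) < T := by exact_mod_cast hT
    have hqT' : (q : ℝ) ≤ T := by exact_mod_cast hqT
    have hM : (MM q T : ℝ) ≤ 4 * T := by
      unfold MM; push_cast; linarith
    have hK : (KK q m : ℝ) = (T : ℝ) ^ 2 := by rw [hKT]; push_cast; ring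
    have hTr : (T : ℝ) = (q : ℝ) ^ r := by rw [hTdef]; push_cast; ring
    have hqq : (q:ℝ) ^ 2 / T ≤ q := by
      rw [div_le_iff₀ hT', sq]
      exact mul_le_mul_of_nonneg_left hqT' (by positivity)
    have hqm : (q:ℝ) ^ m * q = (T : ℝ) ^ 2 := by
      rw [hTr, ← pow_succ, ← hm, ← pow_mul, mul_comm]
    have hqm2 : (q:ℝ) ^ (2 * m + 1) * q = (T : ℝ) ^ 4 := by
      calc (q:ℝ) ^ (2 * m + 1) * q = ((q:ℝ) ^ m * q) ^ 2 := by ring
        _ = _ := by rw [hqm]; ring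
    -- the three kinds of terms
    have t1 : 2 ^ m * ((MM q T : ℝ) * KK q m) ≤ 2 ^ m * 4 * (T:ℝ) ^ 3 := by
      rw [hK]
      calc _ ≤ 2 ^ m * ((4 * T) * (T:ℝ) ^ 2) := by gcongr
        _ = _ := by ring
    have t2 : m * 2 ^ m * (q:ℝ) ^ (2 * m + 1) * ((MM q T : ℝ) + q) * ((q:ℝ) ^ 2 / T) ^ 2 / 8
        ≤ 2 ^ m * m * ((T:ℝ) ^ 3 * q ^ 3) := by
      calc _ ≤ m * 2 ^ m * (q:ℝ) ^ (2 * m + 1) * (5 * T) * ((q:ℝ) ^ 2 / T) ^ 2 / 8 := by
            gcongr; linarith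
        _ = m * 2 ^ m * ((q:ℝ) ^ (2 * m + 1) * q) * 5 * q ^ 3 / T / 8 := by
            field_simp
        _ = (5 / 8) * (2 ^ m * m * ((T:ℝ) ^ 3 * q ^ 3)) := by
            rw [hqm2]; field_simp
        _ ≤ _ := by
            have : (0:ℝ) ≤ 2 ^ m * m * ((T:ℝ) ^ 3 * q ^ 3) := by positivity
            linarith
    have t3 : ((MM q T : ℝ) * KK q m) * (2 ^ (m + 1) * ((q : ℝ) + 2) + 2 ^ m * ((q:ℝ) ^ 2 / T))
        ≤ 2 ^ m * 28 * ((T:ℝ) ^ 3 * q) := by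
      rw [hK]
      calc _ ≤ ((4 * T) * (T:ℝ) ^ 2) * (2 ^ (m + 1) * (3 * q) + 2 ^ m * q) := by
            gcongr; linarith
        _ = _ := by rw [pow_succ (2:ℝ) m]; ring
    have t4 : 6 * q * (KK q m : ℝ) * (2 * m * 2 ^ m * (q:ℝ) ^ m * ((q:ℝ) ^ 2 / T))
        ≤ 2 ^ m * (12 * m) * ((T:ℝ) ^ 3 * q ^ 2) := by
      rw [hK]
      apply le_of_eq
      calc _ = 2 ^ m * (12 * m) * ((q:ℝ) ^ m * q) * (T:ℝ) ^ 2 * q ^ 2 / T := by field_simp; ring
        _ = _ := by rw [hqm]; field_simp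
    have hT3 : (0:ℝ) ≤ (T:ℝ) ^ 3 := by positivity
    have hq3a : (1:ℝ) ≤ (q:ℝ) ^ 3 := one_le_pow₀ hq1
    have hq3b : (q:ℝ) ≤ (q:ℝ) ^ 3 := by
      calc (q:ℝ) = (q:ℝ) ^ 1 := (pow_one _).symm
        _ ≤ _ := pow_le_pow_right₀ hq1 (by norm_num)
    have hq3c : (q:ℝ) ^ 2 ≤ (q:ℝ) ^ 3 := pow_le_pow_right₀ hq1 (by norm_num)
    have s1 : 2 ^ m * 4 * (T:ℝ) ^ 3 ≤ 2 ^ m * 4 * ((T:ℝ) ^ 3 * q ^ 3) := by
      gcongr; nlinarith
    have s3 : 2 ^ m * 28 * ((T:ℝ) ^ 3 * q) ≤ 2 ^ m * 28 * ((T:ℝ) ^ 3 * q ^ 3) := by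
      gcongr
    have s4 : 2 ^ m * (12 * m) * ((T:ℝ) ^ 3 * q ^ 2) ≤ 2 ^ m * (12 * m) * ((T:ℝ) ^ 3 * q ^ 3) := by
      gcongr
    have hfin : (T:ℝ) ^ 3 * (q:ℝ) ^ 3 = 4 ^ (3 * r + 3) * (S:ℝ) ^ (3 * r + 3) := by
      rw [hTr, ← pow_mul, ← pow_add, ← mul_pow, hqdef]
      push_cast
      congr 1
      ring
    have hmr : (m : ℝ) + 1 = 2 * r := by exact_mod_cast hm.symm
    have hpow : (2:ℝ) ^ (2 * r) = 2 * 2 ^ m := by rw [hm, pow_succ]; ring
    have hsum : 4 * cutWeight (fun x y : Fin (MM q T * KK q m) => W q m T x y) X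
        ≤ totalWeight (fun x y : Fin (MM q T * KK q m) => W q m T x y) + 2 ^ m * (32 + 13 * m) * ((T:ℝ) ^ 3 * q ^ 3) := by
      linarith
    rw [hfin] at hsum
    rw [hpow]
    have hcoef : 2 ^ m * (32 + 13 * (m:ℝ)) ≤ 4 * (2 * 2 ^ m * (4 * r + 8)) := by
      have h4r : 4 * (r:ℝ) = 2 * (m + 1) := by linarith
      rw [h4r]
      have : (0:ℝ) < 2 ^ m := by positivity
      have hm0 : (0:ℝ) ≤ m := by positivity
      nlinarith
    have hX : (0:ℝ) ≤ 4 ^ (3 * r + 3) * (S:ℝ) ^ (3 * r + 3) := by positivity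
    have := mul_le_mul_of_nonneg_right hcoef hX
    have e : 4 * (2 * 2 ^ m * (4 * r + 8)) * (4 ^ (3 * r + 3) * (S:ℝ) ^ (3 * r + 3))
        = 4 * (2 * 2 ^ m * (4 * (r:ℝ) + 8) * 4 ^ (3 * r + 3) * (S:ℝ) ^ (3 * r + 3)) := by ring
    rw [e] at this
    linarith


end Pool.Agent.Helper883.Dicut.Multi
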