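import Pool.Agent.Helper883.Dicut.HDefs
import Pool.Agent.Helper883.Dicut.AllM
import Pool.Agent.Helper883.Dicut.MultiFam
import Pool.Agent.Helper883.Dicut.LowerW

set_option autoImplicit false

/-! Bounds for `h`, `h_μ`, `h_ω`. -/

namespace Pool.Agent.Helper883.Dicut

open Finset

/-- Weights `0` or `1`. -/
def PS (x : ℝ) : Prop := x = 0 ∨ x = 1
/-- Natural weights. -/
def PM (x : ℝ) : Prop := ∃ k : ℕ, x = k

lemma total_nat {n : ℕ} (w : WDigraph n) (h : ∀ i j, ∃ k : ℕ, w i j = k) : ∃ m : ℕ, totalWeight w = m := by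
  choose k hk using h
  refine ⟨∑ i, ∑ j, k i j, ?_⟩
  unfold totalWeight
  push_cast
  simp_rw [hk]

lemma cut_nat {n : ℕ} (w : WDigraph n) (h : ∀ i j, ∃ k : ℕ, w i j = k) (X : Finset (Fin n)) :
    ∃ m : ℕ, cutWeight w X = m := by
  choose k hk using h
  refine ⟨∑ i ∈ X, ∑ j ∈ Xᶜ, k i j, ?_⟩
  unfold cutWeight
  push_cast
  simp_rw [hk]

lemma mac_nat {n : ℕ} (w : WDigraph n) (h : ∀ i j, ∃ k : ℕ, w i j = k) : ∃ m : ℕ, mac w = m := by
  obtain ⟨X, hX⟩ := exists_eq_ciSup_of_finite (f := fun X : Finset (Fin n) => cutWeight w X)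
  obtain ⟨m, hm⟩ := cut_nat w h X
  exact ⟨m, by unfold mac; rw [← hX]; exact hm⟩

lemma mac_nonneg' {n : ℕ} (w : WDigraph n) : 0 ≤ mac w := by
  have := cut_le_mac w ∅
  simpa [cutWeight] using this

/-! ### The simple family -/

lemma Grid.K_le {T a : ℕ} (hT : 1 ≤ T) (ha : a < Grid.NN T) : Grid.K (Grid.NN T) a ≤ 3 * T ^ 2 := by
  have hk := Grid.K_eq ha
  have u1 := @Grid.up_le (Grid.NN T) a
  have u2 := @Grid.dn_le (Grid.NN T) a
  have hc : Grid.cb (Grid.pos (Grid.NN T) a) ≤ T := by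
    have h1 := Grid.cb_le (Grid.pos (Grid.NN T) a)
    have h2 : Grid.pos (Grid.NN T) a < (T + 1) ^ 3 := by
      unfold Grid.pos Grid.NN
      have : 1 ≤ (T + 1) ^ 3 := Nat.one_le_pow _ _ (by omega)
      omega
    by_contra hcon
    push Not at hcon
    have : (T + 1) ^ 3 ≤ Grid.cb (Grid.pos (Grid.NN T) a) ^ 3 := Nat.pow_le_pow_left hcon 3
    omega
  have hc2 : Grid.cb (Grid.pos (Grid.NN T) a) ^ 2 ≤ T ^ 2 := Nat.pow_le_pow_left hc 2
  have hT2 : 1 ≤ T ^ 2 := Nat.one_le_pow _ _ (by omega)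
  omega

lemma Grid.total_le {T : ℕ} (hT : 1 ≤ T) :
    totalWeight (fun x y : Fin (Grid.NN T * Grid.NN T) => Grid.W (Grid.NN T) x y) ≤ 18 * ((T:ℝ) + 1) ^ 7 := by
  rw [Grid.total_eq]
  calc ∑ a ∈ range (Grid.NN T), (Grid.K (Grid.NN T) a : ℝ) * ((Grid.K (Grid.NN T) a : ℝ) - 1)
      ≤ ∑ a ∈ range (Grid.NN T), (3 * (T:ℝ) ^ 2) * (3 * (T:ℝ) ^ 2) := by
        apply Finset.sum_le_sum
        intro a ha
        rw [mem_range] at ha
        have h1 : (Grid.K (Grid.NN T) a : ℝ) ≤ 3 * (T:ℝ) ^ 2 := by exact_mod_cast Grid.K_le hT ha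
        have h0 : (0:ℝ) ≤ (Grid.K (Grid.NN T) a : ℝ) := Nat.cast_nonneg _
        have h3 : (0:ℝ) ≤ 3 * (T:ℝ) ^ 2 := by positivity
        nlinarith
    _ = (Grid.NN T : ℝ) * (9 * (T:ℝ) ^ 4) := by
        rw [Finset.sum_const, card_range, nsmul_eq_mul]; ring
    _ ≤ (2 * ((T:ℝ) + 1) ^ 3) * (9 * ((T:ℝ) + 1) ^ 4) := by
        have hN : (Grid.NN T : ℝ) ≤ 2 * ((T:ℝ) + 1) ^ 3 := by
          have : Grid.NN T ≤ 2 * (T + 1) ^ 3 := by unfold Grid.NN; omega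
          exact_mod_cast this
        gcongr
        linarith
    _ = _ := by ring

lemma family_S : ∀ S : ℕ, 1 ≤ S → ∃ m : ℕ, (24/7 : ℝ) * (S:ℝ) ^ 7 ≤ m ∧ (m:ℝ) ≤ (18 * 3 ^ 7) * (S:ℝ) ^ 7 ∧
      Ach PS m (m / 4 + (9/5 * 3 ^ 5) * (S:ℝ) ^ 5) := by
  intro S hS
  have hcl := Grid.classS (Grid.NN (S + 1))
  obtain ⟨m, hm⟩ := total_nat (fun x y : Fin (Grid.NN (S + 1) * Grid.NN (S + 1)) => Grid.W (Grid.NN (S + 1)) x y)
    (fun i j => by
      rcases Grid.W_zero_one (Grid.NN (S+1)) i j with h | h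
      · exact ⟨0, by rw [h]; simp⟩
      · exact ⟨1, by rw [h]; simp⟩)
  have hS' : (1 : ℝ) ≤ S := by exact_mod_cast hS
  refine ⟨m, ?_, ?_, _, (fun x y : Fin (Grid.NN (S + 1) * Grid.NN (S + 1)) => Grid.W (Grid.NN (S + 1)) x y),
    ?_, ?_, hm, ?_⟩
  · rw [← hm]
    have := Grid.total_ge (S + 1) (by omega)
    push_cast at this
    have e : (S:ℝ) + 1 - 1 = S := by ring
    rw [e] at this
    exact this
  · rw [← hm]
    have := @Grid.total_le (S + 1) (by omega)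
    refine this.trans ?_
    have h2 : (((S + 1 : ℕ) : ℝ) + 1) ^ 7 ≤ (3 * S) ^ 7 :=
      pow_le_pow_left₀ (by positivity) (by push_cast; linarith) 7
    rw [mul_pow] at h2
    linarith
  · intro x y h
    exact Grid.W_pos_lt h
  · intro x y
    exact Grid.W_zero_one _ _ _
  · rw [← hm]
    refine (Grid.mac_le (S + 1)).trans ?_
    have h2 : (((S + 1 : ℕ) : ℝ) + 1) ^ 5 ≤ (3 * S) ^ 5 :=
      pow_le_pow_left₀ (by positivity) (by push_cast; linarith) 5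
    rw [mul_pow] at h2
    linarith

/-! ### The multigraph family -/

/-- The multigraph family with all constants, and with an upper bound for the number of arcs. -/
lemma family_M (r : ℕ) (hr : 1 ≤ r) : ∀ S : ℕ, 1 ≤ S → ∃ m : ℕ, (1/192 : ℝ) * (S:ℝ) ^ (5 * r) ≤ m ∧
      (m:ℝ) ≤ (4 * 2 ^ (12 * r)) * (S:ℝ) ^ (5 * r) ∧
      Ach PM m (m / 4 + (2 ^ (2 * r) * (4 * r + 8) * 4 ^ (3 * r + 3)) * (S:ℝ) ^ (3 * r + 3)) := by
  intro S hS
  obtain ⟨m, hm⟩ : ∃ m, 2 * r = m + 1 := ⟨2 * r - 1, by omega⟩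
  obtain ⟨h1, h2, h3⟩ := Multi.family_explicit r hr S hS m hm
  obtain ⟨M, hM⟩ := total_nat (fun x y : Fin (Multi.MM (4 * S) ((4 * S) ^ r) * Multi.KK (4 * S) m) => Multi.W (4 * S) m ((4 * S) ^ r) x y)
    (fun i j => Multi.W_nat _ _ _ _ _)
  rw [hM] at h1 h2 h3
  exact ⟨M, h1, h2, _, _, fun i j h => Multi.W_lt h, fun i j => Multi.W_nat _ _ _ _ _, hM, h3⟩

end Pool.Agent.Helper883.Dicut
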