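import Pool.Agent.Helper883.Dicut.Expo

set_option autoImplicit false

namespace Pool.Agent.Helper883.Dicut

open Finset

/-- Functions that are affine in each coordinate. -/
def Aff {m : ℕ} (F : (Fin m → ℝ) → ℝ) : Prop :=
  ∀ (y : Fin m → ℝ) (c : Fin m), ∃ A B : ℝ, ∀ t : ℝ, F (Function.update y c t) = A + B * t

lemma Aff.sum {m : ℕ} {ι : Type} (s : Finset ι) (F : ι → (Fin m → ℝ) → ℝ) (h : ∀ i ∈ s, Aff (F i)) :
    Aff (fun y => ∑ i ∈ s, F i y) := by
  classical
  intro y c
  induction s using Finset.induction_on with
  | empty => exact ⟨0, 0, fun t => by simp⟩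
  | insert a s ha ih =>
    obtain ⟨A, B, h1⟩ := ih (fun i hi => h i (Finset.mem_insert_of_mem hi))
    obtain ⟨A', B', h2⟩ := h a (Finset.mem_insert_self _ _) y c
    refine ⟨A' + A, B' + B, fun t => ?_⟩
    have e1 := h1 t
    simp only at e1
    simp only [Finset.sum_insert ha]
    rw [h2 t, e1]; ring

lemma Aff.const_mul {m : ℕ} (k : ℝ) (F : (Fin m → ℝ) → ℝ) (h : Aff F) : Aff (fun y => k * F y) := by
  intro y c
  obtain ⟨A, B, h1⟩ := h y c
  exact ⟨k * A, k * B, fun t => by simp only [h1 t]; ring⟩

/-- Rounding a coordinatewise affine function to a vertex of the cube. -/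
lemma Aff.round {m : ℕ} (F : (Fin m → ℝ) → ℝ) (h : Aff F) (a : Fin m → ℝ) (ha : ∀ c, |a c| ≤ 1) :
    ∃ y : Fin m → ℝ, (∀ c, y c = 1 ∨ y c = -1) ∧ F a ≤ F y := by
  classical
  have key : ∀ s : Finset (Fin m), ∃ y : Fin m → ℝ, (∀ c ∈ s, y c = 1 ∨ y c = -1) ∧ (∀ c, c ∉ s → y c = a c) ∧ F a ≤ F y := by
    intro s
    induction s using Finset.induction_on with
    | empty => exact ⟨a, by simp, by simp, le_rfl⟩
    | insert c s hc ih =>
      obtain ⟨y, h1, h2, h3⟩ := ih
      obtain ⟨A, B, hAB⟩ := h y c
      have e : F y = A + B * y c := by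
        rw [← hAB (y c), Function.update_eq_self]
      have hyc : |y c| ≤ 1 := by rw [h2 c hc]; exact ha c
      by_cases hB : 0 ≤ B
      · refine ⟨Function.update y c 1, ?_, ?_, ?_⟩
        · intro d hd
          by_cases hdc : d = c
          · subst hdc; left; simp
          · rw [Function.update_of_ne hdc]
            exact h1 d (Finset.mem_of_mem_insert_of_ne hd hdc)
        · intro d hd
          rw [Finset.mem_insert, not_or] at hd
          rw [Function.update_of_ne hd.1]
          exact h2 d hd.2
        · rw [hAB 1]
          have := (abs_le.1 hyc).2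
          nlinarith
      · refine ⟨Function.update y c (-1), ?_, ?_, ?_⟩
        · intro d hd
          by_cases hdc : d = c
          · subst hdc; right; simp
          · rw [Function.update_of_ne hdc]
            exact h1 d (Finset.mem_of_mem_insert_of_ne hd hdc)
        · intro d hd
          rw [Finset.mem_insert, not_or] at hd
          rw [Function.update_of_ne hd.1]
          exact h2 d hd.2
        · rw [hAB (-1)]
          have := (abs_le.1 hyc).1
          nlinarith
  obtain ⟨y, h1, _, h3⟩ := key Finset.univ
  exact ⟨y, fun c => h1 c (Finset.mem_univ _), h3⟩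

/-- One term of the correlated rounding. -/
noncomputable def term {n m : ℕ} (r : Fin n → Fin m) (s : Fin n → ℝ) (i j : Fin n) (y : Fin m → ℝ) : ℝ :=
  if r i = r j then 2 + 2 * y (r i) else (1 + s i * y (r i)) * (1 - s j * y (r j))

lemma term_aff {n m : ℕ} (r : Fin n → Fin m) (s : Fin n → ℝ) (i j : Fin n) : Aff (term r s i j) := by
  intro y c
  unfold term
  by_cases h : r i = r j
  · simp only [h, if_true]
    by_cases h2 : r j = c
    · exact ⟨2, 2, fun t => by rw [h2]; simp⟩
    · exact ⟨2 + 2 * y (r j), 0, fun t => by rw [Function.update_of_ne h2]; ring⟩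
  · simp only [h, if_false]
    by_cases h2 : r i = c
    · have h3 : r j ≠ c := fun h3 => h (h2.trans h3.symm)
      refine ⟨1 - s j * y (r j), s i * (1 - s j * y (r j)), fun t => ?_⟩
      rw [Function.update_of_ne h3, h2, Function.update_self]; ring
    · by_cases h3 : r j = c
      · refine ⟨1 + s i * y (r i), -(s j * (1 + s i * y (r i))), fun t => ?_⟩
        rw [Function.update_of_ne h2, h3, Function.update_self]; ring
      · refine ⟨(1 + s i * y (r i)) * (1 - s j * y (r j)), 0, fun t => ?_⟩
        rw [Function.update_of_ne h2, Function.update_of_ne h3]; ring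

/-- Correlated rounding: lower bound for `mac`. -/
theorem mac_ge {n m : ℕ} (w : WDigraph n) (r : Fin n → Fin m) (s : Fin n → ℝ) (a : Fin m → ℝ)
    (hs : ∀ i, s i = 1 ∨ s i = -1) (ha : ∀ c, |a c| ≤ 1)
    (hrs : ∀ i j, w i j ≠ 0 → r i = r j → s i = 1 ∧ s j = -1) :
    (∑ i, ∑ j, w i j * term r s i j a) / 4 ≤ mac w := by
  classical
  have hF : Aff (fun y => ∑ i, ∑ j, w i j * term r s i j y) :=
    Aff.sum _ _ (fun i _ => Aff.sum _ _ (fun j _ => Aff.const_mul _ _ (term_aff r s i j)))
  obtain ⟨y, hy, hle⟩ := Aff.round _ hF a ha
  set X : Finset (Fin n) := Finset.univ.filter (fun i => s i * y (r i) = 1) with hX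
  refine le_trans ?_ (cut_le_mac w X)
  have e : ∑ i, ∑ j, w i j * term r s i j y = 4 * cutWeight w X := by
    unfold cutWeight
    rw [Finset.mul_sum]
    rw [← Finset.sum_subset (Finset.subset_univ X)]
    · apply Finset.sum_congr rfl
      intro i hi
      have hi' : s i * y (r i) = 1 := (Finset.mem_filter.1 hi).2
      rw [Finset.mul_sum, ← Finset.sum_subset (Finset.subset_univ Xᶜ)]
      · apply Finset.sum_congr rfl
        intro j hj
        have hj' : s j * y (r j) = -1 := by
          have : ¬ (s j * y (r j) = 1) := by
            intro h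
            exact (Finset.mem_compl.1 hj) (Finset.mem_filter.2 ⟨Finset.mem_univ _, h⟩)
          rcases hs j with h1 | h1 <;> rcases hy (r j) with h2 | h2 <;> simp [h1, h2] at this ⊢
        by_cases hw : w i j = 0
        · rw [hw]; ring
        · unfold term
          by_cases hr : r i = r j
          · have := hrs i j hw hr
            rw [if_pos hr]
            rw [this.1, one_mul] at hi'
            rw [hi']; ring
          · rw [if_neg hr, hi', hj']; ring
      · intro j _ hj
        have hj' : s j * y (r j) = 1 := by
          have : j ∈ X := by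
            by_contra h
            exact hj (Finset.mem_compl.2 h)
          exact (Finset.mem_filter.1 this).2
        by_cases hw : w i j = 0
        · rw [hw]; ring
        · unfold term
          by_cases hr : r i = r j
          · have := hrs i j hw hr
            rw [this.1, one_mul] at hi'
            rw [this.2, ← hr, hi'] at hj'
            norm_num at hj'
          · rw [if_neg hr, hj']; ring
    · intro i _ hi
      have hi' : s i * y (r i) = -1 := by
        have : ¬ (s i * y (r i) = 1) := by
          intro h
          exact hi (Finset.mem_filter.2 ⟨Finset.mem_univ _, h⟩)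
        rcases hs i with h1 | h1 <;> rcases hy (r i) with h2 | h2 <;> simp [h1, h2] at this ⊢
      apply Finset.sum_eq_zero
      intro j _
      by_cases hw : w i j = 0
      · rw [hw]; ring
      · unfold term
        by_cases hr : r i = r j
        · have := hrs i j hw hr
          rw [if_pos hr]
          rw [this.1, one_mul] at hi'
          rw [hi']; ring
        · rw [if_neg hr, hi']; ring
  have hle' : ∑ i, ∑ j, w i j * term r s i j a ≤ ∑ i, ∑ j, w i j * term r s i j y := hle
  rw [e] at hle'
  linarith

section levels

variable {n : ℕ} (w : WDigraph n) (lam : Fin n → ℕ)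

/-- weight of arcs whose level difference is `d`. -/
def diffW (d : ℕ) : ℝ := ∑ i, ∑ j, if lam j = lam i + d then w i j else 0

/-- weight crossing between levels `≤ x` and `> x`. -/
def crossW (x : ℕ) : ℝ := ∑ i, ∑ j, if lam i ≤ x ∧ x < lam j then w i j else 0

variable (hw : ∀ i j, 0 ≤ w i j) (hlam : ∀ i j, w i j ≠ 0 → lam i < lam j)
include hw hlam

lemma mac_quarter : totalWeight w / 4 ≤ mac w := by
  have h := mac_ge w (id : Fin n → Fin n) (fun _ => 1) (fun _ => 0) (fun _ => Or.inl rfl) (by simp)
    (by
      intro i j hij h
      have := hlam i j hij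
      simp only [id] at h
      rw [h] at this
      exact absurd this (lt_irrefl _))
  have e : ∑ i, ∑ j, w i j * term (id : Fin n → Fin n) (fun _ => 1) i j (fun _ => 0) = totalWeight w := by
    unfold totalWeight
    apply Finset.sum_congr rfl; intro i _
    apply Finset.sum_congr rfl; intro j _
    unfold term
    by_cases h : id i = id j
    · have : w i j = 0 := by
        by_contra h0
        have := hlam i j h0
        simp only [id] at h
        rw [h] at this
        exact absurd this (lt_irrefl _)
      rw [this]; ring
    · rw [if_neg h]; ring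
  rw [e] at h
  exact h

/-- Cut gain from the flow across a level. -/
lemma mac_cross (x : ℕ) (hpos : 0 < totalWeight w) :
    totalWeight w / 4 + crossW w lam x ^ 2 / (4 * totalWeight w) ≤ mac w := by
  classical
  set T := totalWeight w with hT
  set C := crossW w lam x with hC
  have hC0 : 0 ≤ C := by
    rw [hC]; unfold crossW
    exact Finset.sum_nonneg (fun i _ => Finset.sum_nonneg (fun j _ => by split_ifs <;> [exact hw i j; exact le_rfl]))
  have hCT : C ≤ T := by
    rw [hC, hT]; unfold crossW totalWeight
    exact Finset.sum_le_sum (fun i _ => Finset.sum_le_sum (fun j _ => by split_ifs <;> [exact le_rfl; exact hw i j]))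
  set μ := C / T with hμ
  have hμ0 : 0 ≤ μ := div_nonneg hC0 hpos.le
  have hμ1 : μ ≤ 1 := (div_le_one hpos).2 hCT
  have h := mac_ge w (id : Fin n → Fin n) (fun _ => 1) (fun i => if lam i ≤ x then μ else -μ) (fun _ => Or.inl rfl)
    (by intro c; split_ifs <;> [rw [abs_of_nonneg hμ0]; rw [abs_neg, abs_of_nonneg hμ0]] <;> exact hμ1)
    (by
      intro i j hij h
      have := hlam i j hij
      simp only [id] at h
      rw [h] at this
      exact absurd this (lt_irrefl _))
  refine le_trans ?_ h
  have e : T + C ^ 2 / T ≤ ∑ i, ∑ j, w i j * term (id : Fin n → Fin n) (fun _ => 1) i j (fun i => if lam i ≤ x then μ else -μ) := by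
    have h1 : ∀ i j, w i j * (1 - μ ^ 2) + (if lam i ≤ x ∧ x < lam j then w i j else 0) * (2 * μ)
        ≤ w i j * term (id : Fin n → Fin n) (fun _ => 1) i j (fun i => if lam i ≤ x then μ else -μ) := by
      intro i j
      by_cases hij : w i j = 0
      · rw [hij]; simp
      · have hl := hlam i j hij
        have hne : ¬ (id i = id j) := by
          intro h; simp only [id] at h; rw [h] at hl; exact lt_irrefl _ hl
        unfold term
        rw [if_neg hne]
        simp only [id, one_mul]
        have hwij := hw i j
        by_cases h1 : lam i ≤ x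
        · by_cases h2 : lam j ≤ x
          · rw [if_pos h1, if_pos h2, if_neg (by omega)]
            nlinarith
          · rw [if_pos h1, if_neg h2, if_pos ⟨h1, by omega⟩]
            nlinarith [mul_nonneg hwij (sq_nonneg μ)]
        · have h2 : ¬ lam j ≤ x := by omega
          rw [if_neg h1, if_neg h2, if_neg (by omega)]
          nlinarith
    have h2 := Finset.sum_le_sum (fun i (_ : i ∈ Finset.univ) => Finset.sum_le_sum (fun j (_ : j ∈ Finset.univ) => h1 i j))
    refine le_trans (le_of_eq ?_) h2
    simp only [Finset.sum_add_distrib, ← Finset.sum_mul]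
    have e1 : ∑ i, ∑ j, w i j = T := rfl
    have e2 : ∑ i, ∑ j, (if lam i ≤ x ∧ x < lam j then w i j else 0) = C := rfl
    rw [e1, e2, hμ]
    field_simp
    ring
  have e3 : T / 4 + C ^ 2 / (4 * T) = (T + C ^ 2 / T) / 4 := by field_simp
  rw [e3]
  linarith

/-- Cut gain from pairs of levels at distance `d`. -/
lemma mac_diff (d : ℕ) (hd : 1 ≤ d) :
    totalWeight w / 4 + diffW w lam d / 8 ≤ mac w := by
  classical
  obtain ⟨M, hM⟩ : ∃ M, ∀ i, lam i < M :=
    ⟨Finset.univ.sup lam + 1, fun i => Nat.lt_succ_of_le (Finset.le_sup (Finset.mem_univ i))⟩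
  -- class of a level for parity e
  have main : ∀ e : ℕ, e < 2 → totalWeight w / 4 + (∑ i, ∑ j, if lam j = lam i + d ∧ (lam i / d) % 2 = e then w i j else 0) / 4 ≤ mac w := by
    intro e he
    let r : Fin n → Fin M := fun i => ⟨if (lam i / d) % 2 = e ∨ lam i < d then lam i else lam i - d, by
      have := hM i
      split_ifs <;> omega⟩
    let s : Fin n → ℝ := fun i => if (lam i / d) % 2 = e ∨ lam i < d then 1 else -1
    have hdiv : ∀ p : ℕ, d ≤ p → p / d = (p - d) / d + 1 := by
      intro p hp
      conv_lhs => rw [← Nat.sub_add_cancel hp]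
      rw [Nat.add_div_right _ (by omega)]
    have hkey : ∀ i j, lam i < lam j → r i = r j → (lam j = lam i + d ∧ (lam i / d) % 2 = e) ∧ s i = 1 ∧ s j = -1 := by
      intro i j hij hr
      have hr' : (if (lam i / d) % 2 = e ∨ lam i < d then lam i else lam i - d)
          = (if (lam j / d) % 2 = e ∨ lam j < d then lam j else lam j - d) := congrArg Fin.val hr
      by_cases h1 : (lam i / d) % 2 = e ∨ lam i < d
      · by_cases h2 : (lam j / d) % 2 = e ∨ lam j < d
        · rw [if_pos h1, if_pos h2] at hr'; omega
        · rw [if_pos h1, if_neg h2] at hr'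
          push Not at h2
          have h3 := hdiv (lam j) h2.2
          rw [← hr'] at h3
          refine ⟨⟨by omega, ?_⟩, ?_, ?_⟩
          · have := h2.1
            omega
          · simp only [s, if_pos h1]
          · have : ¬ ((lam j / d) % 2 = e ∨ lam j < d) := by push Not; exact h2
            simp only [s, if_neg this]
      · by_cases h2 : (lam j / d) % 2 = e ∨ lam j < d
        · rw [if_neg h1, if_pos h2] at hr'; omega
        · rw [if_neg h1, if_neg h2] at hr'
          push Not at h1 h2
          omega
    have hkey2 : ∀ i j, lam j = lam i + d → (lam i / d) % 2 = e → r i = r j := by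
      intro i j h1 h2
      apply Fin.ext
      show (if (lam i / d) % 2 = e ∨ lam i < d then lam i else lam i - d)
          = (if (lam j / d) % 2 = e ∨ lam j < d then lam j else lam j - d)
      rw [if_pos (Or.inl h2)]
      have h3 := hdiv (lam j) (by omega)
      have h4 : lam j - d = lam i := by omega
      rw [h4] at h3
      rw [if_neg, h4]
      push Not
      constructor <;> omega
    have h := mac_ge w r s (fun _ => 0) (by intro i; simp only [s]; split_ifs <;> simp) (by simp)
      (fun i j hij hr => (hkey i j (hlam i j hij) hr).2)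
    refine le_trans (le_of_eq ?_) h
    rw [← add_div]
    congr 1
    unfold totalWeight
    rw [← Finset.sum_add_distrib]
    apply Finset.sum_congr rfl; intro i _
    rw [← Finset.sum_add_distrib]
    apply Finset.sum_congr rfl; intro j _
    unfold term
    by_cases hij : w i j = 0
    · rw [hij]; simp
    · have hl := hlam i j hij
      by_cases hr : r i = r j
      · have := (hkey i j hl hr).1
        rw [if_pos this, if_pos hr]; ring
      · have : ¬ (lam j = lam i + d ∧ (lam i / d) % 2 = e) := fun h => hr (hkey2 i j h.1 h.2)
        rw [if_neg this, if_neg hr]; ring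
  have h0 := main 0 (by norm_num)
  have h1 := main 1 (by norm_num)
  have e : diffW w lam d = (∑ i, ∑ j, if lam j = lam i + d ∧ (lam i / d) % 2 = 0 then w i j else 0)
      + (∑ i, ∑ j, if lam j = lam i + d ∧ (lam i / d) % 2 = 1 then w i j else 0) := by
    unfold diffW
    rw [← Finset.sum_add_distrib]
    apply Finset.sum_congr rfl; intro i _
    rw [← Finset.sum_add_distrib]
    apply Finset.sum_congr rfl; intro j _
    by_cases h1 : lam j = lam i + d
    · rcases Nat.mod_two_eq_zero_or_one (lam i / d) with h2 | h2
      · rw [if_pos h1, if_pos ⟨h1, h2⟩, if_neg (by omega)]; ring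
      · rw [if_pos h1, if_neg (by omega), if_pos ⟨h1, h2⟩]; ring
    · rw [if_neg h1, if_neg (fun h => h1 h.1), if_neg (fun h => h1 h.1)]; ring
  rw [e]
  linarith

/-- Main lower bound: with `N` levels and any `l ≥ 1`. -/
lemma mac_window (N l : ℕ) (hl : 1 ≤ l) (hN : ∀ i, lam i < N) (hpos : 0 < totalWeight w) :
    totalWeight w / 4 + min (totalWeight w / (16 * l)) (totalWeight w * (l:ℝ) ^ 2 / (16 * (N:ℝ) ^ 2)) ≤ mac w := by
  classical
  set T := totalWeight w with hT
  have hl0 : (0 : ℝ) < l := by exact_mod_cast hl
  by_cases hshort : T / 2 ≤ ∑ d ∈ Finset.Icc 1 l, diffW w lam d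
  · -- some difference has large weight
    have h1 : ∑ d ∈ Finset.Icc 1 l, (T / 4 + diffW w lam d / 8) ≤ ∑ _d ∈ Finset.Icc 1 l, mac w := by
      apply Finset.sum_le_sum
      intro d hd
      exact mac_diff w lam hw hlam d (Finset.mem_Icc.1 hd).1
    rw [Finset.sum_add_distrib, ← Finset.sum_div _ (fun d => diffW w lam d) 8, Finset.sum_const, Finset.sum_const, Nat.card_Icc] at h1
    simp only [nsmul_eq_mul, add_tsub_cancel_right] at h1
    have h2 : T / 4 + T / (16 * l) ≤ mac w := by
      have h3 : (l:ℝ) * (T / 4) + T / 16 ≤ l * mac w := by linarith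
      have h4 : T / 4 + T / (16 * l) = ((l:ℝ) * (T / 4) + T / 16) / l := by field_simp
      rw [h4, div_le_iff₀ hl0]
      linarith
    exact le_trans (by gcongr; exact min_le_left _ _) h2
  · push Not at hshort
    -- long arcs
    rcases Nat.eq_zero_or_pos N with h0 | hNpos
    · exfalso
      subst h0
      have : T = 0 := by
        rw [hT]; unfold totalWeight
        apply Finset.sum_eq_zero
        intro i _
        exact absurd (hN i) (Nat.not_lt_zero _)
      linarith
    have hlong : T / 2 * l ≤ ∑ x ∈ Finset.range N, crossW w lam x := by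
      have e1 : ∑ x ∈ Finset.range N, crossW w lam x = ∑ i, ∑ j, w i j * ((lam j - lam i : ℕ) : ℝ) := by
        unfold crossW
        rw [Finset.sum_comm]
        apply Finset.sum_congr rfl; intro i _
        rw [Finset.sum_comm]
        apply Finset.sum_congr rfl; intro j _
        rw [← Finset.sum_filter, Finset.sum_const, nsmul_eq_mul, mul_comm]
        congr 2
        have : (Finset.range N).filter (fun x => lam i ≤ x ∧ x < lam j) = Finset.Ico (lam i) (lam j) := by
          ext x
          simp only [Finset.mem_filter, Finset.mem_range, Finset.mem_Ico]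
          have := hN j
          constructor
          · rintro ⟨_, h⟩; exact h
          · intro h; exact ⟨by omega, h⟩
        rw [this, Nat.card_Ico]
      rw [e1]
      have e2 : ∑ d ∈ Finset.Icc 1 l, diffW w lam d = ∑ i, ∑ j, (if lam j - lam i ≤ l then w i j else 0) := by
        unfold diffW
        rw [Finset.sum_comm]
        apply Finset.sum_congr rfl; intro i _
        rw [Finset.sum_comm]
        apply Finset.sum_congr rfl; intro j _
        by_cases hij : w i j = 0
        · rw [hij]; simp
        · have hlt := hlam i j hij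
          by_cases h : lam j - lam i ≤ l
          · rw [if_pos h, Finset.sum_eq_single (lam j - lam i)]
            · rw [if_pos (by omega)]
            · intro b _ hb
              rw [if_neg (by omega)]
            · intro hn
              exfalso; apply hn
              rw [Finset.mem_Icc]; omega
          · rw [if_neg h]
            apply Finset.sum_eq_zero
            intro d hd
            rw [Finset.mem_Icc] at hd
            rw [if_neg (by omega)]
      have e3 : T - ∑ i, ∑ j, (if lam j - lam i ≤ l then w i j else 0)
          = ∑ i, ∑ j, (if lam j - lam i ≤ l then 0 else w i j) := by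
        rw [hT]; unfold totalWeight
        rw [← Finset.sum_sub_distrib]
        apply Finset.sum_congr rfl; intro i _
        rw [← Finset.sum_sub_distrib]
        apply Finset.sum_congr rfl; intro j _
        split_ifs <;> ring
      have e4 : (∑ i, ∑ j, (if lam j - lam i ≤ l then 0 else w i j)) * l ≤ ∑ i, ∑ j, w i j * ((lam j - lam i : ℕ) : ℝ) := by
        rw [Finset.sum_mul]
        apply Finset.sum_le_sum; intro i _
        rw [Finset.sum_mul]
        apply Finset.sum_le_sum; intro j _
        have hwij := hw i j
        split_ifs with h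
        · rw [zero_mul]; positivity
        · apply mul_le_mul_of_nonneg_left _ hwij
          have : l ≤ lam j - lam i := by omega
          exact_mod_cast this
      rw [← e2] at e3
      rw [← e3] at e4
      refine le_trans ?_ e4
      apply mul_le_mul_of_nonneg_right _ hl0.le
      linarith
    obtain ⟨x, _, hx⟩ : ∃ x ∈ Finset.range N, T / 2 * l / N ≤ crossW w lam x := by
      by_contra hcon
      push Not at hcon
      have : ∑ x ∈ Finset.range N, crossW w lam x < ∑ _x ∈ Finset.range N, T / 2 * l / N := by
        apply Finset.sum_lt_sum_of_nonempty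
        · rw [Finset.nonempty_range_iff]; omega
        · exact hcon
      rw [Finset.sum_const, Finset.card_range, nsmul_eq_mul] at this
      have hNr : (0 : ℝ) < N := by exact_mod_cast hNpos
      have e : (N : ℝ) * (T / 2 * l / N) = T / 2 * l := by field_simp
      rw [e] at this
      linarith
    have h := mac_cross w lam hw hlam x hpos
    refine le_trans ?_ h
    have hNr : (0 : ℝ) < N := by exact_mod_cast hNpos
    have h0 : 0 ≤ T / 2 * l / N := by positivity
    have h5 : (T / 2 * l / N) ^ 2 ≤ crossW w lam x ^ 2 := pow_le_pow_left₀ h0 hx 2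
    have h6 : T * (l:ℝ) ^ 2 / (16 * (N:ℝ) ^ 2) = (T / 2 * l / N) ^ 2 / (4 * T) := by
      field_simp
      ring
    calc T / 4 + min (T / (16 * l)) (T * (l:ℝ) ^ 2 / (16 * (N:ℝ) ^ 2))
        ≤ T / 4 + T * (l:ℝ) ^ 2 / (16 * (N:ℝ) ^ 2) := by gcongr; exact min_le_right _ _
      _ = T / 4 + (T / 2 * l / N) ^ 2 / (4 * T) := by rw [h6]
      _ ≤ T / 4 + crossW w lam x ^ 2 / (4 * T) := by gcongr

end levels

end Pool.Agent.Helper883.Dicut
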