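import Pool.Agent.Helper883.Dicut.MultiDrift

set_option autoImplicit false

/-! Bounds for the multilevel construction. -/

namespace Pool.Agent.Helper883.Dicut.Multi

open Finset Pool.Agent.Helper883.Dicut

/-- multiplicity of level `j` -/
noncomputable def mu (m j : ℕ) : ℝ := 2 ^ (m - j)

lemma mu_nonneg (m j : ℕ) : 0 ≤ mu m j := by unfold mu; positivity

lemma mu_le (m j : ℕ) : mu m j ≤ 2 ^ m := by
  unfold mu
  exact pow_le_pow_right₀ (by norm_num) (by omega)

lemma mu_top (m : ℕ) : mu m (m + 1) = 1 := by unfold mu; simp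

lemma sum_mu (m : ℕ) : ∑ j ∈ range (m + 1), mu m j = 2 ^ (m + 1) - 1 := by
  unfold mu
  induction m with
  | zero => simp; norm_num
  | succ m ih =>
    rw [Finset.sum_range_succ]
    have : ∀ j ∈ range (m + 1), (2:ℝ) ^ (m + 1 - j) = 2 * 2 ^ (m - j) := by
      intro j hj
      rw [mem_range] at hj
      rw [show m + 1 - j = (m - j) + 1 by omega, pow_succ]; ring
    rw [Finset.sum_congr rfl this, ← Finset.mul_sum, ih]
    simp
    ring

lemma telescope (c : ℕ → ℝ) (m : ℕ) :
    ∑ j ∈ range (m + 1), mu m j * (2 * c j - c (j + 1)) + c (m + 1) = 2 ^ (m + 1) * c 0 := by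
  unfold mu
  induction m with
  | zero => simp
  | succ m ih =>
    rw [Finset.sum_range_succ]
    have : ∀ j ∈ range (m + 1), (2:ℝ) ^ (m + 1 - j) * (2 * c j - c (j + 1)) = 2 * (2 ^ (m - j) * (2 * c j - c (j + 1))) := by
      intro j hj
      rw [mem_range] at hj
      rw [show m + 1 - j = (m - j) + 1 by omega, pow_succ]; ring
    rw [Finset.sum_congr rfl this, ← Finset.mul_sum]
    have h := ih
    simp only [Nat.sub_self, pow_zero, one_mul]
    rw [pow_succ]
    linarith

/-- corrections -/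
noncomputable def beta (q m T j : ℕ) (k : ℕ × ℕ) : ℝ :=
  if j < m then 1 / 2 * (q : ℝ) ^ (j + 1) * hh q T k.2 (k.1 % q) else 0

/-- range of the clique names of level `j` -/
def RR (q m T j : ℕ) : Finset (ℕ × ℕ) := range (q ^ (m - j)) ×ˢ range (MM q T + q)

lemma key_mem {q m T j x : ℕ} (hq : 0 < q) (hj : j ≤ m + 1) (hx : x ∈ U q m T) : key q m j x ∈ RR q m T j := by
  have hK := @KK_pos q m hq
  have hu : x % KK q m < KK q m := Nat.mod_lt _ hK
  have ht : x / KK q m < MM q T := Nat.div_lt_of_lt_mul (by rw [mul_comm]; exact U_lt hx)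
  unfold key RR
  rw [mem_product, mem_range, mem_range]
  constructor
  · show x % KK q m / q ^ (j + 1) < q ^ (m - j)
    rw [Nat.div_lt_iff_lt_mul (Nat.pow_pos hq), ← pow_add]
    calc _ < KK q m := hu
      _ ≤ _ := by unfold KK; exact Nat.pow_le_pow_right hq (by omega)
  · show x % KK q m / q ^ j % q + x / KK q m < MM q T + q
    have : x % KK q m / q ^ j % q < q := Nat.mod_lt _ hq
    omega

lemma resid {q m T x : ℕ} (hq : 0 < q) (hT : 0 < T) (hx : x ∈ U q m T) :
    |∑ j ∈ range (m + 2), mu m j * ((((U q m T).filter (fun y => x < y ∧ key q m j x = key q m j y)).card : ℝ)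
      - (((U q m T).filter (fun y => y < x ∧ key q m j x = key q m j y)).card : ℝ) - beta q m T j (key q m j x))|
    ≤ 2 ^ (m + 1) * ((q : ℝ) + 2) + 2 ^ m * ((q:ℝ) ^ 2 / T)
      + (if Good q T (x / KK q m) then 0 else 2 * m * 2 ^ m * (q:ℝ) ^ m * ((q:ℝ) ^ 2 / T)) := by
  set t := x / KK q m with ht
  set u := x % KK q m with hu
  set E : ℕ → ℝ := fun j => (((U q m T).filter (fun y => x < y ∧ key q m j x = key q m j y)).card : ℝ)
      - (((U q m T).filter (fun y => y < x ∧ key q m j x = key q m j y)).card : ℝ) with hE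
  set I : ℕ → ℝ := fun j => (q : ℝ) ^ j * hh q T t (dg q m j x)
        + rho q T t * (2 * cj q j u - cj q (j + 1) u) with hI
  have hδ : ∀ j ∈ range (m + 1), |E j - I j| ≤ q + 1 := by
    intro j hj
    rw [mem_range] at hj
    exact imb hq hT (by omega) hx
  have hδ' : |E (m + 1) - rho q T t * cj q (m + 1) u| ≤ 2 := imb_top hq hT hx
  have hq1 : (1 : ℝ) ≤ q := by exact_mod_cast hq
  have hT' : (0 : ℝ) < T := by exact_mod_cast hT
  -- decomposition
  have hdec : ∑ j ∈ range (m + 2), mu m j * (E j - beta q m T j (key q m j x))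
      = (∑ j ∈ range (m + 1), mu m j * (E j - I j) + (E (m + 1) - rho q T t * cj q (m + 1) u))
        + (mu m 0 * hh q T t (dg q m 0 x)
        + ∑ j ∈ range m, mu m (j + 1) * (q:ℝ) ^ (j + 1) * (hh q T t (dg q m (j + 1) x)
            - hh q T (dg q m j x + t) (dg q m (j + 1) x))) := by
    rw [Finset.sum_range_succ]
    have hb0 : beta q m T (m + 1) (key q m (m + 1) x) = 0 := by unfold beta; rw [if_neg (by omega)]
    rw [hb0, mu_top]
    have h1 : ∑ j ∈ range (m + 1), mu m j * (E j - beta q m T j (key q m j x))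
        = ∑ j ∈ range (m + 1), mu m j * (E j - I j)
          + (∑ j ∈ range (m + 1), mu m j * ((q : ℝ) ^ j * hh q T t (dg q m j x))
            + rho q T t * ∑ j ∈ range (m + 1), mu m j * (2 * cj q j u - cj q (j + 1) u)
            - ∑ j ∈ range (m + 1), mu m j * beta q m T j (key q m j x)) := by
      rw [Finset.mul_sum, ← Finset.sum_add_distrib, ← Finset.sum_sub_distrib, ← Finset.sum_add_distrib]
      apply Finset.sum_congr rfl
      intro j _
      simp only [hI]
      ring
    have h2 := telescope (fun j => cj q j u) m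
    have h3 : cj q 0 u = 0 := by unfold cj; simp [Nat.mod_one]
    simp only [h3, mul_zero] at h2
    have h4 : ∑ j ∈ range (m + 1), mu m j * (2 * cj q j u - cj q (j + 1) u) = - cj q (m + 1) u := by linarith
    have h5 : ∑ j ∈ range (m + 1), mu m j * beta q m T j (key q m j x)
        = ∑ j ∈ range m, mu m (j + 1) * (q:ℝ) ^ (j + 1) * hh q T (dg q m j x + t) (dg q m (j + 1) x) := by
      rw [Finset.sum_range_succ]
      have hbm : beta q m T m (key q m m x) = 0 := by unfold beta; rw [if_neg (by omega)]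
      rw [hbm, mul_zero, add_zero]
      apply Finset.sum_congr rfl
      intro j hj
      rw [mem_range] at hj
      unfold beta
      rw [if_pos hj]
      have e1 : (key q m j x).2 = dg q m j x + t := rfl
      have e2 : (key q m j x).1 % q = dg q m (j + 1) x := rfl
      rw [e1, e2]
      have e3 : mu m j = 2 * mu m (j + 1) := by
        unfold mu
        rw [show m - j = (m - (j + 1)) + 1 by omega, pow_succ]; ring
      rw [e3]; ring
    have h6 : ∑ j ∈ range (m + 1), mu m j * ((q : ℝ) ^ j * hh q T t (dg q m j x))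
        = mu m 0 * hh q T t (dg q m 0 x) + ∑ j ∈ range m, mu m (j + 1) * (q:ℝ) ^ (j + 1) * hh q T t (dg q m (j + 1) x) := by
      rw [Finset.sum_range_succ']
      simp only [pow_zero, one_mul]
      rw [add_comm]
      congr 1
      apply Finset.sum_congr rfl
      intro j _
      ring
    rw [h1, h4, h5, h6]
    have h7 : ∑ j ∈ range m, mu m (j + 1) * (q:ℝ) ^ (j + 1) * (hh q T t (dg q m (j + 1) x)
            - hh q T (dg q m j x + t) (dg q m (j + 1) x))
        = ∑ j ∈ range m, mu m (j + 1) * (q:ℝ) ^ (j + 1) * hh q T t (dg q m (j + 1) x)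
          - ∑ j ∈ range m, mu m (j + 1) * (q:ℝ) ^ (j + 1) * hh q T (dg q m j x + t) (dg q m (j + 1) x) := by
      rw [← Finset.sum_sub_distrib]
      apply Finset.sum_congr rfl
      intro j _
      ring
    rw [h7]
    ring
  show |∑ j ∈ range (m + 2), mu m j * (E j - beta q m T j (key q m j x))| ≤ _
  rw [hdec]
  have b1 : |∑ j ∈ range (m + 1), mu m j * (E j - I j)| ≤ (2 ^ (m + 1) - 1) * ((q:ℝ) + 1) := by
    calc _ ≤ ∑ j ∈ range (m + 1), |mu m j * (E j - I j)| := Finset.abs_sum_le_sum_abs _ _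
      _ ≤ ∑ j ∈ range (m + 1), mu m j * ((q:ℝ) + 1) := by
          apply Finset.sum_le_sum
          intro j hj
          rw [abs_mul, abs_of_nonneg (mu_nonneg m j)]
          exact mul_le_mul_of_nonneg_left (hδ j hj) (mu_nonneg m j)
      _ = _ := by rw [← Finset.sum_mul, sum_mu]
  have b2 : |mu m 0 * hh q T t (dg q m 0 x)| ≤ 2 ^ m * ((q:ℝ) ^ 2 / T) := by
    rw [abs_mul, abs_of_nonneg (mu_nonneg m 0)]
    exact mul_le_mul (mu_le m 0) (hh_le hT (dg_lt q m 0 x hq)) (abs_nonneg _) (by positivity)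
  have b3 : |∑ j ∈ range m, mu m (j + 1) * (q:ℝ) ^ (j + 1) * (hh q T t (dg q m (j + 1) x)
            - hh q T (dg q m j x + t) (dg q m (j + 1) x))|
      ≤ (if Good q T t then 0 else 2 * m * 2 ^ m * (q:ℝ) ^ m * ((q:ℝ) ^ 2 / T)) := by
    calc _ ≤ ∑ j ∈ range m, |mu m (j + 1) * (q:ℝ) ^ (j + 1) * (hh q T t (dg q m (j + 1) x)
            - hh q T (dg q m j x + t) (dg q m (j + 1) x))| := Finset.abs_sum_le_sum_abs _ _
      _ ≤ ∑ j ∈ range m, 2 ^ m * (q:ℝ) ^ m * (if Good q T t then 0 else 2 * ((q : ℝ) ^ 2 / T)) := by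
          apply Finset.sum_le_sum
          intro j hj
          rw [mem_range] at hj
          rw [abs_mul, abs_of_nonneg (mul_nonneg (mu_nonneg m _) (by positivity))]
          apply mul_le_mul
          · exact mul_le_mul (mu_le m _) (pow_le_pow_right₀ hq1 (by omega)) (by positivity) (by positivity)
          · exact hh_diff hT (dg_lt q m (j + 1) x hq) (dg_lt q m j x hq)
          · exact abs_nonneg _
          · positivity
      _ = _ := by
          rw [Finset.sum_const, card_range, nsmul_eq_mul]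
          split_ifs
          · ring
          · ring
  calc |_ + (_ : ℝ)| ≤ _ := abs_add_le _ _
    _ ≤ (|∑ j ∈ range (m + 1), mu m j * (E j - I j)| + |E (m + 1) - rho q T t * cj q (m + 1) u|)
        + (|mu m 0 * hh q T t (dg q m 0 x)| + |∑ j ∈ range m, mu m (j + 1) * (q:ℝ) ^ (j + 1) * (hh q T t (dg q m (j + 1) x)
            - hh q T (dg q m j x + t) (dg q m (j + 1) x))|) := by
        gcongr
        · exact abs_add_le _ _
        · exact abs_add_le _ _
    _ ≤ ((2 ^ (m + 1) - 1) * ((q:ℝ) + 1) + 2) + (2 ^ m * ((q:ℝ) ^ 2 / T)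
        + (if Good q T t then 0 else 2 * m * 2 ^ m * (q:ℝ) ^ m * ((q:ℝ) ^ 2 / T))) := by
        gcongr
    _ ≤ _ := by
        have h2 : (1:ℝ) ≤ 2 ^ (m + 1) := one_le_pow₀ (by norm_num)
        nlinarith

end Pool.Agent.Helper883.Dicut.Multi
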