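import Pool.Agent.Helper883.Dicut.MultiCount

set_option autoImplicit false

/-! The cliques of the multilevel construction. -/

namespace Pool.Agent.Helper883.Dicut.Multi

open Finset Pool.Agent.Helper883.Dicut

/-- Number of positions in a time slice. -/
def KK (q m : ℕ) : ℕ := q ^ (m + 1)

/-- Number of time slices. -/
def MM (q T : ℕ) : ℕ := 2 * T + 2 * q

/-- The vertex set, encoded as `t * K + u`. -/
def U (q m T : ℕ) : Finset ℕ :=
  (range (MM q T * KK q m)).filter (fun x => Sel q T (x / KK q m) (x % KK q m))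

/-- The clique of level `j` containing `x`. -/
def key (q m j x : ℕ) : ℕ × ℕ := ((x % KK q m) / q ^ (j + 1), ((x % KK q m) / q ^ j) % q + x / KK q m)

lemma KK_pos {q m : ℕ} (hq : 0 < q) : 0 < KK q m := Nat.pow_pos hq

lemma U_lt {q m T x : ℕ} (h : x ∈ U q m T) : x < MM q T * KK q m := mem_range.1 (mem_filter.1 h).1

lemma U_sel {q m T x : ℕ} (h : x ∈ U q m T) : Sel q T (x / KK q m) (x % KK q m) := (mem_filter.1 h).2

lemma slice_card (q m T t' a b : ℕ) (hq : 0 < q) (hb : b ≤ KK q m) :
    ((U q m T).filter (fun y => y / KK q m = t' ∧ a ≤ y % KK q m ∧ y % KK q m < b)).card = cnt q T t' a b := by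
  have hK := @KK_pos q m hq
  unfold cnt
  apply Finset.card_bij' (fun y _ => y % KK q m) (fun u _ => t' * KK q m + u)
  · intro y hy
    simp only [mem_filter, U, mem_range] at hy
    simp only [mem_filter, mem_Ico]
    obtain ⟨⟨_, h2⟩, h3, h4, h5⟩ := hy
    rw [h3] at h2
    exact ⟨⟨h4, h5⟩, h2⟩
  · intro u hu
    simp only [mem_filter, mem_Ico] at hu
    obtain ⟨⟨h1, h2⟩, h3⟩ := hu
    have huK : u < KK q m := by omega
    have e1 : (t' * KK q m + u) / KK q m = t' := by
      rw [mul_comm, Nat.mul_add_div hK, Nat.div_eq_of_lt huK, add_zero]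
    have e2 : (t' * KK q m + u) % KK q m = u := by
      rw [mul_comm, Nat.mul_add_mod, Nat.mod_eq_of_lt huK]
    simp only [mem_filter, U, mem_range, e1, e2]
    refine ⟨⟨?_, h3⟩, trivial, h1, h2⟩
    have ht := sel_time h3
    have : (t' + 1) * KK q m ≤ MM q T * KK q m := Nat.mul_le_mul_right _ (by unfold MM; omega)
    rw [add_mul, one_mul] at this
    omega
  · intro y hy
    simp only [mem_filter] at hy
    obtain ⟨_, h3, _, _⟩ := hy
    have := Nat.div_add_mod y (KK q m)
    show t' * KK q m + y % KK q m = y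
    rw [← h3]
    linarith [mul_comm (KK q m) (y / KK q m)]
  · intro u hu
    simp only [mem_filter, mem_Ico] at hu
    obtain ⟨⟨h1, h2⟩, h3⟩ := hu
    have huK : u < KK q m := by omega
    show (t' * KK q m + u) % KK q m = u
    rw [mul_comm, Nat.mul_add_mod, Nat.mod_eq_of_lt huK]

lemma digit_iff (q j P d u : ℕ) (hq : 0 < q) (hd : d < q) :
    (u / q ^ (j + 1) = P ∧ (u / q ^ j) % q = d) ↔ ((P * q + d) * q ^ j ≤ u ∧ u < (P * q + d + 1) * q ^ j) := by
  have hqj : 0 < q ^ j := Nat.pow_pos hq
  rw [pow_succ, ← Nat.div_div_eq_div_mul]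
  set v := u / q ^ j with hv
  have h1 : (P * q + d) * q ^ j ≤ u ↔ P * q + d ≤ v := by
    rw [hv, Nat.le_div_iff_mul_le hqj]
  have h2 : u < (P * q + d + 1) * q ^ j ↔ v < P * q + d + 1 := by
    rw [hv, Nat.div_lt_iff_lt_mul hqj]
  rw [h1, h2]
  constructor
  · rintro ⟨h3, h4⟩
    have := Nat.div_add_mod v q
    rw [h3, h4, mul_comm] at this
    omega
  · rintro ⟨h3, h4⟩
    have e : v = q * P + d := by rw [mul_comm]; omega
    rw [e]
    exact ⟨by rw [Nat.mul_add_div hq, Nat.div_eq_of_lt hd, add_zero], by rw [Nat.mul_add_mod, Nat.mod_eq_of_lt hd]⟩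

lemma block_le {q m j u d : ℕ} (hq : 0 < q) (hj : j ≤ m) (hu : u < KK q m) (hd : d < q) :
    (u / q ^ (j + 1) * q + d + 1) * q ^ j ≤ KK q m := by
  have hqj : 0 < q ^ (j + 1) := Nat.pow_pos hq
  have h1 : u / q ^ (j + 1) < q ^ (m - j) := by
    rw [Nat.div_lt_iff_lt_mul hqj, ← pow_add]
    have : m - j + (j + 1) = m + 1 := by omega
    rw [this]; exact hu
  calc (u / q ^ (j + 1) * q + d + 1) * q ^ j ≤ ((u / q ^ (j + 1) + 1) * q) * q ^ j := by
        apply Nat.mul_le_mul_right
        rw [add_mul, one_mul]; omega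
    _ = (u / q ^ (j + 1) + 1) * q ^ (j + 1) := by rw [pow_succ]; ring
    _ ≤ q ^ (m - j) * q ^ (j + 1) := Nat.mul_le_mul_right _ h1
    _ = KK q m := by
        unfold KK
        rw [← pow_add]
        congr 1; omega

section
variable (q m T j x : ℕ)

/-- auxiliary: digit, time, position, superblock -/
def dg : ℕ := ((x % KK q m) / q ^ j) % q

lemma dg_lt (hq : 0 < q) : dg q m j x < q := Nat.mod_lt _ hq

end

lemma key_eq_iff {q m j x y : ℕ} : key q m j x = key q m j y ↔
    ((y % KK q m) / q ^ (j + 1) = (x % KK q m) / q ^ (j + 1) ∧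
      dg q m j x + x / KK q m = dg q m j y + y / KK q m) := by
  unfold key dg
  rw [Prod.mk.injEq]
  exact ⟨fun h => ⟨h.1.symm, h.2⟩, fun h => ⟨h.1.symm, h.2⟩⟩

lemma aux_iff {q m j x y d : ℕ} (hq : 0 < q) (hd : d < q) :
    ((x < y ∧ key q m j x = key q m j y) ∧ dg q m j y = d) ↔
      ((x / KK q m < y / KK q m ∨ (x / KK q m = y / KK q m ∧ x % KK q m < y % KK q m)) ∧
        dg q m j x + x / KK q m = d + y / KK q m ∧
        ((x % KK q m) / q ^ (j + 1) * q + d) * q ^ j ≤ y % KK q m ∧
        y % KK q m < ((x % KK q m) / q ^ (j + 1) * q + d + 1) * q ^ j) := by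
  have hK := @KK_pos q m hq
  rw [key_eq_iff, lt_iff_grid hK]
  have hdi := digit_iff q j ((x % KK q m) / q ^ (j + 1)) d (y % KK q m) hq hd
  constructor
  · rintro ⟨⟨h1, h2, h3⟩, h4⟩
    obtain ⟨h5, h6⟩ := hdi.1 ⟨h2, h4⟩
    exact ⟨h1, by rw [h3, h4], h5, h6⟩
  · rintro ⟨h1, h2, h3, h4⟩
    obtain ⟨h5, h6⟩ := hdi.2 ⟨h3, h4⟩
    exact ⟨⟨h1, h5, by rw [h2]; unfold dg; rw [h6]⟩, h6⟩

lemma aux_iff' {q m j x y d : ℕ} (hq : 0 < q) (hd : d < q) :
    ((y < x ∧ key q m j x = key q m j y) ∧ dg q m j y = d) ↔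
      ((y / KK q m < x / KK q m ∨ (y / KK q m = x / KK q m ∧ y % KK q m < x % KK q m)) ∧
        dg q m j x + x / KK q m = d + y / KK q m ∧
        ((x % KK q m) / q ^ (j + 1) * q + d) * q ^ j ≤ y % KK q m ∧
        y % KK q m < ((x % KK q m) / q ^ (j + 1) * q + d + 1) * q ^ j) := by
  have hK := @KK_pos q m hq
  rw [key_eq_iff, lt_iff_grid hK]
  have hdi := digit_iff q j ((x % KK q m) / q ^ (j + 1)) d (y % KK q m) hq hd
  constructor
  · rintro ⟨⟨h1, h2, h3⟩, h4⟩
    obtain ⟨h5, h6⟩ := hdi.1 ⟨h2, h4⟩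
    exact ⟨h1, by rw [h3, h4], h5, h6⟩
  · rintro ⟨h1, h2, h3, h4⟩
    obtain ⟨h5, h6⟩ := hdi.2 ⟨h3, h4⟩
    exact ⟨⟨h1, h5, by rw [h2]; unfold dg; rw [h6]⟩, h6⟩

lemma own_block {q m j x : ℕ} (hq : 0 < q) :
    ((x % KK q m) / q ^ (j + 1) * q + dg q m j x) * q ^ j ≤ x % KK q m ∧
      x % KK q m < ((x % KK q m) / q ^ (j + 1) * q + dg q m j x + 1) * q ^ j :=
  (digit_iff q j _ _ _ hq (Nat.mod_lt _ hq)).1 ⟨rfl, rfl⟩

lemma after_eq {q m T j x : ℕ} (hq : 0 < q) (hj : j ≤ m) :
    ((U q m T).filter (fun y => x < y ∧ key q m j x = key q m j y)).card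
      = ∑ d ∈ range q, (if d < dg q m j x then
            cnt q T (dg q m j x + x / KK q m - d) (((x % KK q m) / q ^ (j + 1) * q + d) * q ^ j)
              (((x % KK q m) / q ^ (j + 1) * q + d + 1) * q ^ j)
          else if d = dg q m j x then
            cnt q T (x / KK q m) (x % KK q m + 1) (((x % KK q m) / q ^ (j + 1) * q + d + 1) * q ^ j)
          else 0) := by
  have hK := @KK_pos q m hq
  have hu : x % KK q m < KK q m := Nat.mod_lt _ hK
  rw [Finset.card_eq_sum_card_fiberwise (f := fun y => dg q m j y) (t := range q)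
    (fun y _ => by simpa using dg_lt q m j y hq)]
  apply Finset.sum_congr rfl
  intro d hd
  rw [mem_range] at hd
  rw [Finset.filter_filter]
  have hbl := @block_le q m j (x % KK q m) d hq hj hu hd
  have hown := @own_block q m j x hq
  by_cases h1 : d < dg q m j x
  · rw [if_pos h1, ← slice_card q m T _ _ _ hq hbl]
    congr 1
    apply Finset.filter_congr
    intro y _
    rw [aux_iff hq hd]
    clear hbl hown
    generalize dg q m j x = D at *
    generalize y / KK q m = ty
    generalize x / KK q m = tx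
    constructor
    · rintro ⟨_, h3, h4⟩
      exact ⟨by omega, h4⟩
    · rintro ⟨h2, h4⟩
      exact ⟨by left; omega, by omega, h4⟩
  · rw [if_neg h1]
    by_cases h2 : d = dg q m j x
    · rw [if_pos h2, ← slice_card q m T _ _ _ hq hbl]
      congr 1
      apply Finset.filter_congr
      intro y _
      rw [aux_iff hq hd]
      rw [← h2] at hown ⊢
      generalize ((x % KK q m) / q ^ (j + 1) * q + d) * q ^ j = L at *
      generalize ((x % KK q m) / q ^ (j + 1) * q + d + 1) * q ^ j = H at *
      generalize y / KK q m = ty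
      generalize x / KK q m = tx
      generalize y % KK q m = uy
      generalize x % KK q m = ux at *
      omega
    · rw [if_neg h2, Finset.card_eq_zero, Finset.filter_eq_empty_iff]
      rintro y _ h3
      rw [aux_iff hq hd] at h3
      clear hbl hown
      generalize dg q m j x = D at *
      generalize y / KK q m = ty at *
      generalize x / KK q m = tx at *
      omega

lemma before_eq {q m T j x : ℕ} (hq : 0 < q) (hj : j ≤ m) (hx : x ∈ U q m T) :
    ((U q m T).filter (fun y => y < x ∧ key q m j x = key q m j y)).card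
      = ∑ d ∈ range q, (if d < dg q m j x then 0
          else if d = dg q m j x then
            cnt q T (x / KK q m) (((x % KK q m) / q ^ (j + 1) * q + d) * q ^ j) (x % KK q m)
          else cnt q T (dg q m j x + x / KK q m - d) (((x % KK q m) / q ^ (j + 1) * q + d) * q ^ j)
              (((x % KK q m) / q ^ (j + 1) * q + d + 1) * q ^ j)) := by
  have hK := @KK_pos q m hq
  have hu : x % KK q m < KK q m := Nat.mod_lt _ hK
  have hsel := sel_time (U_sel hx)
  rw [Finset.card_eq_sum_card_fiberwise (f := fun y => dg q m j y) (t := range q)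
    (fun y _ => by simpa using dg_lt q m j y hq)]
  apply Finset.sum_congr rfl
  intro d hd
  rw [mem_range] at hd
  rw [Finset.filter_filter]
  have hbl := @block_le q m j (x % KK q m) d hq hj hu hd
  have hown := @own_block q m j x hq
  by_cases h1 : d < dg q m j x
  · rw [if_pos h1, Finset.card_eq_zero, Finset.filter_eq_empty_iff]
    rintro y _ h3
    rw [aux_iff' hq hd] at h3
    clear hbl hown
    generalize dg q m j x = D at *
    generalize y / KK q m = ty at *
    generalize x / KK q m = tx at *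
    omega
  · rw [if_neg h1]
    by_cases h2 : d = dg q m j x
    · rw [if_pos h2, ← slice_card q m T _ _ _ hq hu.le]
      congr 1
      apply Finset.filter_congr
      intro y _
      rw [aux_iff' hq hd]
      rw [← h2] at hown ⊢
      generalize ((x % KK q m) / q ^ (j + 1) * q + d) * q ^ j = L at *
      generalize ((x % KK q m) / q ^ (j + 1) * q + d + 1) * q ^ j = H at *
      generalize y / KK q m = ty
      generalize x / KK q m = tx at *
      generalize y % KK q m = uy
      generalize x % KK q m = ux at *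
      omega
    · rw [if_neg h2, ← slice_card q m T _ _ _ hq hbl]
      congr 1
      apply Finset.filter_congr
      intro y _
      rw [aux_iff' hq hd]
      clear hbl hown
      generalize dg q m j x = D at *
      generalize y / KK q m = ty
      generalize x / KK q m = tx at *
      constructor
      · rintro ⟨_, h3, h4⟩
        exact ⟨by omega, h4⟩
      · rintro ⟨h2, h4⟩
        exact ⟨by left; omega, by omega, h4⟩

end Pool.Agent.Helper883.Dicut.Multi
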