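import Pool.Agent.Helper883.Dicut.LowerW

set_option autoImplicit false

/-! Counting lemmas for the multilevel construction. -/

namespace Pool.Agent.Helper883.Dicut.Multi

open Finset Pool.Agent.Helper883.Dicut

/-- Tent function: `0` up to time `q`, rises with slope one to `T` at time `T + q`, then falls to `0`. -/
def tau (q T t : ℕ) : ℕ := min (t - q) (2 * T + q - t)

lemma tau_le (q T t : ℕ) : tau q T t ≤ T := by unfold tau; omega

/-- Is position `u` selected at time `t`? -/
def Sel (q T t u : ℕ) : Prop := tau q T t * u / T < tau q T t * (u + 1) / T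

instance (q T t u : ℕ) : Decidable (Sel q T t u) := by unfold Sel; infer_instance

lemma sel_tau {q T t u : ℕ} (h : Sel q T t u) : 0 < tau q T t := by
  unfold Sel at h
  by_contra h0
  have : tau q T t = 0 := by omega
  rw [this] at h
  simp at h

lemma sel_time {q T t u : ℕ} (h : Sel q T t u) : q < t ∧ t < 2 * T + q := by
  have := sel_tau h
  unfold tau at this
  omega

/-- number of selected positions in `[a, b)`. -/
def cnt (q T t a b : ℕ) : ℕ := ((Ico a b).filter (fun u => Sel q T t u)).card

lemma cnt_eq (q T t a : ℕ) (hT : 0 < T) : ∀ k : ℕ,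
    cnt q T t a (a + k) + tau q T t * a / T = tau q T t * (a + k) / T := by
  intro k
  induction k with
  | zero => simp [cnt]
  | succ k ih =>
    have h1 : cnt q T t a (a + (k + 1)) = cnt q T t a (a + k) + (if Sel q T t (a + k) then 1 else 0) := by
      unfold cnt
      rw [show a + (k + 1) = (a + k) + 1 by ring, ← Finset.insert_Ico_right_eq_Ico_add_one (by omega), Finset.filter_insert]
      split_ifs with h
      · rw [Finset.card_insert_of_notMem]
        simp
      · rfl
    have h2 : tau q T t * (a + (k + 1)) / T = tau q T t * (a + k) / T + (if Sel q T t (a + k) then 1 else 0) := by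
      have e : tau q T t * (a + (k + 1)) = tau q T t * (a + k) + tau q T t := by ring
      have hle := tau_le q T t
      have h3 : tau q T t * (a + k) / T ≤ tau q T t * (a + (k + 1)) / T := Nat.div_le_div_right (by rw [e]; omega)
      have h4 : tau q T t * (a + (k + 1)) / T ≤ tau q T t * (a + k) / T + 1 := by
        rw [e]
        calc (tau q T t * (a + k) + tau q T t) / T ≤ (tau q T t * (a + k) + T) / T := Nat.div_le_div_right (by omega)
          _ = _ := Nat.add_div_right _ hT
      by_cases h : Sel q T t (a + k)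
      · rw [if_pos h]
        have h' : tau q T t * (a + k) / T < tau q T t * (a + (k + 1)) / T := h
        omega
      · rw [if_neg h]
        have h' : ¬ (tau q T t * (a + k) / T < tau q T t * (a + (k + 1)) / T) := h
        omega
    rw [h1, h2]
    omega

/-- The density at time `t`. -/
noncomputable def rho (q T t : ℕ) : ℝ := (tau q T t : ℝ) / T

lemma rho_nonneg (q T t : ℕ) : 0 ≤ rho q T t := by unfold rho; positivity

lemma rho_le_one (q T t : ℕ) (hT : 0 < T) : rho q T t ≤ 1 := by
  unfold rho
  rw [div_le_one (by exact_mod_cast hT)]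
  exact_mod_cast tau_le q T t

lemma cnt_approx (q T t a k : ℕ) (hT : 0 < T) : |(cnt q T t a (a + k) : ℝ) - rho q T t * k| ≤ 1 := by
  have h := cnt_eq q T t a hT k
  have hT' : (0 : ℝ) < T := by exact_mod_cast hT
  have h' : (cnt q T t a (a + k) : ℝ) = ((tau q T t * (a + k) / T : ℕ) : ℝ) - ((tau q T t * a / T : ℕ) : ℝ) := by
    have : (cnt q T t a (a + k) : ℝ) + ((tau q T t * a / T : ℕ) : ℝ) = ((tau q T t * (a + k) / T : ℕ) : ℝ) := by
      exact_mod_cast h
    linarith
  have f : ∀ m : ℕ, ((m / T : ℕ) : ℝ) ≤ (m : ℝ) / T ∧ (m : ℝ) / T < ((m / T : ℕ) : ℝ) + 1 := by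
    intro m
    constructor
    · exact Nat.cast_div_le
    · rw [div_lt_iff₀ hT']
      have := Nat.lt_div_mul_add (a := m) hT
      have h2 : (m : ℝ) < ((m / T * T + T : ℕ) : ℝ) := by exact_mod_cast this
      push_cast at h2
      linarith
  have f1 := f (tau q T t * (a + k))
  have f2 := f (tau q T t * a)
  have e : rho q T t * k = ((tau q T t * (a + k) : ℕ) : ℝ) / T - ((tau q T t * a : ℕ) : ℝ) / T := by
    unfold rho; push_cast; field_simp; ring
  rw [h', e, abs_le]
  constructor <;> linarith [f1.1, f1.2, f2.1, f2.2]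

/-- Counting over time and position separately. -/
lemma card_filter_grid (M K : ℕ) (hK : 0 < K) (P : ℕ → ℕ → Prop) [∀ t u, Decidable (P t u)] :
    ((range (M * K)).filter (fun y => P (y / K) (y % K))).card
      = ∑ t ∈ range M, ((range K).filter (fun u => P t u)).card := by
  rw [← Finset.card_sigma]
  apply Finset.card_bij' (fun y _ => (⟨y / K, y % K⟩ : (_ : ℕ) × ℕ)) (fun p _ => p.1 * K + p.2)
  · intro y hy
    simp only [mem_filter, mem_range] at hy
    simp only [mem_sigma, mem_range, mem_filter]
    exact ⟨Nat.div_lt_of_lt_mul (by rw [mul_comm]; exact hy.1), Nat.mod_lt _ hK, hy.2⟩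
  · intro p hp
    simp only [mem_sigma, mem_range, mem_filter] at hp
    simp only [mem_filter, mem_range]
    have e1 : (p.1 * K + p.2) / K = p.1 := by
      rw [mul_comm, Nat.mul_add_div hK, Nat.div_eq_of_lt hp.2.1, add_zero]
    have e2 : (p.1 * K + p.2) % K = p.2 := by
      rw [mul_comm, Nat.mul_add_mod, Nat.mod_eq_of_lt hp.2.1]
    rw [e1, e2]
    refine ⟨?_, hp.2.2⟩
    nlinarith [hp.1, hp.2.1]
  · intro y _
    have := Nat.div_add_mod y K
    show y / K * K + y % K = y
    linarith [mul_comm K (y / K)]
  · intro p hp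
    simp only [mem_sigma, mem_range, mem_filter] at hp
    have e1 : (p.1 * K + p.2) / K = p.1 := by
      rw [mul_comm, Nat.mul_add_div hK, Nat.div_eq_of_lt hp.2.1, add_zero]
    have e2 : (p.1 * K + p.2) % K = p.2 := by
      rw [mul_comm, Nat.mul_add_mod, Nat.mod_eq_of_lt hp.2.1]
    simp only [e1, e2]

lemma lt_iff_grid {K x y : ℕ} (hK : 0 < K) :
    x < y ↔ (x / K < y / K ∨ (x / K = y / K ∧ x % K < y % K)) := by
  have e1 := Nat.div_add_mod x K
  have e2 := Nat.div_add_mod y K
  have m1 := Nat.mod_lt x hK
  have m2 := Nat.mod_lt y hK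
  constructor
  · intro h
    rcases lt_trichotomy (x / K) (y / K) with h1 | h1 | h1
    · exact Or.inl h1
    · right
      refine ⟨h1, ?_⟩
      rw [h1] at e1
      omega
    · exfalso
      have : K * (y / K + 1) ≤ K * (x / K) := Nat.mul_le_mul_left _ h1
      rw [mul_add, mul_one] at this
      omega
  · rintro (h | ⟨h1, h2⟩)
    · have : K * (x / K + 1) ≤ K * (y / K) := Nat.mul_le_mul_left _ h
      rw [mul_add, mul_one] at this
      omega
    · rw [h1] at e1
      omega

end Pool.Agent.Helper883.Dicut.Multi
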