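import Pool.Agent.Helper883.Dicut.MultiImb

set_option autoImplicit false

/-! Density drift. -/

namespace Pool.Agent.Helper883.Dicut.Multi

open Finset Pool.Agent.Helper883.Dicut

lemma rho_lip {q T a b : ℕ} (hT : 0 < T) (hab : a ≤ b + q) (hba : b ≤ a + q) :
    |rho q T a - rho q T b| ≤ (q : ℝ) / T := by
  have hT' : (0 : ℝ) < T := by exact_mod_cast hT
  unfold rho
  rw [← sub_div, abs_div, abs_of_pos hT']
  gcongr
  have h1 : tau q T a ≤ tau q T b + q := by unfold tau; omega
  have h2 : tau q T b ≤ tau q T a + q := by unfold tau; omega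
  have h1' : (tau q T a : ℝ) ≤ tau q T b + q := by exact_mod_cast h1
  have h2' : (tau q T b : ℝ) ≤ tau q T a + q := by exact_mod_cast h2
  rw [abs_le]
  constructor <;> linarith

lemma hh_le {q T t d : ℕ} (hT : 0 < T) (hd : d < q) : |hh q T t d| ≤ (q : ℝ) ^ 2 / T := by
  unfold hh
  calc _ ≤ ∑ d' ∈ range q, |sg d d' * (rho q T (d + t - d') - rho q T t)| := Finset.abs_sum_le_sum_abs _ _
    _ ≤ ∑ d' ∈ range q, (q : ℝ) / T := by
        apply Finset.sum_le_sum
        intro d' hd'
        rw [mem_range] at hd'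
        rw [abs_mul]
        have h1 := abs_sg d d'
        have h2 := @rho_lip q T (d + t - d') t hT (by omega) (by omega)
        calc _ ≤ 1 * ((q : ℝ) / T) := mul_le_mul h1 h2 (abs_nonneg _) zero_le_one
          _ = _ := one_mul _
    _ = _ := by rw [Finset.sum_const, card_range, nsmul_eq_mul]; ring

/-- Times at which the density is linear on a neighbourhood. -/
def Good (q T t : ℕ) : Prop := (2 * q ≤ t ∧ t + q ≤ T) ∨ (T + 2 * q ≤ t ∧ t + q ≤ 2 * T)

instance (q T t : ℕ) : Decidable (Good q T t) := by unfold Good; infer_instance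

lemma hh_good {q T t d b : ℕ} (hT : 0 < T) (hd : d < q) (hb : b < q) (hg : Good q T t) :
    hh q T (b + t) d = hh q T t d := by
  have hT' : (T : ℝ) ≠ 0 := by positivity
  unfold hh
  apply Finset.sum_congr rfl
  intro d' hd'
  rw [mem_range] at hd'
  congr 1
  unfold rho
  rw [← sub_div, ← sub_div]
  congr 1
  have key : (tau q T (d + (b + t) - d') : ℤ) - tau q T (b + t) = (tau q T (d + t - d') : ℤ) - tau q T t := by
    unfold Good at hg
    unfold tau
    rcases hg with ⟨h1, h2⟩ | ⟨h1, h2⟩
    · have e1 : min (d + (b + t) - d' - q) (2 * T + q - (d + (b + t) - d')) = d + (b + t) - d' - q := by omega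
      have e2 : min (b + t - q) (2 * T + q - (b + t)) = b + t - q := by omega
      have e3 : min (d + t - d' - q) (2 * T + q - (d + t - d')) = d + t - d' - q := by omega
      have e4 : min (t - q) (2 * T + q - t) = t - q := by omega
      rw [e1, e2, e3, e4]
      omega
    · have e1 : min (d + (b + t) - d' - q) (2 * T + q - (d + (b + t) - d')) = 2 * T + q - (d + (b + t) - d') := by omega
      have e2 : min (b + t - q) (2 * T + q - (b + t)) = 2 * T + q - (b + t) := by omega
      have e3 : min (d + t - d' - q) (2 * T + q - (d + t - d')) = 2 * T + q - (d + t - d') := by omega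
      have e4 : min (t - q) (2 * T + q - t) = 2 * T + q - t := by omega
      rw [e1, e2, e3, e4]
      omega
  exact_mod_cast congrArg (fun z : ℤ => (z : ℝ)) key

lemma hh_diff {q T t d b : ℕ} (hT : 0 < T) (hd : d < q) (hb : b < q) :
    |hh q T t d - hh q T (b + t) d| ≤ if Good q T t then 0 else 2 * ((q : ℝ) ^ 2 / T) := by
  split_ifs with hg
  · rw [hh_good hT hd hb hg, sub_self, abs_zero]
  · have h1 := @hh_le q T t d hT hd
    have h2 := @hh_le q T (b + t) d hT hd
    rw [abs_le] at h1 h2 ⊢
    constructor <;> linarith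

/-- There are few bad times with selected positions. -/
lemma card_bad (q T : ℕ) :
    (((range (MM q T)).filter (fun t => (q < t ∧ t < 2 * T + q) ∧ ¬ Good q T t)).card) ≤ 6 * q := by
  have h : (range (MM q T)).filter (fun t => (q < t ∧ t < 2 * T + q) ∧ ¬ Good q T t)
      ⊆ (Ico q (2 * q) ∪ Ico (T - q) (T + 2 * q)) ∪ Ico (2 * T - q) (2 * T + q) := by
    intro t ht
    simp only [mem_filter, mem_range, mem_union, mem_Ico] at ht ⊢
    unfold Good at ht
    omega
  calc _ ≤ _ := card_le_card h
    _ ≤ (Ico q (2 * q) ∪ Ico (T - q) (T + 2 * q)).card + (Ico (2 * T - q) (2 * T + q)).card := card_union_le _ _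
    _ ≤ ((Ico q (2 * q)).card + (Ico (T - q) (T + 2 * q)).card) + (Ico (2 * T - q) (2 * T + q)).card := by
        gcongr; exact card_union_le _ _
    _ ≤ _ := by rw [Nat.card_Ico, Nat.card_Ico, Nat.card_Ico]; omega

end Pool.Agent.Helper883.Dicut.Multi
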