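import Pool.Agent.Helper883.Dicut.MultiBound
import Pool.Agent.Helper883.Dicut.Expo

set_option autoImplicit false

/-! The multilevel multigraphs have small maximum directed cuts. -/

namespace Pool.Agent.Helper883.Dicut.Multi

open Finset Pool.Agent.Helper883.Dicut

/-- Arc multiplicities of the multilevel multigraph. -/
noncomputable def W (q m T x y : ℕ) : ℝ :=
  levelWeight (U q m T) (range (m + 2)) (mu m) (key q m) x y

lemma card_U_le (q m T : ℕ) : ((U q m T).card : ℝ) ≤ (MM q T : ℝ) * (KK q m : ℝ) := by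
  have h : (U q m T).card ≤ MM q T * KK q m := by
    unfold U
    calc _ ≤ (range (MM q T * KK q m)).card := card_filter_le _ _
      _ = _ := card_range _
  exact_mod_cast h

lemma bad_sum {q m T : ℕ} (hq : 0 < q) (c : ℝ) (hc : 0 ≤ c) :
    ∑ x ∈ U q m T, (if Good q T (x / KK q m) then 0 else c) ≤ 6 * q * (KK q m : ℝ) * c := by
  have hK := @KK_pos q m hq
  have h1 : ∑ x ∈ U q m T, (if Good q T (x / KK q m) then 0 else c)
      = ((((range (MM q T * KK q m)).filter (fun x => (fun t u => Sel q T t u ∧ ¬ Good q T t) (x / KK q m) (x % KK q m))).card : ℕ) : ℝ) * c := by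
    have : ∀ x ∈ U q m T, (if Good q T (x / KK q m) then 0 else c) = (if ¬ Good q T (x / KK q m) then c else 0) := by
      intro x _
      split_ifs <;> rfl
    rw [Finset.sum_congr rfl this, ← Finset.sum_filter, Finset.sum_const, nsmul_eq_mul]
    unfold U
    rw [Finset.filter_filter]
  rw [h1, card_filter_grid (MM q T) (KK q m) hK (fun t u => Sel q T t u ∧ ¬ Good q T t)]
  apply mul_le_mul_of_nonneg_right _ hc
  have h2 : ∑ t ∈ range (MM q T), ((range (KK q m)).filter (fun u => Sel q T t u ∧ ¬ Good q T t)).card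
      ≤ 6 * q * KK q m := by
    calc _ ≤ ∑ t ∈ range (MM q T), (if (q < t ∧ t < 2 * T + q) ∧ ¬ Good q T t then KK q m else 0) := by
          apply Finset.sum_le_sum
          intro t _
          split_ifs with h
          · calc _ ≤ (range (KK q m)).card := card_filter_le _ _
              _ = _ := card_range _
          · rw [Nat.le_zero, Finset.card_eq_zero, Finset.filter_eq_empty_iff]
            rintro u _ ⟨h3, h4⟩
            exact h ⟨sel_time h3, h4⟩
      _ = ((range (MM q T)).filter (fun t => (q < t ∧ t < 2 * T + q) ∧ ¬ Good q T t)).card * KK q m := by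
          rw [← Finset.sum_filter, Finset.sum_const, smul_eq_mul]
      _ ≤ _ := Nat.mul_le_mul_right _ (card_bad q T)
  exact_mod_cast h2

theorem cut_le {q m T : ℕ} (hq : 0 < q) (hT : 0 < T) (X : Finset (Fin (MM q T * KK q m))) :
    4 * cutWeight (fun x y : Fin (MM q T * KK q m) => W q m T x y) X
      ≤ totalWeight (fun x y : Fin (MM q T * KK q m) => W q m T x y)
        + (2 ^ m * ((MM q T : ℝ) * KK q m)
          + m * 2 ^ m * (q:ℝ) ^ (2 * m + 1) * ((MM q T : ℝ) + q) * ((q:ℝ) ^ 2 / T) ^ 2 / 8)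
        + (((MM q T : ℝ) * KK q m) * (2 ^ (m + 1) * ((q : ℝ) + 2) + 2 ^ m * ((q:ℝ) ^ 2 / T))
          + 6 * q * (KK q m : ℝ) * (2 * m * 2 ^ m * (q:ℝ) ^ m * ((q:ℝ) ^ 2 / T))) := by
  have hq1 : (1 : ℝ) ≤ q := by exact_mod_cast hq
  have hT' : (0 : ℝ) < T := by exact_mod_cast hT
  have h := cert (MM q T * KK q m) (U q m T) (range (m + 2)) (fun x hx => U_lt hx) (mu m)
    (fun j _ => mu_nonneg m j) (key q m) (beta q m T) (RR q m T)
    (fun j hj x hx => key_mem hq (by rw [mem_range] at hj; omega) hx) X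
  refine h.trans ?_
  have hU := card_U_le q m T
  gcongr ?_ + ?_ + ?_
  · exact le_rfl
  · -- level costs
    have h1 : ∑ j ∈ range (m + 2), mu m j * (((U q m T).card : ℝ) / 2 + (∑ k ∈ RR q m T j, beta q m T j k ^ 2) / 2)
        = 2 ^ m * ((U q m T).card : ℝ) + ∑ j ∈ range m, mu m j * ((∑ k ∈ RR q m T j, beta q m T j k ^ 2) / 2) := by
      have e1 : ∑ j ∈ range (m + 2), mu m j = 2 ^ (m + 1) := by
        rw [Finset.sum_range_succ, sum_mu, mu_top]; ring
      have e2 : ∑ j ∈ range (m + 2), mu m j * ((∑ k ∈ RR q m T j, beta q m T j k ^ 2) / 2)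
          = ∑ j ∈ range m, mu m j * ((∑ k ∈ RR q m T j, beta q m T j k ^ 2) / 2) := by
        rw [Finset.sum_range_succ, Finset.sum_range_succ]
        have z1 : ∑ k ∈ RR q m T m, beta q m T m k ^ 2 = 0 := by
          apply Finset.sum_eq_zero
          intro k _
          unfold beta; rw [if_neg (by omega)]; norm_num
        have z2 : ∑ k ∈ RR q m T (m + 1), beta q m T (m + 1) k ^ 2 = 0 := by
          apply Finset.sum_eq_zero
          intro k _
          unfold beta; rw [if_neg (by omega)]; norm_num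
        rw [z1, z2]; ring
      simp_rw [mul_add]
      rw [Finset.sum_add_distrib, e2, ← Finset.sum_mul, e1]
      ring
    rw [h1]
    have h2 : ∀ j ∈ range m, mu m j * ((∑ k ∈ RR q m T j, beta q m T j k ^ 2) / 2)
        ≤ 2 ^ m * (q:ℝ) ^ (2 * m + 1) * ((MM q T : ℝ) + q) * ((q:ℝ) ^ 2 / T) ^ 2 / 8 := by
      intro j hj
      rw [mem_range] at hj
      have hb : ∀ k ∈ RR q m T j, beta q m T j k ^ 2 ≤ (1 / 2 * (q:ℝ) ^ (j + 1) * ((q:ℝ) ^ 2 / T)) ^ 2 := by
        intro k _
        unfold beta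
        rw [if_pos hj]
        rw [mul_pow, mul_pow (1 / 2 * (q:ℝ) ^ (j + 1))]
        apply mul_le_mul_of_nonneg_left _ (by positivity)
        rw [← sq_abs (hh q T k.2 (k.1 % q))]
        exact pow_le_pow_left₀ (abs_nonneg _) (hh_le hT (Nat.mod_lt _ hq)) 2
      have hs : ∑ k ∈ RR q m T j, beta q m T j k ^ 2
          ≤ ((q:ℝ) ^ (m - j) * ((MM q T : ℝ) + q)) * (1 / 2 * (q:ℝ) ^ (j + 1) * ((q:ℝ) ^ 2 / T)) ^ 2 := by
        calc _ ≤ ∑ k ∈ RR q m T j, (1 / 2 * (q:ℝ) ^ (j + 1) * ((q:ℝ) ^ 2 / T)) ^ 2 := Finset.sum_le_sum hb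
          _ = _ := by
            rw [Finset.sum_const, nsmul_eq_mul]
            congr 1
            unfold RR
            rw [card_product, card_range, card_range]
            push_cast
            ring
      have hpow : (q:ℝ) ^ (m - j) * ((q:ℝ) ^ (j + 1)) ^ 2 ≤ (q:ℝ) ^ (2 * m + 1) := by
        rw [← pow_mul, ← pow_add]
        exact pow_le_pow_right₀ hq1 (by omega)
      calc _ ≤ 2 ^ m * ((((q:ℝ) ^ (m - j) * ((MM q T : ℝ) + q)) * (1 / 2 * (q:ℝ) ^ (j + 1) * ((q:ℝ) ^ 2 / T)) ^ 2) / 2) := by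
            apply mul_le_mul (mu_le m j) _ (by positivity) (by positivity)
            linarith
        _ = 2 ^ m * ((q:ℝ) ^ (m - j) * ((q:ℝ) ^ (j + 1)) ^ 2) * ((MM q T : ℝ) + q) * ((q:ℝ) ^ 2 / T) ^ 2 / 8 := by
            ring
        _ ≤ _ := by gcongr
    have h3 : ∑ j ∈ range m, mu m j * ((∑ k ∈ RR q m T j, beta q m T j k ^ 2) / 2)
        ≤ m * 2 ^ m * (q:ℝ) ^ (2 * m + 1) * ((MM q T : ℝ) + q) * ((q:ℝ) ^ 2 / T) ^ 2 / 8 := by
      calc _ ≤ ∑ j ∈ range m, 2 ^ m * (q:ℝ) ^ (2 * m + 1) * ((MM q T : ℝ) + q) * ((q:ℝ) ^ 2 / T) ^ 2 / 8 :=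
            Finset.sum_le_sum h2
        _ = _ := by rw [Finset.sum_const, card_range, nsmul_eq_mul]; ring
    gcongr
  · -- residuals
    calc _ ≤ ∑ x ∈ U q m T, ((2 ^ (m + 1) * ((q : ℝ) + 2) + 2 ^ m * ((q:ℝ) ^ 2 / T))
          + (if Good q T (x / KK q m) then 0 else 2 * m * 2 ^ m * (q:ℝ) ^ m * ((q:ℝ) ^ 2 / T))) := by
          apply Finset.sum_le_sum
          intro x hx
          exact resid hq hT hx
      _ = ((U q m T).card : ℝ) * (2 ^ (m + 1) * ((q : ℝ) + 2) + 2 ^ m * ((q:ℝ) ^ 2 / T))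
          + ∑ x ∈ U q m T, (if Good q T (x / KK q m) then 0 else 2 * m * 2 ^ m * (q:ℝ) ^ m * ((q:ℝ) ^ 2 / T)) := by
          rw [Finset.sum_add_distrib, Finset.sum_const, nsmul_eq_mul]
      _ ≤ _ := by
          apply add_le_add
          · gcongr
          · exact bad_sum hq _ (by positivity)

lemma W_lt {q m T x y : ℕ} (h : W q m T x y ≠ 0) : x < y := by
  unfold W levelWeight at h
  by_contra hc
  rw [if_neg (fun h' => hc h'.2.2)] at h
  exact h rfl

lemma W_nat (q m T x y : ℕ) : ∃ k : ℕ, W q m T x y = k := by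
  unfold W levelWeight
  by_cases h : x ∈ U q m T ∧ y ∈ U q m T ∧ x < y
  · rw [if_pos h]
    refine ⟨∑ j ∈ range (m + 2), (if key q m j x = key q m j y then 2 ^ (m - j) else 0), ?_⟩
    push_cast
    apply Finset.sum_congr rfl
    intro j _
    unfold mu
    split_ifs <;> rfl
  · rw [if_neg h]
    exact ⟨0, by simp⟩

lemma classM (q m T : ℕ) : ClassM (MM q T * KK q m) (fun x y : Fin (MM q T * KK q m) => W q m T x y) := by
  refine ⟨Grid.acyclic_of_lt _ ?_, fun u v => W_nat q m T u v⟩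
  intro x y h
  exact W_lt h

end Pool.Agent.Helper883.Dicut.Multi
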