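import Pool.Agent.Helper883.Dicut.MultiClique

set_option autoImplicit false

/-! Imbalances inside the cliques of the multilevel construction. -/

namespace Pool.Agent.Helper883.Dicut.Multi

open Finset Pool.Agent.Helper883.Dicut

/-- sign of `d - d'` -/
noncomputable def sg (d d' : ℕ) : ℝ := if d' < d then 1 else if d' = d then 0 else -1

/-- density drift -/
noncomputable def hh (q T t d : ℕ) : ℝ := ∑ d' ∈ range q, sg d d' * (rho q T (d + t - d') - rho q T t)

/-- in-block imbalance -/
noncomputable def cj (q j u : ℕ) : ℝ := (q : ℝ) ^ j - 1 - 2 * ((u % q ^ j : ℕ) : ℝ)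

lemma abs_sg (d d' : ℕ) : |sg d d'| ≤ 1 := by
  unfold sg; split_ifs <;> norm_num

lemma sum_sg {q d : ℕ} (hd : d < q) : ∑ d' ∈ range q, sg d d' = 2 * d + 1 - q := by
  have h1 : ∀ d' ∈ range q, sg d d' = 2 * (if d' < d then 1 else 0) + (if d' = d then 1 else 0) - 1 := by
    intro d' _
    unfold sg
    split_ifs <;> first | (exfalso; omega) | norm_num
  rw [Finset.sum_congr rfl h1, Finset.sum_sub_distrib, Finset.sum_add_distrib, ← Finset.mul_sum,
    Finset.sum_ite_eq' (range q) d, if_pos (mem_range.2 hd), ← Finset.sum_filter]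
  have h2 : (range q).filter (fun d' => d' < d) = range d := by
    ext a; simp only [mem_filter, mem_range]; omega
  rw [h2]
  simp

lemma cj_succ (q j u : ℕ) : cj q j u - cj q (j + 1) u = (q : ℝ) ^ j * (2 * ((u / q ^ j % q : ℕ) : ℝ) + 1 - q) := by
  unfold cj
  rw [Nat.mod_pow_succ]
  push_cast
  ring

lemma imb {q m T j x : ℕ} (hq : 0 < q) (hT : 0 < T) (hj : j ≤ m) (hx : x ∈ U q m T) :
    |(((U q m T).filter (fun y => x < y ∧ key q m j x = key q m j y)).card : ℝ)
      - (((U q m T).filter (fun y => y < x ∧ key q m j x = key q m j y)).card : ℝ)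
      - ((q : ℝ) ^ j * hh q T (x / KK q m) (dg q m j x)
        + rho q T (x / KK q m) * (2 * cj q j (x % KK q m) - cj q (j + 1) (x % KK q m)))| ≤ q + 1 := by
  rw [after_eq hq hj, before_eq hq hj hx]
  have hown := @own_block q m j x hq
  have hD : dg q m j x < q := dg_lt q m j x hq
  have hc := cj_succ q j (x % KK q m)
  have hDdef : ((x % KK q m) / q ^ j % q) = dg q m j x := rfl
  rw [hDdef] at hc
  have hmod : x % KK q m = ((x % KK q m) / q ^ (j + 1) * q + dg q m j x) * q ^ j + (x % KK q m) % q ^ j := by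
    have e1 := Nat.div_add_mod (x % KK q m) (q ^ j)
    have e2 := Nat.div_add_mod ((x % KK q m) / q ^ j) q
    rw [Nat.div_div_eq_div_mul, ← pow_succ] at e2
    have e3 : (x % KK q m) / q ^ (j + 1) * q + dg q m j x = (x % KK q m) / q ^ j := by
      rw [mul_comm]; exact e2
    rw [e3, mul_comm]; exact e1.symm
  have hcj : cj q j (x % KK q m) = (q : ℝ) ^ j - 1 - 2 * (((x % KK q m) % q ^ j : ℕ) : ℝ) := rfl
  have hr : (x % KK q m) % q ^ j < q ^ j := Nat.mod_lt _ (Nat.pow_pos hq)
  generalize (x % KK q m) % q ^ j = r at *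
  generalize cj q (j + 1) (x % KK q m) = c2 at *
  generalize cj q j (x % KK q m) = c1 at *
  generalize (x % KK q m) / q ^ (j + 1) = P at *
  generalize dg q m j x = D at *
  generalize x / KK q m = t at *
  generalize x % KK q m = u at *
  push_cast
  rw [← Finset.sum_sub_distrib]
  -- the ideal value as a sum
  have hideal : (q : ℝ) ^ j * hh q T t D + rho q T t * (2 * c1 - c2)
      = ∑ d ∈ range q, ((q : ℝ) ^ j * (sg D d * rho q T (D + t - d)) + (if d = D then rho q T t * c1 else 0)) := by
    rw [Finset.sum_add_distrib, Finset.sum_ite_eq' (range q) D, if_pos (mem_range.2 hD), ← Finset.mul_sum]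
    unfold hh
    simp_rw [mul_sub]
    rw [Finset.sum_sub_distrib, ← Finset.sum_mul, sum_sg hD]
    have : c2 = c1 - (q : ℝ) ^ j * (2 * (D : ℝ) + 1 - q) := by linarith
    rw [this]
    ring
  rw [hideal, ← Finset.sum_sub_distrib]
  have hterm : ∀ d ∈ range q, |((if d < D then (cnt q T (D + t - d) ((P * q + d) * q ^ j) ((P * q + d + 1) * q ^ j) : ℝ)
          else if d = D then (cnt q T t (u + 1) ((P * q + d + 1) * q ^ j) : ℝ) else 0)
        - (if d < D then 0 else if d = D then (cnt q T t ((P * q + d) * q ^ j) u : ℝ)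
          else (cnt q T (D + t - d) ((P * q + d) * q ^ j) ((P * q + d + 1) * q ^ j) : ℝ))
        - ((q : ℝ) ^ j * (sg D d * rho q T (D + t - d)) + (if d = D then rho q T t * c1 else 0)))|
      ≤ 1 + (if d = D then 1 else 0) := by
    intro d _
    have hblk : |(cnt q T (D + t - d) ((P * q + d) * q ^ j) ((P * q + d + 1) * q ^ j) : ℝ) - rho q T (D + t - d) * (q:ℝ) ^ j| ≤ 1 := by
      have := cnt_approx q T (D + t - d) ((P * q + d) * q ^ j) (q ^ j) hT
      rw [show (P * q + d) * q ^ j + q ^ j = (P * q + d + 1) * q ^ j by ring] at this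
      push_cast at this
      exact this
    unfold sg
    by_cases h1 : d < D
    · rw [if_pos h1, if_pos h1, if_pos h1, if_neg (by omega), if_neg (by omega)]
      simp only [sub_zero, add_zero, one_mul]
      rw [mul_comm ((q:ℝ) ^ j) (rho q T (D + t - d))]
      exact hblk
    · rw [if_neg h1, if_neg h1, if_neg h1]
      by_cases h2 : d = D
      · rw [if_pos h2, if_pos h2, if_pos h2, if_pos h2, if_pos h2]
        rw [h2]
        have e1 : (P * q + D + 1) * q ^ j = (u + 1) + (q ^ j - r - 1) := by
          have : (P * q + D + 1) * q ^ j = (P * q + D) * q ^ j + q ^ j := by ring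
          omega
        have h3 := cnt_approx q T t (u + 1) (q ^ j - r - 1) hT
        rw [← e1] at h3
        have h4 := cnt_approx q T t ((P * q + D) * q ^ j) r hT
        rw [← hmod] at h4
        have e2 : ((q ^ j - r - 1 : ℕ) : ℝ) = (q : ℝ) ^ j - r - 1 := by
          rw [Nat.cast_sub (by omega), Nat.cast_sub (by omega)]; push_cast; ring
        rw [e2] at h3
        rw [abs_le] at h3 h4 ⊢
        rw [hcj]
        constructor <;> nlinarith
      · rw [if_neg h2, if_neg h2, if_neg h2, if_neg h2, if_neg h2]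
        rw [abs_le] at hblk ⊢
        constructor <;> nlinarith
  calc _ ≤ ∑ d ∈ range q, (1 + (if d = D then (1:ℝ) else 0)) := by
        refine (Finset.abs_sum_le_sum_abs _ _).trans (Finset.sum_le_sum ?_)
        exact hterm
    _ = q + 1 := by
        rw [Finset.sum_add_distrib, Finset.sum_ite_eq' (range q) D, if_pos (mem_range.2 hD)]
        simp

/-- The top level: whole time slices. -/
lemma imb_top {q m T x : ℕ} (hq : 0 < q) (hT : 0 < T) (_hx : x ∈ U q m T) :
    |(((U q m T).filter (fun y => x < y ∧ key q m (m + 1) x = key q m (m + 1) y)).card : ℝ)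
      - (((U q m T).filter (fun y => y < x ∧ key q m (m + 1) x = key q m (m + 1) y)).card : ℝ)
      - rho q T (x / KK q m) * cj q (m + 1) (x % KK q m)| ≤ 2 := by
  have hK := @KK_pos q m hq
  have hu : x % KK q m < KK q m := Nat.mod_lt _ hK
  have hkey : ∀ y, key q m (m + 1) y = (0, y / KK q m) := by
    intro y
    have hy : y % KK q m < KK q m := Nat.mod_lt _ hK
    unfold key
    have e1 : y % KK q m / q ^ (m + 1 + 1) = 0 := by
      apply Nat.div_eq_of_lt
      calc _ < KK q m := hy
        _ ≤ q ^ (m + 1 + 1) := Nat.pow_le_pow_right hq (by omega)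
    have e2 : y % KK q m / q ^ (m + 1) = 0 := Nat.div_eq_of_lt hy
    rw [e1, e2]; simp
  have hA : ((U q m T).filter (fun y => x < y ∧ key q m (m + 1) x = key q m (m + 1) y)).card
      = cnt q T (x / KK q m) (x % KK q m + 1) (KK q m) := by
    rw [← slice_card q m T _ _ _ hq le_rfl]
    congr 1
    apply Finset.filter_congr
    intro y _
    have hy : y % KK q m < KK q m := Nat.mod_lt _ hK
    rw [hkey, hkey, Prod.mk.injEq, lt_iff_grid hK]
    generalize y / KK q m = ty
    generalize x / KK q m = tx
    generalize y % KK q m = uy at *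
    generalize x % KK q m = ux at *
    omega
  have hB : ((U q m T).filter (fun y => y < x ∧ key q m (m + 1) x = key q m (m + 1) y)).card
      = cnt q T (x / KK q m) 0 (x % KK q m) := by
    rw [← slice_card q m T _ _ _ hq hu.le]
    congr 1
    apply Finset.filter_congr
    intro y _
    have hy : y % KK q m < KK q m := Nat.mod_lt _ hK
    rw [hkey, hkey, Prod.mk.injEq, lt_iff_grid hK]
    generalize y / KK q m = ty
    generalize x / KK q m = tx
    generalize y % KK q m = uy at *
    generalize x % KK q m = ux at *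
    omega
  rw [hA, hB]
  have hcj : cj q (m + 1) (x % KK q m) = (KK q m : ℝ) - 1 - 2 * ((x % KK q m : ℕ) : ℝ) := by
    unfold cj
    have : x % KK q m % q ^ (m + 1) = x % KK q m := Nat.mod_eq_of_lt hu
    rw [this]; unfold KK; push_cast; ring
  rw [hcj]
  generalize x / KK q m = t at *
  generalize x % KK q m = u at *
  have h3 := cnt_approx q T t (u + 1) (KK q m - u - 1) hT
  have e1 : u + 1 + (KK q m - u - 1) = KK q m := by omega
  rw [e1] at h3
  have e2 : ((KK q m - u - 1 : ℕ) : ℝ) = (KK q m : ℝ) - u - 1 := by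
    rw [Nat.cast_sub (by omega), Nat.cast_sub (by omega)]; push_cast; ring
  rw [e2] at h3
  have h4 := cnt_approx q T t 0 u hT
  rw [zero_add] at h4
  rw [abs_le] at h3 h4 ⊢
  constructor <;> nlinarith

end Pool.Agent.Helper883.Dicut.Multi
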