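import Pool.Agent.Helper883.Dicut.MultiFinal

set_option autoImplicit false

/-! Lower bound for the number of arcs, and the choice of parameters. -/

namespace Pool.Agent.Helper883.Dicut.Multi

open Finset Pool.Agent.Helper883.Dicut

lemma top_after {q m T x : ℕ} (hq : 0 < q) :
    ((U q m T).filter (fun y => x < y ∧ key q m (m + 1) x = key q m (m + 1) y)).card
      = cnt q T (x / KK q m) (x % KK q m + 1) (KK q m) := by
  have hK := @KK_pos q m hq
  have hkey : ∀ y, key q m (m + 1) y = (0, y / KK q m) := by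
    intro y
    have hy : y % KK q m < KK q m := Nat.mod_lt _ hK
    unfold key
    have e1 : y % KK q m / q ^ (m + 1 + 1) = 0 := by
      apply Nat.div_eq_of_lt
      calc _ < KK q m := hy
        _ ≤ q ^ (m + 1 + 1) := Nat.pow_le_pow_right hq (by omega)
    have e2 : y % KK q m / q ^ (m + 1) = 0 := Nat.div_eq_of_lt hy
    rw [e1, e2]; simp
  rw [← slice_card q m T _ _ _ hq le_rfl]
  congr 1
  apply Finset.filter_congr
  intro y _
  have hy : y % KK q m < KK q m := Nat.mod_lt _ hK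
  rw [hkey, hkey, Prod.mk.injEq, lt_iff_grid hK]
  generalize y / KK q m = ty
  generalize x / KK q m = tx
  generalize y % KK q m = uy at *
  generalize x % KK q m = ux at *
  omega

lemma total_eq (q m T : ℕ) :
    totalWeight (fun x y : Fin (MM q T * KK q m) => W q m T x y)
      = ∑ j ∈ range (m + 2), mu m j * ∑ x ∈ U q m T, (((U q m T).filter (fun y => x < y ∧ key q m j x = key q m j y)).card : ℝ) := by
  unfold W
  rw [total_restr]
  have h := sum_level (MM q T * KK q m) (U q m T) (range (m + 2)) (fun x hx => U_lt hx) (mu m) (key q m) (fun _ _ => 1)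
  simp only [mul_one, Finset.sum_const, nsmul_eq_mul] at h
  exact h

lemma rho_half {q T t : ℕ} (hT : 0 < T) (h1 : q + T - T / 2 ≤ t) (h2 : t < q + T) : 1 / 2 ≤ rho q T t := by
  have hT' : (0 : ℝ) < T := by exact_mod_cast hT
  unfold rho
  rw [div_le_div_iff₀ (by norm_num) hT']
  have : T ≤ tau q T t * 2 := by unfold tau; omega
  rw [one_mul]
  exact_mod_cast this

lemma total_ge {q m T : ℕ} (hq : 0 < q) (hT : 0 < T) (hK16 : 16 ≤ KK q m) :
    ((T / 2 : ℕ) : ℝ) * ((KK q m : ℝ) / 8) ^ 2 ≤ totalWeight (fun x y : Fin (MM q T * KK q m) => W q m T x y) := by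
  have hK := @KK_pos q m hq
  have hK16' : (16 : ℝ) ≤ KK q m := by exact_mod_cast hK16
  rw [total_eq]
  have h1 : ∑ x ∈ U q m T, (((U q m T).filter (fun y => x < y ∧ key q m (m + 1) x = key q m (m + 1) y)).card : ℝ)
      ≤ ∑ j ∈ range (m + 2), mu m j * ∑ x ∈ U q m T, (((U q m T).filter (fun y => x < y ∧ key q m j x = key q m j y)).card : ℝ) := by
    have := Finset.single_le_sum (f := fun j => mu m j * ∑ x ∈ U q m T, (((U q m T).filter (fun y => x < y ∧ key q m j x = key q m j y)).card : ℝ))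
      (s := range (m + 2)) (fun j _ => mul_nonneg (mu_nonneg m j) (Finset.sum_nonneg (fun _ _ => Nat.cast_nonneg _)))
      (mem_range.2 (show m + 1 < m + 2 by omega))
    simp only [mu_top, one_mul] at this
    exact this
  refine le_trans ?_ h1
  have hfl : ((KK q m : ℝ) - 1) / 2 ≤ ((KK q m / 2 : ℕ) : ℝ) := by
    have : KK q m ≤ 2 * (KK q m / 2) + 1 := by omega
    have h' : (KK q m : ℝ) ≤ 2 * ((KK q m / 2 : ℕ) : ℝ) + 1 := by exact_mod_cast this
    linarith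
  have hfl2 : ((KK q m / 2 : ℕ) : ℝ) ≤ (KK q m : ℝ) / 2 := by
    have := @Nat.cast_div_le ℝ _ _ _ (KK q m) 2
    simpa using this
  have h2 : ∀ x ∈ (U q m T).filter (fun x => (fun t u => (q + T - T / 2 ≤ t ∧ t < q + T) ∧ u < KK q m / 2) (x / KK q m) (x % KK q m)),
      (KK q m : ℝ) / 8 ≤ (((U q m T).filter (fun y => x < y ∧ key q m (m + 1) x = key q m (m + 1) y)).card : ℝ) := by
    intro x hx
    simp only [mem_filter] at hx
    obtain ⟨_, ⟨h3, h4⟩, h5⟩ := hx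
    rw [top_after hq]
    generalize x / KK q m = t at *
    generalize x % KK q m = u at *
    have h6 := cnt_approx q T t (u + 1) (KK q m - (u + 1)) hT
    have e : u + 1 + (KK q m - (u + 1)) = KK q m := by omega
    rw [e, abs_le] at h6
    have h7 := rho_half hT h3 h4
    have h8 : (KK q m : ℝ) / 2 ≤ ((KK q m - (u + 1) : ℕ) : ℝ) := by
      have : KK q m / 2 ≤ KK q m - (u + 1) ∧ KK q m ≤ 2 * (KK q m - (u + 1)) := by omega
      have h' : (KK q m : ℝ) ≤ 2 * ((KK q m - (u + 1) : ℕ) : ℝ) := by exact_mod_cast this.2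
      linarith
    have h9 : 1 / 2 * ((KK q m : ℝ) / 2) ≤ rho q T t * ((KK q m - (u + 1) : ℕ) : ℝ) :=
      mul_le_mul h7 h8 (by positivity) (rho_nonneg _ _ _)
    linarith [h6.1]
  have h3 : ((T / 2 : ℕ) : ℝ) * ((KK q m : ℝ) / 8) ≤
      (((U q m T).filter (fun x => (fun t u => (q + T - T / 2 ≤ t ∧ t < q + T) ∧ u < KK q m / 2) (x / KK q m) (x % KK q m))).card : ℝ) := by
    unfold U
    rw [Finset.filter_filter]
    have := card_filter_grid (MM q T) (KK q m) hK (fun t u => Sel q T t u ∧ (q + T - T / 2 ≤ t ∧ t < q + T) ∧ u < KK q m / 2)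
    simp only at this ⊢
    rw [this]
    push_cast
    calc ((T / 2 : ℕ) : ℝ) * ((KK q m : ℝ) / 8) = ∑ t ∈ Ico (q + T - T / 2) (q + T), ((KK q m : ℝ) / 8) := by
          rw [Finset.sum_const, Nat.card_Ico, nsmul_eq_mul]
          congr 2
          omega
      _ ≤ ∑ t ∈ Ico (q + T - T / 2) (q + T), (((range (KK q m)).filter
            (fun u => Sel q T t u ∧ (q + T - T / 2 ≤ t ∧ t < q + T) ∧ u < KK q m / 2)).card : ℝ) := by
          apply Finset.sum_le_sum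
          intro t ht
          rw [mem_Ico] at ht
          have e : (range (KK q m)).filter (fun u => Sel q T t u ∧ (q + T - T / 2 ≤ t ∧ t < q + T) ∧ u < KK q m / 2)
              = (Ico 0 (KK q m / 2)).filter (fun u => Sel q T t u) := by
            ext u
            simp only [mem_filter, mem_range, mem_Ico]
            constructor
            · rintro ⟨_, h4, _, h5⟩; exact ⟨⟨Nat.zero_le _, h5⟩, h4⟩
            · rintro ⟨⟨_, h5⟩, h4⟩; exact ⟨by omega, h4, ht, h5⟩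
          rw [e]
          have h6 := cnt_approx q T t 0 (KK q m / 2) hT
          rw [zero_add, abs_le] at h6
          unfold cnt at h6
          have h7 := rho_half hT ht.1 ht.2
          have h9 : 1 / 2 * (((KK q m : ℝ) - 1) / 2) ≤ rho q T t * ((KK q m / 2 : ℕ) : ℝ) :=
            mul_le_mul h7 hfl (by linarith) (rho_nonneg _ _ _)
          linarith [h6.1]
      _ ≤ _ := by
          apply Finset.sum_le_sum_of_subset_of_nonneg
          · intro t ht
            rw [mem_Ico] at ht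
            rw [mem_range]
            unfold MM; omega
          · intros; positivity
  calc ((T / 2 : ℕ) : ℝ) * ((KK q m : ℝ) / 8) ^ 2 = (((T / 2 : ℕ) : ℝ) * ((KK q m : ℝ) / 8)) * ((KK q m : ℝ) / 8) := by ring
    _ ≤ (((U q m T).filter (fun x => (fun t u => (q + T - T / 2 ≤ t ∧ t < q + T) ∧ u < KK q m / 2) (x / KK q m) (x % KK q m))).card : ℝ) * ((KK q m : ℝ) / 8) := by
        gcongr
    _ = ∑ x ∈ (U q m T).filter (fun x => (fun t u => (q + T - T / 2 ≤ t ∧ t < q + T) ∧ u < KK q m / 2) (x / KK q m) (x % KK q m)), ((KK q m : ℝ) / 8) := by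
        rw [Finset.sum_const, nsmul_eq_mul]
    _ ≤ ∑ x ∈ (U q m T).filter (fun x => (fun t u => (q + T - T / 2 ≤ t ∧ t < q + T) ∧ u < KK q m / 2) (x / KK q m) (x % KK q m)),
        (((U q m T).filter (fun y => x < y ∧ key q m (m + 1) x = key q m (m + 1) y)).card : ℝ) := Finset.sum_le_sum h2
    _ ≤ _ := by
        apply Finset.sum_le_sum_of_subset_of_nonneg (Finset.filter_subset _ _)
        intros; positivity

/-- The family: for every `r ≥ 1` and `S ≥ 1` a multigraph with about `S^(5r)` arcs and excess `O(S^(3r+3))`. -/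
theorem family (r : ℕ) (hr : 1 ≤ r) : ∀ S : ℕ, 1 ≤ S → ∃ (n : ℕ) (w : WDigraph n), ClassM n w ∧
    (1 / 192 : ℝ) * (S:ℝ) ^ (5 * r) ≤ totalWeight w ∧
      mac w ≤ totalWeight w / 4 + (2 ^ (2 * r) * (4 * r + 8) * 4 ^ (3 * r + 3)) * (S:ℝ) ^ (3 * r + 3) := by
  intro S hS
  obtain ⟨m, hm⟩ : ∃ m, 2 * r = m + 1 := ⟨2 * r - 1, by omega⟩
  set q := 4 * S with hqdef
  have hq : 0 < q := by omega
  set T := q ^ r with hTdef
  have hT : 0 < T := Nat.pow_pos hq
  have hqT : q ≤ T := by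
    calc q = q ^ 1 := (pow_one q).symm
      _ ≤ q ^ r := Nat.pow_le_pow_right hq hr
  have hKT : KK q m = T ^ 2 := by
    unfold KK
    rw [hTdef, ← pow_mul, ← hm, mul_comm]
  have hT4 : 4 ≤ T := by omega
  have hK16 : 16 ≤ KK q m := by rw [hKT]; nlinarith
  refine ⟨_, _, classM q m T, ?_, ?_⟩
  · refine le_trans ?_ (total_ge hq hT hK16)
    have h1 : (T : ℝ) / 3 ≤ ((T / 2 : ℕ) : ℝ) := by
      have : T ≤ 3 * (T / 2) := by omega
      have h' : (T : ℝ) ≤ 3 * ((T / 2 : ℕ) : ℝ) := by exact_mod_cast this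
      linarith
    have h2 : (KK q m : ℝ) = (T : ℝ) ^ 2 := by rw [hKT]; push_cast; ring
    have h3 : (S : ℝ) ^ (5 * r) ≤ (T : ℝ) ^ 5 := by
      rw [hTdef]
      push_cast
      rw [← pow_mul, mul_comm 5 r]
      apply pow_le_pow_left₀ (by positivity)
      rw [hqdef]; push_cast
      have : (0:ℝ) ≤ S := by positivity
      linarith
    rw [h2]
    calc (1 / 192 : ℝ) * (S:ℝ) ^ (5 * r) ≤ 1 / 192 * (T : ℝ) ^ 5 := by gcongr
      _ = (T : ℝ) / 3 * ((T:ℝ) ^ 2 / 8) ^ 2 := by ring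
      _ ≤ _ := by gcongr
  · apply Dicut.mac_le
    intro X
    have h := @cut_le q m T hq hT X
    have hq1 : (1 : ℝ) ≤ q := by exact_mod_cast hq
    have hT' : (0 : ℝ) < T := by exact_mod_cast hT
    have hqT' : (q : ℝ) ≤ T := by exact_mod_cast hqT
    have hM : (MM q T : ℝ) ≤ 4 * T := by
      unfold MM; push_cast; linarith
    have hK : (KK q m : ℝ) = (T : ℝ) ^ 2 := by rw [hKT]; push_cast; ring
    have hTr : (T : ℝ) = (q : ℝ) ^ r := by rw [hTdef]; push_cast; ring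
    have hqq : (q:ℝ) ^ 2 / T ≤ q := by
      rw [div_le_iff₀ hT', sq]
      exact mul_le_mul_of_nonneg_left hqT' (by positivity)
    have hqm : (q:ℝ) ^ m * q = (T : ℝ) ^ 2 := by
      rw [hTr, ← pow_succ, ← hm, ← pow_mul, mul_comm]
    have hqm2 : (q:ℝ) ^ (2 * m + 1) * q = (T : ℝ) ^ 4 := by
      calc (q:ℝ) ^ (2 * m + 1) * q = ((q:ℝ) ^ m * q) ^ 2 := by ring
        _ = _ := by rw [hqm]; ring
    -- the three kinds of terms
    have t1 : 2 ^ m * ((MM q T : ℝ) * KK q m) ≤ 2 ^ m * 4 * (T:ℝ) ^ 3 := by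
      rw [hK]
      calc _ ≤ 2 ^ m * ((4 * T) * (T:ℝ) ^ 2) := by gcongr
        _ = _ := by ring
    have t2 : m * 2 ^ m * (q:ℝ) ^ (2 * m + 1) * ((MM q T : ℝ) + q) * ((q:ℝ) ^ 2 / T) ^ 2 / 8
        ≤ 2 ^ m * m * ((T:ℝ) ^ 3 * q ^ 3) := by
      calc _ ≤ m * 2 ^ m * (q:ℝ) ^ (2 * m + 1) * (5 * T) * ((q:ℝ) ^ 2 / T) ^ 2 / 8 := by
            gcongr; linarith
        _ = m * 2 ^ m * ((q:ℝ) ^ (2 * m + 1) * q) * 5 * q ^ 3 / T / 8 := by
            field_simp
        _ = (5 / 8) * (2 ^ m * m * ((T:ℝ) ^ 3 * q ^ 3)) := by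
            rw [hqm2]; field_simp
        _ ≤ _ := by
            have : (0:ℝ) ≤ 2 ^ m * m * ((T:ℝ) ^ 3 * q ^ 3) := by positivity
            linarith
    have t3 : ((MM q T : ℝ) * KK q m) * (2 ^ (m + 1) * ((q : ℝ) + 2) + 2 ^ m * ((q:ℝ) ^ 2 / T))
        ≤ 2 ^ m * 28 * ((T:ℝ) ^ 3 * q) := by
      rw [hK]
      calc _ ≤ ((4 * T) * (T:ℝ) ^ 2) * (2 ^ (m + 1) * (3 * q) + 2 ^ m * q) := by
            gcongr; linarith
        _ = _ := by rw [pow_succ (2:ℝ) m]; ring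
    have t4 : 6 * q * (KK q m : ℝ) * (2 * m * 2 ^ m * (q:ℝ) ^ m * ((q:ℝ) ^ 2 / T))
        ≤ 2 ^ m * (12 * m) * ((T:ℝ) ^ 3 * q ^ 2) := by
      rw [hK]
      apply le_of_eq
      calc _ = 2 ^ m * (12 * m) * ((q:ℝ) ^ m * q) * (T:ℝ) ^ 2 * q ^ 2 / T := by field_simp; ring
        _ = _ := by rw [hqm]; field_simp
    have hT3 : (0:ℝ) ≤ (T:ℝ) ^ 3 := by positivity
    have hq3a : (1:ℝ) ≤ (q:ℝ) ^ 3 := one_le_pow₀ hq1
    have hq3b : (q:ℝ) ≤ (q:ℝ) ^ 3 := by
      calc (q:ℝ) = (q:ℝ) ^ 1 := (pow_one _).symm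
        _ ≤ _ := pow_le_pow_right₀ hq1 (by norm_num)
    have hq3c : (q:ℝ) ^ 2 ≤ (q:ℝ) ^ 3 := pow_le_pow_right₀ hq1 (by norm_num)
    have s1 : 2 ^ m * 4 * (T:ℝ) ^ 3 ≤ 2 ^ m * 4 * ((T:ℝ) ^ 3 * q ^ 3) := by
      gcongr; nlinarith
    have s3 : 2 ^ m * 28 * ((T:ℝ) ^ 3 * q) ≤ 2 ^ m * 28 * ((T:ℝ) ^ 3 * q ^ 3) := by
      gcongr
    have s4 : 2 ^ m * (12 * m) * ((T:ℝ) ^ 3 * q ^ 2) ≤ 2 ^ m * (12 * m) * ((T:ℝ) ^ 3 * q ^ 3) := by
      gcongr
    have hfin : (T:ℝ) ^ 3 * (q:ℝ) ^ 3 = 4 ^ (3 * r + 3) * (S:ℝ) ^ (3 * r + 3) := by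
      rw [hTr, ← pow_mul, ← pow_add, ← mul_pow, hqdef]
      push_cast
      congr 1
      ring
    have hmr : (m : ℝ) + 1 = 2 * r := by exact_mod_cast hm.symm
    have hpow : (2:ℝ) ^ (2 * r) = 2 * 2 ^ m := by rw [hm, pow_succ]; ring
    have hsum : 4 * cutWeight (fun x y : Fin (MM q T * KK q m) => W q m T x y) X
        ≤ totalWeight (fun x y : Fin (MM q T * KK q m) => W q m T x y) + 2 ^ m * (32 + 13 * m) * ((T:ℝ) ^ 3 * q ^ 3) := by
      linarith
    rw [hfin] at hsum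
    rw [hpow]
    have hcoef : 2 ^ m * (32 + 13 * (m:ℝ)) ≤ 4 * (2 * 2 ^ m * (4 * r + 8)) := by
      have h4r : 4 * (r:ℝ) = 2 * (m + 1) := by linarith
      rw [h4r]
      have : (0:ℝ) < 2 ^ m := by positivity
      have hm0 : (0:ℝ) ≤ m := by positivity
      nlinarith
    have hX : (0:ℝ) ≤ 4 ^ (3 * r + 3) * (S:ℝ) ^ (3 * r + 3) := by positivity
    have := mul_le_mul_of_nonneg_right hcoef hX
    have e : 4 * (2 * 2 ^ m * (4 * r + 8)) * (4 ^ (3 * r + 3) * (S:ℝ) ^ (3 * r + 3))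
        = 4 * (2 * 2 ^ m * (4 * (r:ℝ) + 8) * 4 ^ (3 * r + 3) * (S:ℝ) ^ (3 * r + 3)) := by ring
    rw [e] at this
    linarith

theorem admissible_M_up (α : ℝ) (hα : 0 < α) (h : Admissible ClassM α) : α ≤ 3 / 5 := by
  have h1 : ∀ r : ℕ, 1 ≤ r → α ≤ ((3 * r + 3 : ℕ) : ℝ) / ((5 * r : ℕ) : ℝ) := fun r hr =>
    exponent_bound ClassM (3 * r + 3) (5 * r) (by omega) _ _ (by norm_num) (family r hr) α hα h
  by_contra hcon
  push Not at hcon
  obtain ⟨r, hr⟩ := exists_nat_gt (3 / 5 / (α - 3 / 5))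
  have hpos : 0 < α - 3 / 5 := by linarith
  have hr0 : 0 < (r : ℝ) := lt_of_le_of_lt (by positivity) hr
  have hr1 : 1 ≤ r := by
    have : 0 < r := by exact_mod_cast hr0
    omega
  have h2 := h1 r hr1
  push_cast at h2
  rw [le_div_iff₀ (by positivity)] at h2
  rw [div_lt_iff₀ hpos] at hr
  nlinarith

end Pool.Agent.Helper883.Dicut.Multi
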